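import Mathlib
import Pool.Agent.H54.G.W237.RK.Defs

set_option autoImplicit false
set_option linter.unusedVariables false

/-!
# Products of two heights: definitions and statements
-/

namespace Pool.Agent.H54.AD

open Polynomial
open Pool.Agent.W237.RK
open Pool.Agent.H58P (Qb ht)

/-- polynomials in two variables -/
abbrev PP (R : Type*) [Semiring R] : Type _ := Polynomial (Polynomial R)

/-- degree at most `a` in the inner variable and at most `b` in the outer variable -/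
def BiDeg {R : Type*} [Semiring R] (G : PP R) (a b : ℕ) : Prop :=
  G.natDegree ≤ b ∧ ∀ i, (G.coeff i).natDegree ≤ a

/-- the value at `(u, v)`, `u` for the inner variable and `v` for the outer variable -/
noncomputable def ev {R S : Type*} [CommSemiring R] [CommSemiring S] (f : R →+* S) (u v : S)
    (G : PP R) : S :=
  eval₂ (eval₂RingHom f u) v G

/-- the monomials `u ^ n₁ * v ^ n₂` with `n₁ < N₁` and `n₂ < N₂` -/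
def row {Ω : Type*} [Field Ω] (N₁ N₂ : ℕ) (u v : Ω) : Fin N₁ × Fin N₂ → Ω :=
  fun n => u ^ (n.1 : ℕ) * v ^ (n.2 : ℕ)

/-- the rank of the evaluation of the polynomials of bidegree less than `(N₁, N₂)` at the points
`(u x, v x)`, `x ∈ S` -/
noncomputable def rk {Ω ι : Type*} [Field Ω] (N₁ N₂ : ℕ) (u v : ι → Ω) (S : Set ι) : ℕ :=
  Module.finrank Ω (Submodule.span Ω ((fun x => row N₁ N₂ (u x) (v x)) '' S))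

/-- `u` and `v` are multiplicatively independent -/
def Indep (u v : Qb) : Prop := ∀ a b : ℤ, Tor (u ^ a * v ^ b) → a = 0 ∧ b = 0

/-- the conjugates of the pair `(u, v)` over `E` -/
def orb2 (E : GF) (u v : Qb) : Set (Qb × Qb) := {x | ∃ ρ : Aut, Fix E ρ ∧ (ρ u, ρ v) = x}

/-- only the trivial conjugate of `(u, v)` over `E` differs from `(u, v)` by roots of unity -/
def TR2 (E : GF) (u v : Qb) : Prop :=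
  ∀ ρ : Aut, Fix E ρ → Tor (ρ u / u) → Tor (ρ v / v) → ρ u = u ∧ ρ v = v

/-- the element of level `j` -/
noncomputable def pt (σ : Aut) (q e : ℕ) (y : Qb) (j : ℕ) : Qb := ((σ ^ (e - j)) y) ^ (q ^ j)

/-! ### elementary statements -/

/-- two short vectors of a lattice in the plane -/
def S_TWO : Prop := ∀ (θ H η : ℝ), 0 < H → 0 < η → ∃ a₁ c₁ a₂ c₂ : ℤ, a₁ * c₂ - a₂ * c₁ = 1 ∧
  (|(a₁ : ℝ)| * η + |a₁ * θ - c₁| * H) * (|(a₂ : ℝ)| * η + |a₂ * θ - c₂| * H) ≤ 4 * η * H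

/-- pigeonhole: a small difference occurring often -/
def S_PIG : Prop := ∀ (L B H : ℕ), 1 ≤ L → ∀ 𝒦 : Finset ℕ,
  𝒦 ⊆ Finset.Ico H (H + L * (8 * L * (B + 1))) → 8 * L * (B + 1) ≤ 𝒦.card →
  ∃ m : ℕ, 0 < m ∧ m < 2 * L ∧ B < (𝒦.filter (fun j => j + m ∈ 𝒦)).card

open Classical in
/-- greedy selection -/
def S_SEL : Prop := ∀ (L M : ℕ) (I : Finset ℕ) (R : ℕ → ℕ → Prop), 0 < M → L * M ≤ I.card →
  (∀ j ∈ I, R j j) → (∀ j ∈ I, (I.filter (fun k => R j k)).card < M) →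
  ∃ f : Fin L → ℕ, Function.Injective f ∧ (∀ i, f i ∈ I) ∧ ∀ i l, i < l → ¬ R (f i) (f l)

/-- Bezout's inequality for a prime polynomial in two variables -/
def S_BEZ : Prop := ∀ (k Ω : Type) [Field k] [Field Ω] (f : k →+* Ω) (G F : PP k)
  (a b c d : ℕ), Prime G → ¬ G ∣ F → BiDeg G a b → BiDeg F c d →
  ∀ Z : Finset (Ω × Ω), (∀ z ∈ Z, ev f z.1 z.2 G = 0 ∧ ev f z.1 z.2 F = 0) →
    Z.card ≤ a * d + b * c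

/-- a curve containing all the points `(u ^ (N ^ i), v ^ (N ^ i))`, at one absolute value -/
def S_ZP1 : Prop := ∀ (𝕜 : Type) [NormedField 𝕜] [CharZero 𝕜] [IsAlgClosed 𝕜] (G : PP 𝕜)
  (u v : 𝕜) (N : ℕ), G ≠ 0 → u ≠ 0 → v ≠ 0 → ‖u‖ ≠ 1 → 2 ≤ N →
  (∀ i : ℕ, ev (RingHom.id 𝕜) (u ^ (N ^ i)) (v ^ (N ^ i)) G = 0) →
  ∃ a b : ℤ, (a ≠ 0 ∨ b ≠ 0) ∧ ∃ n : ℕ, 0 < n ∧ (u ^ a * v ^ b) ^ n = 1

/-- an absolute value at which a given nonzero number that is no root of unity is not a unit -/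
def S_ZP2 : Prop := ∀ u : Qb, u ≠ 0 → ¬ Tor u → (∃ ψ : Qb →+* ℂ, ‖ψ u‖ ≠ 1) ∨
  ∃ (l : ℕ) (_ : Fact l.Prime) (ψ : Qb →+* PadicAlgCl l), ‖ψ u‖ ≠ 1

/-- a prime polynomial of small bidegree over `E` vanishing at `(u, v)` -/
def S_PRM : Prop := ∀ (E : GF) (u v : Qb) (a b : ℕ), FiniteDimensional ℚ E →
  (orb2 E u v).ncard < a * b →
  ∃ G : PP E, Prime G ∧ BiDeg G (a - 1) (b - 1) ∧ ev (algebraMap E Qb) u v G = 0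

/-- the rank for half of the degrees -/
def S_HALF : Prop := ∀ (Ω : Type) [Field Ω] (ι : Type) (N₁ N₂ n₁ n₂ : ℕ) (u v : ι → Ω)
  (S : Set ι), S.Finite → N₁ ≤ 2 * n₁ → N₂ ≤ 2 * n₂ → rk N₁ N₂ u v S ≤ 4 * rk n₁ n₂ u v S

/-- independence of several sets of points, triangular version -/
def S_IND : Prop := ∀ (Ω : Type) [Field Ω] (ι : Type) (L N₁ N₂ d₁ d₂ : ℕ) (u v : ι → Ω)
  (S : Fin L → Set ι) (G : Fin L → PP Ω), (∀ i, (S i).Finite) → (∀ i, BiDeg (G i) d₁ d₂) →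
  d₁ ≤ N₁ → d₂ ≤ N₂ →
  (∀ i l, l < i → ∀ x ∈ S l, ev (RingHom.id Ω) (u x) (v x) (G i) = 0) →
  (∀ i, ∀ x ∈ S i, ev (RingHom.id Ω) (u x) (v x) (G i) ≠ 0) →
  ∃ R : Fin L → Finset ι, (∀ i, ∀ x ∈ R i, x ∈ S i) ∧
    (∀ i, (R i).card = rk (N₁ - d₁) (N₂ - d₂) u v (S i)) ∧
    LinearIndependent Ω (fun x : (Σ i, R i) => row N₁ N₂ (u x.2) (v x.2))

/-- the rank does not increase under an embedding of fields -/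
def S_EMB : Prop := ∀ (Ω Ω' : Type) [Field Ω] [Field Ω'] (ψ : Ω →+* Ω') (ι : Type) (N₁ N₂ : ℕ)
  (u v : ι → Ω) (S : Set ι), S.Finite →
  rk N₁ N₂ (fun x => ψ (u x)) (fun x => ψ (v x)) S ≤ rk N₁ N₂ u v S

/-- linearly independent rows have a nonzero minor -/
def S_MIN : Prop := ∀ (Ω : Type) [Field Ω] (ι κ : Type) [Fintype ι] [DecidableEq ι] [Fintype κ]
  (A : ι → κ → Ω), LinearIndependent Ω A →
  ∃ c : ι → κ, (Matrix.of (fun i l => A i (c l))).det ≠ 0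

/-! ### local statements -/

/-- a determinant whose rows are close to a space of small dimension -/
def S_DETL : Prop := ∀ (p : ℕ) [Fact p.Prime] (ι : Type) [Fintype ι] [DecidableEq ι]
  (A : Matrix ι ι (PadicAlgCl p)) (s : ι → ℝ) (ρ : ℝ) (T r₀ : ℕ)
  (U : Submodule (PadicAlgCl p) (ι → PadicAlgCl p)), 0 < ρ → ρ ≤ 1 → (∀ i, 0 ≤ s i) →
  Module.finrank (PadicAlgCl p) U ≤ r₀ → (∀ i l, ‖A i l‖ ≤ s i) →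
  (∀ i, ∃ u ∈ U, ∀ l, ‖A i l - u l‖ ≤ ρ ^ T * s i) →
  ‖A.det‖ ≤ ρ ^ (T * (Fintype.card ι - r₀)) * ∏ i, s i

/-- the monomials at a point close to a finite set -/
def S_PAD : Prop := ∀ (p : ℕ) [Fact p.Prime] (ι : Type) (T N₁ N₂ : ℕ) (a₁ a₂ : ℤ) (Y : Finset ι)
  (x : ι → PadicAlgCl p) (γ₁ γ₂ : PadicAlgCl p) (ρ : ℝ), 0 < ρ → ρ ≤ 1 →
  Set.InjOn x Y → (∀ l ∈ Y, x l ≠ 0) → ‖γ₁‖ = 1 → ‖γ₂‖ = 1 →
  ∃ U : Submodule (PadicAlgCl p) (Fin N₁ × Fin N₂ → PadicAlgCl p),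
    Module.finrank (PadicAlgCl p) U ≤ 2 * T ^ 3 *
      rk N₁ N₂ (fun l => x l ^ a₁ * γ₁) (fun l => x l ^ a₂ * γ₂) (Y : Set ι) ∧
    ∀ z γ₁' γ₂' : PadicAlgCl p, z ≠ 0 → ‖γ₁'‖ = 1 → ‖γ₂'‖ = 1 → ‖γ₁' - γ₁‖ ≤ ρ →
      ‖γ₂' - γ₂‖ ≤ ρ → ∏ l ∈ Y, ‖z - x l‖ ≤ ρ * ∏ l ∈ Y, (max 1 ‖z‖ * max 1 ‖x l‖) →
      ∃ w ∈ U, ∀ n, ‖row N₁ N₂ (z ^ a₁ * γ₁') (z ^ a₂ * γ₂') n - w n‖ ≤
        ρ ^ T * ((max 1 ‖z ^ a₁‖) ^ N₁ * (max 1 ‖z ^ a₂‖) ^ N₂)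

/-- the levels of an element of `K` of norm one -/
def S_GAM : Prop := ∀ (p : ℕ) [Fact p.Prime] (γ : PadicAlgCl p) (a n₁ N j h : ℕ), 0 < a →
  a ≤ n₁ → ‖γ‖ = 1 → ‖γ - γ ^ (p ^ a)‖ ^ n₁ ≤ (p : ℝ)⁻¹ → n₁ + N ≤ j → n₁ + N ≤ h →
  ‖γ ^ ((p ^ a) ^ j) - γ ^ ((p ^ a) ^ h)‖ ≤ ((p : ℝ) ^ N)⁻¹

/-- different levels are close -/
def S_CLO : Prop := ∀ (p : ℕ) [Fact p.Prime] (ψ : Qb →+* PadicAlgCl p) (E : GF) (σ : Aut)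
  (a n₁ : ℕ), 0 < a → a ≤ n₁ → (∀ x ∈ E, σ x ∈ E) →
  (∀ x ∈ E, ‖ψ x‖ ≤ 1 → ‖ψ (σ x - x ^ (p ^ a))‖ ^ n₁ ≤ (p : ℝ)⁻¹) →
  ∀ (Y : Finset Qb), (∀ l, (∏ y ∈ Y, (X - C y)).coeff l ∈ E) →
  ∀ (e N j h : ℕ) (y : Qb), y ∈ Y → n₁ + N ≤ j → n₁ + N ≤ h → j ≤ e → h ≤ e → j ≠ h →
    ∏ y' ∈ Y, ‖ψ (pt σ (p ^ a) e y j) - ψ (pt σ (p ^ a) e y' h)‖ ≤ ((p : ℝ) ^ N)⁻¹ *
      ∏ y' ∈ Y, (max 1 ‖ψ (pt σ (p ^ a) e y j)‖ * max 1 ‖ψ (pt σ (p ^ a) e y' h)‖)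

/-! ### global statements -/

/-- the height inequality for a determinant of monomials -/
def S_GE : Prop := ∀ (p : ℕ) [Fact p.Prime] (φ : Qb →+* PadicAlgCl p) (M : GF),
  FiniteDimensional ℚ M → (∀ σ : Aut, ∀ x ∈ M, σ x ∈ M) →
  ∀ (ι : Type) [Fintype ι] [DecidableEq ι] (N₁ N₂ : ℕ) (u v : ι → Qb)
    (c : ι → Fin N₁ × Fin N₂), (∀ i, u i ∈ M ∧ v i ∈ M) →
  (Matrix.of (fun i l => row N₁ N₂ (u i) (v i) (c l))).det ≠ 0 →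
  ∀ (T : Finset (M ≃ₐ[ℚ] M)) (δ : ℝ), 0 < δ → δ ≤ 1 →
  (∀ τ ∈ T, ∃ t : Aut, (∀ x : M, t x = (τ x : Qb)) ∧
    ‖φ (t (Matrix.of (fun i l => row N₁ N₂ (u i) (v i) (c l))).det)‖ ≤
      δ * ∏ i, ((max 1 ‖φ (t (u i))‖) ^ N₁ * (max 1 ‖φ (t (v i))‖) ^ N₂)) →
  (T.card : ℝ) * -Real.log δ ≤ (Module.finrank ℚ M : ℝ) *
    (Fintype.card ι * Real.log (Fintype.card ι) + ∑ i, (N₁ * ht (u i) + N₂ * ht (v i)))

/-- a prime curve contains two levels at a given distance only rarely -/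
def S_ZE3 : Prop := ∀ (E : GF) (σ : Aut) (q e : ℕ) (u v : Qb), FiniteDimensional ℚ E →
  (∀ x ∈ E, σ x ∈ E) → 2 ≤ q → u ≠ 0 → v ≠ 0 → Indep u v → TR2 E u v →
  ∀ (G : PP E) (A B : ℕ), Prime G → BiDeg G A B → ∀ (𝒦 : Finset ℕ) (m : ℕ), 0 < m →
  (∀ j ∈ 𝒦, j + m ≤ e ∧ ev (algebraMap E Qb) (pt σ q e u j) (pt σ q e v j) G = 0 ∧
    ev (algebraMap E Qb) (pt σ q e u (j + m)) (pt σ q e v (j + m)) G = 0) →
  𝒦.card * (orb2 E u v).ncard ≤ 2 * q ^ m * (A * B)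

/-- the zero estimate -/
def S_ZEA : Prop := ∀ (Q₁ L : ℕ), 2 ≤ Q₁ → 1 ≤ L → ∃ W : ℕ, 1 ≤ W ∧
  ∀ (E : GF) (σ : Aut) (q e H N₁ N₂ : ℕ) (u v : Qb), FiniteDimensional ℚ E →
  (∀ x ∈ E, σ x ∈ E) → 2 ≤ q → q ≤ Q₁ → u ≠ 0 → v ≠ 0 → Indep u v → TR2 E u v → H + W ≤ e →
  2 * L ≤ N₁ → 2 * L ≤ N₂ → 32 * L ^ 2 * (orb2 E u v).ncard ≤ N₁ * N₂ →
  ∃ (h : ℕ) (R : Finset (ℕ × (Qb × Qb))), H ≤ h ∧ h < H + W ∧
    (∀ x ∈ R, H ≤ x.1 ∧ x.1 < H + W ∧ x.2 ∈ orb2 E u v) ∧ 0 < R.card ∧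
    L * rk N₁ N₂ (fun y : Qb × Qb => pt σ q e y.1 h) (fun y => pt σ q e y.2 h) (orb2 E u v) ≤
      4 * R.card ∧
    LinearIndependent Qb (fun x : R =>
      row N₁ N₂ (pt σ q e x.1.2.1 x.1.1) (pt σ q e x.1.2.2 x.1.1))

/-- the product of the heights of two independent monomials in `β` and elements of `K` -/
def S_AD2 : Prop := ∀ (p : ℕ) [Fact p.Prime] (φ : Qb →+* PadicAlgCl p) (κ n₁ : ℕ) (ε : ℝ),
  0 < ε → ∃ c : ℝ, 0 < c ∧ ∀ (K E : GF) (σ : Aut) (a : ℕ) (β γ₁ γ₂ : Qb) (a₁ a₂ : ℤ),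
    FiniteDimensional ℚ K → Module.finrank ℚ K ≤ κ → FiniteDimensional ℚ E → K ≤ E →
    NormalOver K E → Fix K σ → (∀ τ : Aut, Fix K τ → ∀ x ∈ E, τ (σ x) = σ (τ x)) →
    0 < a → a ≤ n₁ →
    (∀ x ∈ E, ‖φ x‖ ≤ 1 → ‖φ (σ x - x ^ (p ^ a))‖ ^ n₁ ≤ (p : ℝ)⁻¹) →
    β ≠ 0 → TorRigid E β → γ₁ ∈ K → γ₂ ∈ K → ‖φ γ₁‖ = 1 → ‖φ γ₂‖ = 1 →
    Indep (β ^ a₁ * γ₁) (β ^ a₂ * γ₂) →
    c / ((orb E β).ncard : ℝ) ^ (1 + ε) ≤ ht (β ^ a₁ * γ₁) * ht (β ^ a₂ * γ₂)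

/-- heights relative to the division group of `g`, over `K(μ_∞)` -/
def S_STAR : Prop := ∀ (K : GF) (g : Qbˣ), FiniteDimensional ℚ K → (g : Qb) ∈ K →
  ∀ ε : ℝ, 0 < ε → ∃ c : ℝ, 0 < c ∧ ∀ D : ℕ, 0 < D → ∀ β δ : Qb, β ≠ 0 →
    (orb (kinf K) β).ncard ≤ D → DivG (Subgroup.zpowers g) δ →
    ¬ DivG (Subgroup.zpowers g) β → c / (D : ℝ) ^ (1 + ε) ≤ ht (β / δ)

/-- the main theorem -/
def S_MAIN4 : Prop := ∀ (K : GF) (g : Qbˣ), FiniteDimensional ℚ K → (g : Qb) ∈ K →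
  ∀ (P : Finset ℕ), (∀ p ∈ P, p.Prime) → ∀ ε : ℝ, 0 < ε →
  ∃ c : ℝ, 0 < c ∧ ∀ D D' m : ℕ, 0 < D → 0 < D' → 0 < m → ∀ α : Qb, α ≠ 0 →
    (orb (fullField K (Subgroup.zpowers g) P) α).ncard ≤ D →
    (orb (fullField K (Subgroup.zpowers g) P) (α ^ m)).ncard ≤ D' →
    ¬ DivG (Subgroup.zpowers g) α → ∀ γ : Qb, DivG (Subgroup.zpowers g) γ →
    c / (D * (D' : ℝ) ^ ε) ≤ ht (α / γ)

end Pool.Agent.H54.AD
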