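import Mathlib
import Pool.Agent.H54.AD.Defs
import Pool.Agent.H54.RX.F6

set_option autoImplicit false
set_option linter.unusedVariables false

/-!
# Auxiliary lemmas on levels and orbits
-/

namespace Pool.Agent.H54.AD

open Polynomial
open Pool.Agent.W237.RK
open Pool.Agent.H58P (Qb ht)
open Pool.Agent.H54.RX

lemma aut_pow_fix {σ : Aut} {x : Qb} (h : σ x = x) (n : ℕ) : (σ ^ n) x = x := by
  induction n with
  | zero => rfl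
  | succ n ih => rw [pow_succ, AlgEquiv.mul_apply, h, ih]

/-- the levels of a monomial -/
lemma pt_mul (σ : Aut) (q e : ℕ) (y γ : Qb) (b : ℤ) (hγ : σ γ = γ) (j : ℕ) :
    pt σ q e (y ^ b * γ) j = (pt σ q e y j) ^ b * γ ^ (q ^ j) := by
  unfold pt
  rw [map_mul, map_zpow₀, aut_pow_fix hγ, mul_pow]
  congr 1
  rw [← zpow_natCast (_ ^ b) (q ^ j), ← zpow_mul, mul_comm b, zpow_mul, zpow_natCast]

lemma ht_pt (σ : Aut) (q e : ℕ) (y : Qb) (j : ℕ) : ht (pt σ q e y j) = (q : ℝ) ^ j * ht y := by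
  unfold pt
  rw [Pool.Agent.H58B.ht_pow, Pool.Agent.H58B.ht_conj]
  push_cast
  ring

lemma tor_zpow {x : Qb} (h : Tor x) (b : ℤ) : Tor (x ^ b) := by
  obtain ⟨n, hn, h⟩ := h
  refine ⟨n, hn, ?_⟩
  rw [← zpow_natCast, ← zpow_mul, mul_comm, zpow_mul, zpow_natCast, h, one_zpow]

lemma tor_of_zpow {x : Qb} {b : ℤ} (hb : b ≠ 0) (h : Tor (x ^ b)) : Tor x := by
  obtain ⟨n, hn, h⟩ := h
  have hx : x ≠ 0 := by
    rintro rfl
    rw [zero_zpow b hb, zero_pow hn.ne'] at h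
    exact zero_ne_one h
  rcases Int.natAbs_eq b with hb' | hb'
  · refine ⟨b.natAbs * n, Nat.mul_pos (Int.natAbs_pos.mpr hb) hn, ?_⟩
    rw [pow_mul, ← zpow_natCast x b.natAbs, ← hb', h]
  · refine ⟨b.natAbs * n, Nat.mul_pos (Int.natAbs_pos.mpr hb) hn, ?_⟩
    have h1 : x ^ (b.natAbs : ℤ) = (x ^ b)⁻¹ := by
      conv_rhs => rw [hb']
      rw [zpow_neg, inv_inv]
    rw [pow_mul, ← zpow_natCast x b.natAbs, h1, inv_pow, h, inv_one]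

/-- a monomial in a torsion-rigid element is torsion-rigid -/
lemma torRigid_mono {E : GF} {β γ : Qb} (hβ : β ≠ 0) (hγ0 : γ ≠ 0) (h : TorRigid E β)
    (hγ : γ ∈ E) (b : ℤ) : TorRigid E (β ^ b * γ) := by
  intro ρ hρ ht
  have hργ := hρ γ hγ
  rw [map_mul, map_zpow₀, hργ] at ht ⊢
  by_cases hb : b = 0
  · rw [hb, zpow_zero, zpow_zero]
  · have h1 : ρ β ^ b * γ / (β ^ b * γ) = (ρ β / β) ^ b := by
      rw [mul_div_mul_right _ _ hγ0, div_zpow]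
    rw [h1] at ht
    rw [h ρ hρ (tor_of_zpow hb ht)]

/-- a monomial has no more conjugates -/
lemma orb_mono_ncard {E : GF} (β γ : Qb) (hγ : γ ∈ E) (b : ℤ) :
    (orb E (β ^ b * γ)).ncard ≤ (orb E β).ncard := by
  have hsub : orb E (β ^ b * γ) ⊆ (fun y => y ^ b * γ) '' orb E β := by
    rintro _ ⟨ρ, hρ, rfl⟩
    refine ⟨ρ β, ⟨ρ, hρ, rfl⟩, ?_⟩
    rw [map_mul, map_zpow₀, hρ γ hγ]
  exact (Set.ncard_le_ncard hsub ((orb_finite E β).image _)).trans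
    (Set.ncard_image_le (orb_finite E β))

lemma orb2_eq {E : GF} (β γ₁ γ₂ : Qb) (h1 : γ₁ ∈ E) (h2 : γ₂ ∈ E) (a₁ a₂ : ℤ) :
    orb2 E (β ^ a₁ * γ₁) (β ^ a₂ * γ₂) = (fun y => (y ^ a₁ * γ₁, y ^ a₂ * γ₂)) '' orb E β := by
  ext x
  constructor
  · rintro ⟨ρ, hρ, rfl⟩
    refine ⟨ρ β, ⟨ρ, hρ, rfl⟩, ?_⟩
    simp only [map_mul, map_zpow₀, hρ γ₁ h1, hρ γ₂ h2]
  · rintro ⟨_, ⟨ρ, hρ, rfl⟩, rfl⟩
    refine ⟨ρ, hρ, ?_⟩
    simp only [map_mul, map_zpow₀, hρ γ₁ h1, hρ γ₂ h2]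

lemma orb_pos (E : GF) (β : Qb) : 0 < (orb E β).ncard :=
  (Set.ncard_pos (orb_finite E β)).mpr ⟨β, 1, fix_one E, rfl⟩

lemma max_pow_le {x : ℝ} (hx : 0 ≤ x) {n N : ℕ} (h : n ≤ N) : x ^ n ≤ (max 1 x) ^ N := by
  calc x ^ n ≤ (max 1 x) ^ n := pow_le_pow_left₀ hx (le_max_right _ _) n
    _ ≤ (max 1 x) ^ N := pow_le_pow_right₀ (le_max_left _ _) h

end Pool.Agent.H54.AD
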