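import Mathlib
import Pool.Agent.H54.AD.Lem

set_option autoImplicit false
set_option linter.unusedVariables false

/-!
# The product of two heights
-/

namespace Pool.Agent.H54.AD

open Polynomial
open Pool.Agent.W237.RK
open Pool.Agent.H58P (Qb ht)
open Pool.Agent.H58R (ht_nonneg)
open Pool.Agent.H58B (ht_conj ht_pow)
open Pool.Agent.W669.RK (exists_big tor_of_ht_zero)
open Pool.Agent.H54.RX

/-- the local estimate of the determinant -/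
def S_LOCD : Prop := ∀ (p : ℕ) [Fact p.Prime] (ψ : Qb →+* PadicAlgCl p) (E : GF) (σ : Aut)
  (a n₁ : ℕ), 0 < a → a ≤ n₁ → (∀ x ∈ E, σ x ∈ E) →
  (∀ x ∈ E, ‖ψ x‖ ≤ 1 → ‖ψ (σ x - x ^ (p ^ a))‖ ^ n₁ ≤ (p : ℝ)⁻¹) →
  ∀ (β γ₁ γ₂ : Qb) (a₁ a₂ : ℤ), β ≠ 0 → TorRigid E β → γ₁ ∈ E → γ₂ ∈ E → σ γ₁ = γ₁ →
  σ γ₂ = γ₂ → ‖ψ γ₁‖ = 1 → ‖ψ γ₂‖ = 1 →
  ∀ (e N T N₁ N₂ h : ℕ), n₁ + N ≤ h → h ≤ e →
  ∀ (ι : Type) [Fintype ι] [DecidableEq ι] (j : ι → ℕ) (y : ι → Qb × Qb)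
    (c : ι → Fin N₁ × Fin N₂), (∀ i, n₁ + N ≤ j i ∧ j i ≤ e) →
  (∀ i, y i ∈ orb2 E (β ^ a₁ * γ₁) (β ^ a₂ * γ₂)) →
  ‖ψ (Matrix.of (fun i l => row N₁ N₂ (pt σ (p ^ a) e (y i).1 (j i))
      (pt σ (p ^ a) e (y i).2 (j i)) (c l))).det‖ ≤
    (((p : ℝ) ^ N)⁻¹) ^ (T * (Fintype.card ι - 2 * T ^ 3 * rk N₁ N₂
      (fun y : Qb × Qb => pt σ (p ^ a) e y.1 h) (fun y => pt σ (p ^ a) e y.2 h)
      (orb2 E (β ^ a₁ * γ₁) (β ^ a₂ * γ₂)))) *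
    ∏ i, ((max 1 ‖ψ (pt σ (p ^ a) e (y i).1 (j i))‖) ^ N₁ *
      (max 1 ‖ψ (pt σ (p ^ a) e (y i).2 (j i))‖) ^ N₂)

theorem locd : S_PAD → S_DETL → S_CLO → S_GAM → S_EMB → S_LOCD := by
  classical
  intro hPAD hDETL hCLO hGAM hEMB p hp ψ E σ a n₁ ha ha' hσE hfrob β γ₁ γ₂ a₁ a₂ hβ htor hγ₁ hγ₂
    hσ₁ hσ₂ hn₁ hn₂ e N T N₁ N₂ h hh hhe ι _ _ j y c hj hy
  have hpp : p.Prime := hp.out
  have hp1 : (1 : ℝ) < p := by exact_mod_cast hpp.one_lt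
  have hp0 : (0 : ℝ) < p := by linarith
  set q := p ^ a with hq
  set ρ : ℝ := ((p : ℝ) ^ N)⁻¹ with hρ
  have hρ0 : 0 < ρ := by positivity
  have hρ1 : ρ ≤ 1 := inv_le_one_of_one_le₀ (one_le_pow₀ hp1.le)
  have hγ₁0 : γ₁ ≠ 0 := by
    rintro rfl
    rw [map_zero, norm_zero] at hn₁
    exact zero_ne_one hn₁
  have hγ₂0 : γ₂ ≠ 0 := by
    rintro rfl
    rw [map_zero, norm_zero] at hn₂
    exact zero_ne_one hn₂
  -- the conjugates of `β`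
  set Y := (orb_finite E β).toFinset with hY
  have hYmem : ∀ y, y ∈ Y ↔ ∃ ρ : Aut, Fix E ρ ∧ ρ β = y := by
    intro y
    rw [hY, Set.Finite.mem_toFinset]
    exact Iff.rfl
  have horb := orb2_eq β γ₁ γ₂ hγ₁ hγ₂ a₁ a₂
  -- the parameters of the rows
  have hex : ∀ i, ∃ b ∈ Y, y i = (b ^ a₁ * γ₁, b ^ a₂ * γ₂) := by
    intro i
    have h1 := hy i
    rw [horb] at h1
    obtain ⟨b, hb, h2⟩ := h1
    exact ⟨b, (hYmem b).mpr hb, h2.symm⟩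
  choose b hbY hb using hex
  have hu : ∀ (y : Qb) (k : ℕ), ψ (pt σ q e (y ^ a₁ * γ₁) k) =
      (ψ (pt σ q e y k)) ^ a₁ * (ψ γ₁) ^ (q ^ k) := by
    intro y k
    rw [pt_mul σ q e y γ₁ a₁ hσ₁ k, map_mul, map_zpow₀, map_pow]
  have hv : ∀ (y : Qb) (k : ℕ), ψ (pt σ q e (y ^ a₂ * γ₂) k) =
      (ψ (pt σ q e y k)) ^ a₂ * (ψ γ₂) ^ (q ^ k) := by
    intro y k
    rw [pt_mul σ q e y γ₂ a₂ hσ₂ k, map_mul, map_zpow₀, map_pow]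
  have hg1 : ∀ k : ℕ, ‖(ψ γ₁) ^ k‖ = 1 := fun k => by rw [norm_pow, hn₁, one_pow]
  have hg2 : ∀ k : ℕ, ‖(ψ γ₂) ^ k‖ = 1 := fun k => by rw [norm_pow, hn₂, one_pow]
  have hfr1 : ‖ψ γ₁ - ψ γ₁ ^ (p ^ a)‖ ^ n₁ ≤ (p : ℝ)⁻¹ := by
    have h1 := hfrob γ₁ hγ₁ hn₁.le
    rwa [hσ₁, map_sub, map_pow] at h1
  have hfr2 : ‖ψ γ₂ - ψ γ₂ ^ (p ^ a)‖ ^ n₁ ≤ (p : ℝ)⁻¹ := by
    have h1 := hfrob γ₂ hγ₂ hn₂.le
    rwa [hσ₂, map_sub, map_pow] at h1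
  have hY0 : ∀ z ∈ Y, z ≠ 0 := by
    intro z hz
    obtain ⟨τ, -, rfl⟩ := (hYmem z).mp hz
    exact (_root_.map_ne_zero τ).mpr hβ
  have hpt0 : ∀ z ∈ Y, ∀ k, ψ (pt σ q e z k) ≠ 0 := by
    intro z hz k
    unfold pt
    exact (_root_.map_ne_zero ψ).mpr (pow_ne_zero _ ((_root_.map_ne_zero (σ ^ (e - k))).mpr (hY0 z hz)))
  have hqpos : ∀ k : ℕ, 0 < q ^ k := fun k => pow_pos (pow_pos hpp.pos a) k
  have hinj : Set.InjOn (fun z : Qb => ψ (pt σ q e z h)) (Y : Set Qb) := by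
    intro z hz z' hz' hzz
    have h1 : pt σ q e z h = pt σ q e z' h := ψ.injective hzz
    unfold pt at h1
    have h2 : z ^ (q ^ h) = z' ^ (q ^ h) := by
      apply (σ ^ (e - h)).injective
      rw [map_pow, map_pow]
      exact h1
    obtain ⟨κ₁, hκ₁, hk1⟩ := (hYmem _).mp hz
    obtain ⟨κ₂, hκ₂, hk2⟩ := (hYmem _).mp hz'
    rw [← hk1, ← hk2] at h2
    have h7 := htor (κ₂⁻¹ * κ₁) (fix_mul (fix_inv hκ₂) hκ₁) ⟨q ^ h, hqpos h, by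
      have e1 : ((κ₂⁻¹ * κ₁) β) ^ (q ^ h) = β ^ (q ^ h) := by
        show (κ₂⁻¹ (κ₁ β)) ^ (q ^ h) = _
        rw [← map_pow, h2, map_pow, inv_apply_self]
      rw [div_pow, e1, div_self (pow_ne_zero _ hβ)]⟩
    have h8 : κ₂⁻¹ (κ₁ β) = β := h7
    have h9 := congrArg κ₂ h8
    rw [apply_inv_self, hk1, hk2] at h9
    exact h9
  -- the space of the center
  obtain ⟨U, hU1, hU2⟩ := hPAD p Qb T N₁ N₂ a₁ a₂ Y (fun z => ψ (pt σ q e z h))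
    ((ψ γ₁) ^ (q ^ h)) ((ψ γ₂) ^ (q ^ h)) ρ hρ0 hρ1 hinj (fun z hz => hpt0 z hz h) (hg1 _) (hg2 _)
  set r := rk N₁ N₂ (fun y : Qb × Qb => pt σ q e y.1 h) (fun y => pt σ q e y.2 h)
      (orb2 E (β ^ a₁ * γ₁) (β ^ a₂ * γ₂)) with hr
  have hUr : Module.finrank (PadicAlgCl p) U ≤ 2 * T ^ 3 * r := by
    refine hU1.trans (Nat.mul_le_mul_left _ ?_)
    have hfin2 : (orb2 E (β ^ a₁ * γ₁) (β ^ a₂ * γ₂)).Finite := by
      rw [horb]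
      exact (orb_finite E β).image _
    have h1 := hEMB Qb (PadicAlgCl p) ψ (Qb × Qb) N₁ N₂ (fun y : Qb × Qb => pt σ q e y.1 h)
      (fun y => pt σ q e y.2 h) (orb2 E (β ^ a₁ * γ₁) (β ^ a₂ * γ₂)) hfin2
    refine le_trans (le_of_eq ?_) h1
    unfold rk
    have hYc : (Y : Set Qb) = orb E β := Set.Finite.coe_toFinset _
    have himg : (fun z : Qb => row N₁ N₂ ((ψ (pt σ q e z h)) ^ a₁ * (ψ γ₁) ^ (q ^ h))
        ((ψ (pt σ q e z h)) ^ a₂ * (ψ γ₂) ^ (q ^ h))) '' (Y : Set Qb) =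
        (fun x : Qb × Qb => row N₁ N₂ (ψ (pt σ q e x.1 h)) (ψ (pt σ q e x.2 h))) ''
          (orb2 E (β ^ a₁ * γ₁) (β ^ a₂ * γ₂)) := by
      rw [horb, Set.image_image, hYc]
      apply Set.image_congr
      intro z hz
      rw [hu z h, hv z h]
    exact congrArg (fun s => Module.finrank (PadicAlgCl p) (Submodule.span (PadicAlgCl p) s)) himg
  -- the matrix
  set A : Matrix ι ι (PadicAlgCl p) := Matrix.of (fun i l => row N₁ N₂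
    ((ψ (pt σ q e (b i) (j i))) ^ a₁ * (ψ γ₁) ^ (q ^ (j i)))
    ((ψ (pt σ q e (b i) (j i))) ^ a₂ * (ψ γ₂) ^ (q ^ (j i))) (c l)) with hA
  have hdet : ψ (Matrix.of (fun i l => row N₁ N₂ (pt σ q e (y i).1 (j i))
      (pt σ q e (y i).2 (j i)) (c l))).det = A.det := by
    rw [RingHom.map_det]
    congr 1
    ext i l
    rw [RingHom.mapMatrix_apply, Matrix.map_apply, hA, Matrix.of_apply, Matrix.of_apply]
    unfold row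
    rw [map_mul, map_pow, map_pow, hb i, hu, hv]
  rw [hdet]
  set s : ι → ℝ := fun i => (max 1 ‖(ψ (pt σ q e (b i) (j i))) ^ a₁‖) ^ N₁ *
    (max 1 ‖(ψ (pt σ q e (b i) (j i))) ^ a₂‖) ^ N₂ with hs
  have hs' : ∀ i, (max 1 ‖ψ (pt σ q e (y i).1 (j i))‖) ^ N₁ *
      (max 1 ‖ψ (pt σ q e (y i).2 (j i))‖) ^ N₂ = s i := by
    intro i
    rw [hb i, hu, hv, norm_mul, norm_mul, hg1, hg2, mul_one, mul_one]
  simp only [hs']
  -- restriction to the columns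
  let res : (Fin N₁ × Fin N₂ → PadicAlgCl p) →ₗ[PadicAlgCl p] (ι → PadicAlgCl p) :=
    { toFun := fun f i => f (c i)
      map_add' := fun _ _ => rfl
      map_smul' := fun _ _ => rfl }
  refine hDETL p ι A s ρ T (2 * T ^ 3 * r) (U.map res) hρ0 hρ1 (fun i => by positivity)
    ((Submodule.finrank_map_le res U).trans hUr) ?_ ?_
  · intro i l
    rw [hA, Matrix.of_apply]
    unfold row
    rw [norm_mul, norm_pow, norm_pow, norm_mul, norm_mul, hg1, hg2, mul_one, mul_one]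
    exact mul_le_mul (max_pow_le (norm_nonneg _) (c l).1.2.le)
      (max_pow_le (norm_nonneg _) (c l).2.2.le) (by positivity) (by positivity)
  · intro i
    have hclose : ∏ l ∈ Y, ‖ψ (pt σ q e (b i) (j i)) - ψ (pt σ q e l h)‖ ≤
        ρ * ∏ l ∈ Y, (max 1 ‖ψ (pt σ q e (b i) (j i))‖ * max 1 ‖ψ (pt σ q e l h)‖) := by
      by_cases hjh : j i = h
      · have h0 : ∏ l ∈ Y, ‖ψ (pt σ q e (b i) (j i)) - ψ (pt σ q e l h)‖ = 0 := by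
          apply Finset.prod_eq_zero (hbY i)
          rw [hjh, sub_self, norm_zero]
        rw [h0]
        exact mul_nonneg hρ0.le (Finset.prod_nonneg fun l _ => by positivity)
      · exact hCLO p ψ E σ a n₁ ha ha' hσE hfrob Y (fun l => coeff_orb E β l) e N (j i) h (b i)
          (hbY i) (hj i).1 hh (hj i).2 hhe hjh
    obtain ⟨w, hwU, hw⟩ := hU2 (ψ (pt σ q e (b i) (j i))) ((ψ γ₁) ^ (q ^ (j i)))
      ((ψ γ₂) ^ (q ^ (j i))) (hpt0 _ (hbY i) _) (hg1 _) (hg2 _)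
      (hGAM p (ψ γ₁) a n₁ N (j i) h ha ha' hn₁ hfr1 (hj i).1 hh)
      (hGAM p (ψ γ₂) a n₁ N (j i) h ha ha' hn₂ hfr2 (hj i).1 hh) hclose
    refine ⟨res w, Submodule.mem_map_of_mem hwU, fun l => ?_⟩
    exact hw (c l)

end Pool.Agent.H54.AD
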