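import Mathlib
import Pool.Agent.H54.AD.Ad2

set_option autoImplicit false
set_option linter.unusedVariables false

/-!
# The product of two heights: the global part
-/

namespace Pool.Agent.H54.AD

open Polynomial
open Pool.Agent.W237.RK
open Pool.Agent.H58P (Qb ht)
open Pool.Agent.H58R (ht_nonneg)
open Pool.Agent.H58B (ht_conj ht_pow)
open Pool.Agent.W669.RK (exists_big tor_of_ht_zero)
open Pool.Agent.H54.RX

lemma floor_half {t : ℝ} (ht : 1 ≤ t) : t / 2 ≤ (⌊t⌋₊ : ℝ) := by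
  have h1 := Nat.lt_floor_add_one t
  have h2 : (1 : ℝ) ≤ (⌊t⌋₊ : ℝ) := by exact_mod_cast Nat.le_floor (by exact_mod_cast ht)
  linarith

set_option maxHeartbeats 1000000 in
theorem ad2 : S_LOCD → S_ZEA → S_GE → S_MIN → S_GLF3 → S_AD2 := by
  classical
  intro hLOC hZEA hGE hMIN hGLF p hp φ κ n₁ ε hε
  have hpp : p.Prime := hp.out
  have hp1 : (1 : ℝ) < p := by exact_mod_cast hpp.one_lt
  have hp0 : (0 : ℝ) < p := by linarith
  have hlogp : 0 < Real.log p := Real.log_pos hp1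
  -- the constants
  set ε' : ℝ := ε / (4 * (n₁ + 1)) with hε'
  have hε'0 : 0 < ε' := by positivity
  have hε'n : n₁ * ε' ≤ ε / 4 := by
    rw [hε', mul_div_assoc', div_le_iff₀ (by positivity)]
    nlinarith
  obtain ⟨T, hT⟩ := exists_nat_gt (2 * (κ : ℝ) / ε')
  have hκε : 0 ≤ 2 * (κ : ℝ) / ε' := by positivity
  have hT0 : 0 < T := by
    rcases Nat.eq_zero_or_pos T with h | h
    · rw [h, Nat.cast_zero] at hT
      linarith
    · exact h
  set L : ℕ := 16 * T ^ 3 with hL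
  have hL1 : 1 ≤ L := by
    have : 0 < T ^ 3 := pow_pos hT0 3
    omega
  obtain ⟨W, hW1, hZ⟩ := hZEA (p ^ (n₁ + 1)) L (by
    calc 2 ≤ p := hpp.two_le
      _ = p ^ 1 := (pow_one p).symm
      _ ≤ p ^ (n₁ + 1) := Nat.pow_le_pow_right hpp.pos (by omega)) hL1
  obtain ⟨c₀, hc₀, hglf⟩ := hGLF p φ κ n₁ (ε / 4) (by positivity)
  set G : ℝ := (p : ℝ) ^ (n₁ * (n₁ + W + 1)) * Real.exp (ε * (Real.log W + 1)) with hG
  have hGpos : 0 < G := by positivity
  have hLR : (1 : ℝ) ≤ L := by exact_mod_cast hL1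
  set c : ℝ := min (c₀ / (8 * L * G)) (1 / (512 * G ^ 2 * L ^ 2)) with hc
  have hcpos : 0 < c := lt_min (by positivity) (by positivity)
  have hcle1 : c * (8 * L * G) ≤ c₀ := by
    have h1 : c ≤ c₀ / (8 * L * G) := min_le_left _ _
    rwa [le_div_iff₀ (by positivity)] at h1
  have hcle2 : c * (512 * G ^ 2 * L ^ 2) ≤ 1 := by
    have h1 : c ≤ 1 / (512 * G ^ 2 * L ^ 2) := min_le_right _ _
    rwa [le_div_iff₀ (by positivity)] at h1
  refine ⟨c, hcpos, ?_⟩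
  intro K E σ a β γ₁ γ₂ a₁ a₂ hK hκ hE hKE hN' hσ hcomm ha ha' hfrob hβ htor hγ₁K hγ₂K hn1 hn2 hind
  by_contra hlt
  push Not at hlt
  have hγ₁ : γ₁ ∈ E := hKE hγ₁K
  have hγ₂ : γ₂ ∈ E := hKE hγ₂K
  have hγ₁0 : γ₁ ≠ 0 := by
    rintro rfl
    rw [map_zero, norm_zero] at hn1
    exact zero_ne_one hn1
  have hγ₂0 : γ₂ ≠ 0 := by
    rintro rfl
    rw [map_zero, norm_zero] at hn2
    exact zero_ne_one hn2
  have hn₁pos : 0 < n₁ := lt_of_lt_of_le ha ha'
  set u := β ^ a₁ * γ₁ with hu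
  set v := β ^ a₂ * γ₂ with hv
  have hu0 : u ≠ 0 := mul_ne_zero (zpow_ne_zero _ hβ) hγ₁0
  have hv0 : v ≠ 0 := mul_ne_zero (zpow_ne_zero _ hβ) hγ₂0
  have hut : ¬ Tor u := by
    intro h
    have h1 := hind 1 0 (by rwa [zpow_one, zpow_zero, mul_one])
    exact one_ne_zero h1.1
  have hvt : ¬ Tor v := by
    intro h
    have h1 := hind 0 1 (by rwa [zpow_one, zpow_zero, one_mul])
    exact one_ne_zero h1.2
  have hutr : TorRigid E u := torRigid_mono hβ hγ₁0 htor hγ₁ a₁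
  have hvtr : TorRigid E v := torRigid_mono hβ hγ₂0 htor hγ₂ a₂
  set D : ℕ := (orb E β).ncard with hD
  have hDpos : 0 < D := orb_pos E β
  have hDR : (1 : ℝ) ≤ D := by exact_mod_cast hDpos
  have hD0 : (0 : ℝ) < D := by linarith
  -- lower bounds for the two heights
  have hlow : ∀ y : Qb, y ≠ 0 → (orb E y).ncard ≤ D → TorRigid E y → ¬ Tor y →
      c₀ / (D : ℝ) ^ (1 + ε / 4) < ht y := by
    intro y hy hyD hytr hyt
    by_contra hcon
    push Not at hcon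
    exact hyt (hglf D hDpos K E σ a y hK hκ hE hKE hN' hσ hcomm ha ha' hfrob hy hyD hytr hcon)
  have hhu := hlow u hu0 (orb_mono_ncard β γ₁ hγ₁ a₁) hutr hut
  have hhv := hlow v hv0 (orb_mono_ncard β γ₂ hγ₂ a₂) hvtr hvt
  have hDε : ∀ x : ℝ, (0 : ℝ) < (D : ℝ) ^ x := fun x => Real.rpow_pos_of_pos hD0 x
  have hupos : 0 < ht u := lt_of_le_of_lt (div_pos hc₀ (hDε _)).le hhu
  have hvpos : 0 < ht v := lt_of_le_of_lt (div_pos hc₀ (hDε _)).le hhv
  -- upper bounds for the two heights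
  have hup : ∀ x y : ℝ, c₀ / (D : ℝ) ^ (1 + ε / 4) < x → 0 < y → x * y < c / (D : ℝ) ^ (1 + ε) →
      y * (D : ℝ) ^ (3 * ε / 4) * c₀ < c := by
    intro x y hx hy hxy
    have h1 : c₀ / (D : ℝ) ^ (1 + ε / 4) * y < c / (D : ℝ) ^ (1 + ε) :=
      (mul_lt_mul_of_pos_right hx hy).trans hxy
    rw [lt_div_iff₀ (hDε _)] at h1
    have e1 : (D : ℝ) ^ (1 + ε) = (D : ℝ) ^ (1 + ε / 4) * (D : ℝ) ^ (3 * ε / 4) := by
      rw [← Real.rpow_add hD0]
      congr 1
      ring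
    rw [e1] at h1
    calc y * (D : ℝ) ^ (3 * ε / 4) * c₀ = c₀ / (D : ℝ) ^ (1 + ε / 4) * y *
          ((D : ℝ) ^ (1 + ε / 4) * (D : ℝ) ^ (3 * ε / 4)) := by
          have := (hDε (1 + ε / 4)).ne'
          field_simp
      _ < c := h1
  have hv1 := hup (ht u) (ht v) hhu hvpos hlt
  have hu1 := hup (ht v) (ht u) hhv hupos (by rwa [mul_comm])
  -- the parameters
  have hWR : (1 : ℝ) ≤ W := by exact_mod_cast hW1
  have hWD : (1 : ℝ) ≤ W * D := by nlinarith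
  set Λ : ℝ := Real.log (W * D) + 1 with hΛ
  have hΛ1 : 1 ≤ Λ := by
    have := Real.log_nonneg hWD
    linarith
  obtain ⟨N, hN1, hN2⟩ := exists_N3 p hpp.one_lt (ε' * Λ) (by positivity)
  set H : ℕ := n₁ + N with hH
  set e : ℕ := H + W with he
  set Q : ℝ := (p : ℝ) ^ (n₁ * (H + W)) with hQ
  have hQpos : 0 < Q := by positivity
  have hQle : Q ≤ G * (D : ℝ) ^ (ε / 4) := by
    have e2 : Real.exp (n₁ * (ε' * Λ)) ≤ Real.exp (ε * (Real.log W + 1)) * (D : ℝ) ^ (ε / 4) := by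
      rw [Real.rpow_def_of_pos hD0, ← Real.exp_add]
      apply Real.exp_le_exp.mpr
      rw [hΛ, Real.log_mul (by positivity) (by positivity), ← mul_assoc]
      have h1 : 0 ≤ Real.log W := Real.log_nonneg hWR
      have h2 : 0 ≤ Real.log D := Real.log_nonneg hDR
      calc n₁ * ε' * (Real.log W + Real.log D + 1)
          ≤ ε / 4 * (Real.log W + Real.log D + 1) :=
            mul_le_mul_of_nonneg_right hε'n (by positivity)
        _ = ε / 4 * (Real.log W + 1) + Real.log D * (ε / 4) := by ring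
        _ ≤ ε * (Real.log W + 1) + Real.log D * (ε / 4) := by
            have : ε / 4 * (Real.log W + 1) ≤ ε * (Real.log W + 1) :=
              mul_le_mul_of_nonneg_right (by linarith) (by positivity)
            linarith
    calc Q = (p : ℝ) ^ (n₁ * (n₁ + W)) * ((p : ℝ) ^ N) ^ n₁ := by
          rw [hQ, hH, ← pow_mul, ← pow_add]
          congr 1
          ring
      _ ≤ (p : ℝ) ^ (n₁ * (n₁ + W)) * (p * Real.exp (ε' * Λ)) ^ n₁ := by gcongr
      _ = (p : ℝ) ^ (n₁ * (n₁ + W + 1)) * Real.exp (n₁ * (ε' * Λ)) := by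
          rw [mul_pow, ← Real.exp_nat_mul, ← mul_assoc, ← pow_add]
          congr 2
      _ ≤ (p : ℝ) ^ (n₁ * (n₁ + W + 1)) *
          (Real.exp (ε * (Real.log W + 1)) * (D : ℝ) ^ (ε / 4)) :=
          mul_le_mul_of_nonneg_left e2 (by positivity)
      _ = _ := by rw [hG]; ring
  have hDmono : ∀ x y : ℝ, x ≤ y → (D : ℝ) ^ x ≤ (D : ℝ) ^ y := fun x y h =>
    Real.rpow_le_rpow_of_exponent_le hDR h
  -- `Q` times a height is small
  have hsmall : ∀ y : ℝ, 0 < y → y * (D : ℝ) ^ (3 * ε / 4) * c₀ < c →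
      4 * L ≤ 1 / (2 * Q * y) := by
    intro y hy h1
    rw [le_div_iff₀ (by positivity)]
    have h2 : Q * y ≤ G * (y * (D : ℝ) ^ (3 * ε / 4)) := by
      calc Q * y ≤ (G * (D : ℝ) ^ (ε / 4)) * y := mul_le_mul_of_nonneg_right hQle hy.le
        _ ≤ (G * (D : ℝ) ^ (3 * ε / 4)) * y := by
            apply mul_le_mul_of_nonneg_right _ hy.le
            exact mul_le_mul_of_nonneg_left (hDmono _ _ (by linarith)) hGpos.le
        _ = _ := by ring
    have h3 : c₀ * (4 * L * (2 * (G * (y * (D : ℝ) ^ (3 * ε / 4))))) ≤ c₀ * 1 := by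
      calc c₀ * (4 * L * (2 * (G * (y * (D : ℝ) ^ (3 * ε / 4)))))
          = (8 * L * G) * (y * (D : ℝ) ^ (3 * ε / 4) * c₀) := by ring
        _ ≤ (8 * L * G) * c := mul_le_mul_of_nonneg_left h1.le (by positivity)
        _ = c * (8 * L * G) := by ring
        _ ≤ c₀ := hcle1
        _ = c₀ * 1 := (mul_one _).symm
    have h4 := le_of_mul_le_mul_left h3 hc₀
    calc 4 * (L : ℝ) * (2 * Q * y) = 4 * L * (2 * (Q * y)) := by ring
      _ ≤ 4 * L * (2 * (G * (y * (D : ℝ) ^ (3 * ε / 4)))) := by gcongr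
      _ ≤ 1 := h4
  have hsu := hsmall (ht u) hupos hu1
  have hsv := hsmall (ht v) hvpos hv1
  set N₁ : ℕ := ⌊1 / (2 * Q * ht u)⌋₊ with hN₁
  set N₂ : ℕ := ⌊1 / (2 * Q * ht v)⌋₊ with hN₂
  have hN₁L : 2 * L ≤ N₁ := Nat.le_floor (by push_cast; linarith)
  have hN₂L : 2 * L ≤ N₂ := Nat.le_floor (by push_cast; linarith)
  have hN₁le : (N₁ : ℝ) ≤ 1 / (2 * Q * ht u) := Nat.floor_le (by positivity)
  have hN₂le : (N₂ : ℝ) ≤ 1 / (2 * Q * ht v) := Nat.floor_le (by positivity)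
  have hN₁ge : 1 / (2 * Q * ht u) / 2 ≤ (N₁ : ℝ) := floor_half (by linarith)
  have hN₂ge : 1 / (2 * Q * ht v) / 2 ≤ (N₂ : ℝ) := floor_half (by linarith)
  have hNN : 32 * L ^ 2 * (orb2 E u v).ncard ≤ N₁ * N₂ := by
    have h1 : (orb2 E u v).ncard ≤ D := by
      rw [hu, hv, orb2_eq β γ₁ γ₂ hγ₁ hγ₂ a₁ a₂]
      exact Set.ncard_image_le (orb_finite E β)
    have h2 : (32 * (L : ℝ) ^ 2 * D) ≤ N₁ * N₂ := by
      have h3 : (1 / (2 * Q * ht u) / 2) * (1 / (2 * Q * ht v) / 2) ≤ (N₁ : ℝ) * N₂ :=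
        mul_le_mul hN₁ge hN₂ge (by positivity) (by positivity)
      refine le_trans ?_ h3
      have e1 : (1 / (2 * Q * ht u) / 2) * (1 / (2 * Q * ht v) / 2) =
          1 / (16 * Q ^ 2 * (ht u * ht v)) := by
        field_simp
        ring
      rw [e1, le_div_iff₀ (by positivity)]
      have h4 : ht u * ht v * (D : ℝ) ^ (1 + ε) < c := by
        rwa [lt_div_iff₀ (hDε _)] at hlt
      have h5 : Q ^ 2 ≤ G ^ 2 * (D : ℝ) ^ ε := by
        calc Q ^ 2 ≤ (G * (D : ℝ) ^ (ε / 4)) ^ 2 := by gcongr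
          _ = G ^ 2 * (D : ℝ) ^ (ε / 2) := by
              rw [mul_pow, ← Real.rpow_natCast ((D : ℝ) ^ (ε / 4)) 2, ← Real.rpow_mul hD0.le]
              congr 2
              push_cast
              ring
          _ ≤ G ^ 2 * (D : ℝ) ^ ε :=
              mul_le_mul_of_nonneg_left (hDmono _ _ (by linarith)) (by positivity)
      have h6 : (D : ℝ) ^ (1 + ε) = D * (D : ℝ) ^ ε := by
        rw [Real.rpow_add hD0, Real.rpow_one]
      have h7 : 0 < ht u * ht v := mul_pos hupos hvpos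
      calc 32 * (L : ℝ) ^ 2 * D * (16 * Q ^ 2 * (ht u * ht v))
          ≤ 32 * (L : ℝ) ^ 2 * D * (16 * (G ^ 2 * (D : ℝ) ^ ε) * (ht u * ht v)) := by gcongr
        _ = (512 * G ^ 2 * L ^ 2) * (ht u * ht v * (D * (D : ℝ) ^ ε)) := by ring
        _ ≤ (512 * G ^ 2 * L ^ 2) * c := by
            rw [← h6]
            exact mul_le_mul_of_nonneg_left h4.le (by positivity)
        _ = c * (512 * G ^ 2 * L ^ 2) := by ring
        _ ≤ 1 := hcle2
    have h3 : 32 * L ^ 2 * D ≤ N₁ * N₂ := by exact_mod_cast h2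
    exact (Nat.mul_le_mul_left _ h1).trans h3
  -- the zero estimate
  have hσE : ∀ x ∈ E, σ x ∈ E := fun x hx => hN' σ hσ x hx
  have hq2 : 2 ≤ p ^ a := by
    calc 2 ≤ p := hpp.two_le
      _ = p ^ 1 := (pow_one p).symm
      _ ≤ p ^ a := Nat.pow_le_pow_right hpp.pos ha
  obtain ⟨h, R, hhH, hhW, hR, hRpos, hRr, hRind⟩ := hZ E σ (p ^ a) e H N₁ N₂ u v hE hσE hq2
    (Nat.pow_le_pow_right hpp.pos (by omega)) hu0 hv0 hind
    (fun ρ hρ h1 h2 => ⟨hutr ρ hρ h1, hvtr ρ hρ h2⟩) le_rfl hN₁L hN₂L hNN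
  set r := rk N₁ N₂ (fun y : Qb × Qb => pt σ (p ^ a) e y.1 h) (fun y => pt σ (p ^ a) e y.2 h)
      (orb2 E u v) with hr
  obtain ⟨cc, hdet⟩ := hMIN Qb R (Fin N₁ × Fin N₂) _ hRind
  set uu : R → Qb := fun i => pt σ (p ^ a) e i.1.2.1 i.1.1 with huu
  set vv : R → Qb := fun i => pt σ (p ^ a) e i.1.2.2 i.1.1 with hvv
  have hdet' : (Matrix.of (fun i l => row N₁ N₂ (uu i) (vv i) (cc l))).det ≠ 0 := hdet
  obtain ⟨M, hMf, hMs, hEM, hsM, TT, hT1, hT2⟩ := exists_big K E hE hKE {β}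
  have hβM : β ∈ M := hsM β (Finset.mem_singleton_self β)
  have huM : u ∈ M := mul_mem (zpow_mem hβM _) (hEM hγ₁)
  have hvM : v ∈ M := mul_mem (zpow_mem hβM _) (hEM hγ₂)
  have hptM : ∀ y ∈ M, ∀ k, pt σ (p ^ a) e y k ∈ M := fun y hy k => pow_mem (hMs _ _ hy) _
  have hyM : ∀ i : R, i.1.2.1 ∈ M ∧ i.1.2.2 ∈ M := by
    intro i
    obtain ⟨ρ, hρ, h1⟩ := (hR i.1 i.2).2.2
    rw [← h1]
    exact ⟨hMs _ _ huM, hMs _ _ hvM⟩
  have hht : ∀ i : R, ht i.1.2.1 = ht u ∧ ht i.1.2.2 = ht v := by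
    intro i
    obtain ⟨ρ, hρ, h1⟩ := (hR i.1 i.2).2.2
    rw [← h1]
    exact ⟨ht_conj ρ u, ht_conj ρ v⟩
  -- the local gain
  set n : ℕ := R.card with hn
  set δ : ℝ := (((p : ℝ) ^ N)⁻¹) ^ (T * (n - 2 * T ^ 3 * r)) with hδ
  have hδ0 : 0 < δ := by positivity
  have hδ1 : δ ≤ 1 := by
    apply pow_le_one₀ (by positivity)
    exact inv_le_one_of_one_le₀ (one_le_pow₀ hp1.le)
  have hmain := hGE p φ M hMf hMs R N₁ N₂ uu vv cc
    (fun i => ⟨hptM _ (hyM i).1 _, hptM _ (hyM i).2 _⟩) hdet' TT δ hδ0 hδ1 (by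
      intro τ hτ
      obtain ⟨t, ht1, ht2⟩ := hT2 τ hτ
      refine ⟨t, ht2, ?_⟩
      set ψ : Qb →+* PadicAlgCl p := φ.comp (t : Qb →+* Qb) with hψ
      have hψa : ∀ y, φ (t y) = ψ y := fun y => rfl
      have hψE : ∀ x ∈ E, ‖ψ x‖ ≤ 1 → ‖ψ (σ x - x ^ (p ^ a))‖ ^ n₁ ≤ (p : ℝ)⁻¹ := by
        intro x hx hx1
        have h1 := hfrob (t x) (hN' t ht1 x hx) hx1
        have h2 : ψ (σ x - x ^ (p ^ a)) = φ (σ (t x) - (t x) ^ (p ^ a)) := by
          rw [← hcomm t ht1 x hx, ← map_pow, ← map_sub]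
          rfl
        rw [h2]
        exact h1
      have hψ1 : ‖ψ γ₁‖ = 1 := by
        show ‖φ (t γ₁)‖ = 1
        rw [ht1 γ₁ hγ₁K, hn1]
      have hψ2 : ‖ψ γ₂‖ = 1 := by
        show ‖φ (t γ₂)‖ = 1
        rw [ht1 γ₂ hγ₂K, hn2]
      simp only [hψa]
      have hloc := hLOC p ψ E σ a n₁ ha ha' hσE hψE β γ₁ γ₂ a₁ a₂ hβ htor hγ₁ hγ₂ (hσ _ hγ₁K)
        (hσ _ hγ₂K) hψ1 hψ2 e N T N₁ N₂ h hhH (by omega) R (fun i => i.1.1) (fun i => i.1.2) cc
        (fun i => ⟨(hR i.1 i.2).1, by have := (hR i.1 i.2).2.1; omega⟩)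
        (fun i => (hR i.1 i.2).2.2)
      rw [Fintype.card_coe] at hloc
      exact hloc)
  rw [Fintype.card_coe] at hmain
  -- the number of rows
  have hn0 : (0 : ℝ) < n := by exact_mod_cast hRpos
  have hnWD : (n : ℝ) ≤ W * D := by
    have h1 : (orb2 E u v).Finite := by
      rw [hu, hv, orb2_eq β γ₁ γ₂ hγ₁ hγ₂ a₁ a₂]
      exact (orb_finite E β).image _
    have h2 : R ⊆ Finset.Ico H (H + W) ×ˢ h1.toFinset := by
      intro x hx
      rw [Finset.mem_product, Finset.mem_Ico, Set.Finite.mem_toFinset]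
      exact ⟨⟨(hR x hx).1, (hR x hx).2.1⟩, (hR x hx).2.2⟩
    have h3 : n ≤ W * D := by
      calc n ≤ _ := Finset.card_le_card h2
        _ = W * (orb2 E u v).ncard := by
            rw [Finset.card_product, Nat.card_Ico, Nat.add_sub_cancel_left,
              Set.ncard_eq_toFinset_card _ h1]
        _ ≤ W * D := by
            apply Nat.mul_le_mul_left
            rw [hu, hv, orb2_eq β γ₁ γ₂ hγ₁ hγ₂ a₁ a₂]
            exact Set.ncard_image_le (orb_finite E β)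
    exact_mod_cast h3
  have hhalf : n ≤ 2 * (n - 2 * T ^ 3 * r) := by
    have h1 : 16 * T ^ 3 * r ≤ 4 * n := hRr
    have h2 : 4 * (T ^ 3 * r) ≤ n := by nlinarith
    have h3 : 2 * T ^ 3 * r = 2 * (T ^ 3 * r) := by ring
    omega
  -- the heights
  have hsum : ∑ i : R, ((N₁ : ℝ) * ht (uu i) + N₂ * ht (vv i)) ≤ n := by
    have h1 : ∀ i : R, (N₁ : ℝ) * ht (uu i) + N₂ * ht (vv i) ≤ 1 := by
      intro i
      have hqj : ((p ^ a : ℕ) : ℝ) ^ (i.1.1) ≤ Q := by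
        rw [hQ]
        push_cast
        rw [← pow_mul]
        apply pow_le_pow_right₀ hp1.le
        have := (hR i.1 i.2).2.1
        exact Nat.mul_le_mul ha' (by omega)
      have e1 : ht (uu i) ≤ Q * ht u := by
        show ht (pt σ (p ^ a) e i.1.2.1 i.1.1) ≤ _
        rw [ht_pt, (hht i).1]
        exact mul_le_mul_of_nonneg_right hqj hupos.le
      have e2 : ht (vv i) ≤ Q * ht v := by
        show ht (pt σ (p ^ a) e i.1.2.2 i.1.1) ≤ _
        rw [ht_pt, (hht i).2]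
        exact mul_le_mul_of_nonneg_right hqj hvpos.le
      have e3 : (N₁ : ℝ) * ht (uu i) ≤ 1 / 2 := by
        calc (N₁ : ℝ) * ht (uu i) ≤ (1 / (2 * Q * ht u)) * (Q * ht u) :=
              mul_le_mul hN₁le e1 (ht_nonneg _) (by positivity)
          _ = 1 / 2 := by field_simp
      have e4 : (N₂ : ℝ) * ht (vv i) ≤ 1 / 2 := by
        calc (N₂ : ℝ) * ht (vv i) ≤ (1 / (2 * Q * ht v)) * (Q * ht v) :=
              mul_le_mul hN₂le e2 (ht_nonneg _) (by positivity)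
          _ = 1 / 2 := by field_simp
      linarith
    have h2 := Finset.sum_le_card_nsmul Finset.univ
      (fun i : R => (N₁ : ℝ) * ht (uu i) + N₂ * ht (vv i)) 1 (fun i _ => h1 i)
    rw [Finset.card_univ, Fintype.card_coe, nsmul_eq_mul, mul_one] at h2
    exact h2
  -- conclusion
  have hlogδ : -Real.log δ = T * ((n - 2 * T ^ 3 * r : ℕ) : ℝ) * (N * Real.log p) := by
    rw [hδ, Real.log_pow, Real.log_inv, Real.log_pow]
    push_cast
    ring
  have hTpos : 0 < TT.card := by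
    have h1 : 0 < Module.finrank ℚ M := Module.finrank_pos
    rw [hT1] at h1
    exact Nat.pos_of_mul_pos_left h1
  have hTR : (0 : ℝ) < TT.card := by exact_mod_cast hTpos
  have hTcard : (Module.finrank ℚ M : ℝ) ≤ TT.card * κ := by
    have : Module.finrank ℚ M ≤ TT.card * κ := by
      rw [hT1, mul_comm]
      exact Nat.mul_le_mul_left _ hκ
    exact_mod_cast this
  have hright : (n : ℝ) * Real.log n + ∑ i : R, ((N₁ : ℝ) * ht (uu i) + N₂ * ht (vv i)) ≤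
      n * Λ := by
    have h1 : Real.log n ≤ Real.log (W * D) := Real.log_le_log hn0 hnWD
    calc _ ≤ n * Real.log (W * D) + n := by
          apply add_le_add _ hsum
          exact mul_le_mul_of_nonneg_left h1 hn0.le
      _ = n * Λ := by rw [hΛ]; ring
  have hNp : 0 < N * Real.log p := lt_trans (by positivity) hN1
  have hhalfR : (n : ℝ) ≤ 2 * ((n - 2 * T ^ 3 * r : ℕ) : ℝ) := by exact_mod_cast hhalf
  have hTRR : (0 : ℝ) < T := by exact_mod_cast hT0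
  have hfin : (TT.card : ℝ) * n * (T * (N * Real.log p)) ≤ TT.card * n * (2 * κ * Λ) := by
    calc (TT.card : ℝ) * n * (T * (N * Real.log p))
        ≤ TT.card * (2 * ((n - 2 * T ^ 3 * r : ℕ) : ℝ)) * (T * (N * Real.log p)) := by
          gcongr
      _ = 2 * (TT.card * (T * ((n - 2 * T ^ 3 * r : ℕ) : ℝ) * (N * Real.log p))) := by ring
      _ = 2 * (TT.card * -Real.log δ) := by rw [hlogδ]
      _ ≤ 2 * ((Module.finrank ℚ M : ℝ) * (n * Λ)) := by
          have h1 := hmain.trans (mul_le_mul_of_nonneg_left hright (Nat.cast_nonneg _))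
          linarith
      _ ≤ 2 * ((TT.card * κ) * (n * Λ)) := by gcongr
      _ = _ := by ring
  have hfin2 : (T : ℝ) * (N * Real.log p) ≤ 2 * κ * Λ :=
    le_of_mul_le_mul_left hfin (by positivity)
  have hfin3 : 2 * κ * Λ < T * (N * Real.log p) := by
    have h6 : 0 < ε' * Λ := by positivity
    calc 2 * κ * Λ = (2 * (κ : ℝ) / ε') * (ε' * Λ) := by field_simp
      _ ≤ (2 * (κ : ℝ) / ε') * (N * Real.log p) := mul_le_mul_of_nonneg_left hN1.le hκε
      _ < T * (N * Real.log p) := mul_lt_mul_of_pos_right hT hNp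
  linarith

end Pool.Agent.H54.AD
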