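import Pool.Agent.H54.AD.Defs

/-! S_BEZ: Bezout's inequality for a prime polynomial in two variables, by a dimension count
(helper63) -/

set_option autoImplicit false

namespace Pool.Agent.H54.AD.Bez

open Polynomial Module

section swap

variable {R : Type*} [CommRing R]

lemma coeff_swap (p : PP R) (i j : ℕ) :
    ((Bivariate.swap p).coeff i).coeff j = (p.coeff j).coeff i := by
  induction p using Polynomial.induction_on' with
  | add p q hp hq => simp only [map_add, coeff_add, hp, hq]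
  | monomial n f =>
    induction f using Polynomial.induction_on' with
    | add f g hf hg => simp only [map_add, coeff_add, hf, hg]
    | monomial m r =>
      rw [Bivariate.swap_monomial_monomial]
      simp only [coeff_monomial]
      by_cases h1 : m = i <;> by_cases h2 : n = j <;> simp [h1, h2, coeff_monomial]

/-- all the monomials `X ^ i * Y ^ j` have `i < n₁` and `j < n₂` -/
def Box (n₁ n₂ : ℕ) (P : PP R) : Prop := ∀ i j, (n₁ ≤ i ∨ n₂ ≤ j) → (P.coeff j).coeff i = 0

lemma box_iff {P : PP R} (hP : P ≠ 0) (n₁ n₂ : ℕ) :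
    Box n₁ n₂ P ↔ (Bivariate.swap P).natDegree < n₁ ∧ P.natDegree < n₂ := by
  have hP' : Bivariate.swap P ≠ 0 := by
    intro h
    apply hP
    have := Bivariate.swap_swap_apply P
    rw [h, map_zero] at this
    exact this.symm
  constructor
  · intro h
    constructor
    · by_contra hcon
      push Not at hcon
      have h1 : (Bivariate.swap P).coeff (Bivariate.swap P).natDegree ≠ 0 := by
        rw [coeff_natDegree]; exact leadingCoeff_ne_zero.2 hP'
      apply h1
      ext j
      rw [coeff_swap, h _ _ (Or.inl hcon)]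
      simp
    · by_contra hcon
      push Not at hcon
      have h1 : P.coeff P.natDegree ≠ 0 := by
        rw [coeff_natDegree]; exact leadingCoeff_ne_zero.2 hP
      apply h1
      ext j
      rw [h _ _ (Or.inr hcon)]
      simp
  · rintro ⟨h1, h2⟩ i j hij
    rcases hij with h | h
    · rw [← coeff_swap, coeff_eq_zero_of_natDegree_lt (lt_of_lt_of_le h1 h)]
      simp
    · rw [coeff_eq_zero_of_natDegree_lt (lt_of_lt_of_le h2 h)]
      simp

lemma bideg_swap {P : PP R} {a b : ℕ} (h : BiDeg P a b) : (Bivariate.swap P).natDegree ≤ a := by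
  rw [natDegree_le_iff_coeff_eq_zero]
  intro i hi
  ext j
  rw [coeff_swap, coeff_eq_zero_of_natDegree_lt (lt_of_le_of_lt (h.2 j) hi)]
  simp

lemma coeff_coeff_mul (P Q : PP R) (i j : ℕ) : ((P * Q).coeff j).coeff i =
    ∑ x ∈ Finset.HasAntidiagonal.antidiagonal j, ∑ y ∈ Finset.HasAntidiagonal.antidiagonal i,
      (P.coeff x.1).coeff y.1 * (Q.coeff x.2).coeff y.2 := by
  rw [coeff_mul, finsetSum_coeff]
  apply Finset.sum_congr rfl
  intro x _
  rw [coeff_mul]

/-- exact inner and outer bounds: `i ≤ a`, `j ≤ b` on the support -/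
lemma box_mul {P Q : PP R} {a b n₁ n₂ : ℕ} (hP : ∀ i j, (a < i ∨ b < j) → (P.coeff j).coeff i = 0)
    (hQ : Box n₁ n₂ Q) : Box (a + n₁) (b + n₂) (P * Q) := by
  intro i j hij
  rw [coeff_coeff_mul]
  apply Finset.sum_eq_zero
  intro x hx
  apply Finset.sum_eq_zero
  intro y hy
  rw [Finset.HasAntidiagonal.mem_antidiagonal] at hx hy
  by_cases h1 : a < y.1 ∨ b < x.1
  · rw [hP _ _ h1, zero_mul]
  · have h2 : n₁ ≤ y.2 ∨ n₂ ≤ x.2 := by omega
    rw [hQ _ _ h2, mul_zero]

lemma bideg_zero {P : PP R} {a b : ℕ} (h : BiDeg P a b) :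
    ∀ i j, (a < i ∨ b < j) → (P.coeff j).coeff i = 0 := by
  intro i j hij
  rcases hij with h1 | h1
  · exact coeff_eq_zero_of_natDegree_lt (lt_of_le_of_lt (h.2 j) h1)
  · rw [coeff_eq_zero_of_natDegree_lt (lt_of_le_of_lt h.1 h1)]
    simp

lemma self_zero (P : PP R) :
    ∀ i j, ((Bivariate.swap P).natDegree < i ∨ P.natDegree < j) → (P.coeff j).coeff i = 0 := by
  intro i j hij
  rcases hij with h1 | h1
  · rw [← coeff_swap, coeff_eq_zero_of_natDegree_lt h1]
    simp
  · rw [coeff_eq_zero_of_natDegree_lt h1]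
    simp

lemma box_add {P Q : PP R} {n₁ n₂ : ℕ} (hP : Box n₁ n₂ P) (hQ : Box n₁ n₂ Q) :
    Box n₁ n₂ (P + Q) := by
  intro i j hij
  rw [coeff_add, coeff_add, hP i j hij, hQ i j hij, add_zero]

lemma box_div [IsDomain R] {G B : PP R} {n₁ n₂ : ℕ} (hG : G ≠ 0)
    (h : Box ((Bivariate.swap G).natDegree + n₁) (G.natDegree + n₂) (G * B)) : Box n₁ n₂ B := by
  by_cases hB : B = 0
  · subst hB
    intro i j _
    simp
  rw [box_iff hB]
  rw [box_iff (mul_ne_zero hG hB), map_mul, natDegree_mul hG hB, natDegree_mul] at h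
  · omega
  · intro h0
    exact hG ((map_eq_zero_iff _ (Bivariate.swap (R := R)).injective).1 h0)
  · intro h0
    exact hB ((map_eq_zero_iff _ (Bivariate.swap (R := R)).injective).1 h0)

end swap

section lin

variable (k : Type*) [Field k]

/-- the polynomial with given coefficients -/
noncomputable def toP (n₁ n₂ : ℕ) : (Fin n₁ × Fin n₂ → k) →ₗ[k] PP k where
  toFun c := ∑ n, monomial (n.2 : ℕ) (monomial (n.1 : ℕ) (c n))
  map_add' x y := by simp [Finset.sum_add_distrib]
  map_smul' r x := by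
    simp only [Pi.smul_apply, RingHom.id_apply, Finset.smul_sum]
    apply Finset.sum_congr rfl
    intro n _
    rw [smul_monomial, smul_monomial]

/-- the coefficients of a polynomial -/
noncomputable def fromP (n₁ n₂ : ℕ) : PP k →ₗ[k] (Fin n₁ × Fin n₂ → k) where
  toFun P := fun n => (P.coeff (n.2 : ℕ)).coeff (n.1 : ℕ)
  map_add' x y := by ext n; simp
  map_smul' r x := by ext n; simp

variable {k}

lemma coeff_toP (n₁ n₂ : ℕ) (c : Fin n₁ × Fin n₂ → k) (i j : ℕ) :
    ((toP k n₁ n₂ c).coeff j).coeff i =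
      if h : i < n₁ ∧ j < n₂ then c (⟨i, h.1⟩, ⟨j, h.2⟩) else 0 := by
  simp only [toP, LinearMap.coe_mk, AddHom.coe_mk, finsetSum_coeff, coeff_monomial]
  split_ifs with h
  · rw [Finset.sum_eq_single (⟨i, h.1⟩, ⟨j, h.2⟩)]
    · simp
    · rintro ⟨a, b⟩ _ hne
      by_cases h1 : (b : ℕ) = j
      · by_cases h2 : (a : ℕ) = i
        · exact absurd (Prod.ext (Fin.ext h2) (Fin.ext h1)) hne
        · simp [h1, coeff_monomial, h2]
      · simp [h1]
    · intro h; exact absurd (Finset.mem_univ _) h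
  · apply Finset.sum_eq_zero
    rintro ⟨a, b⟩ _
    by_cases h1 : (b : ℕ) = j
    · by_cases h2 : (a : ℕ) = i
      · exact absurd ⟨h2 ▸ a.2, h1 ▸ b.2⟩ h
      · simp [h1, coeff_monomial, h2]
    · simp [h1]

lemma from_to (n₁ n₂ : ℕ) (c : Fin n₁ × Fin n₂ → k) : fromP k n₁ n₂ (toP k n₁ n₂ c) = c := by
  ext n
  have := coeff_toP n₁ n₂ c n.1 n.2
  simp only [fromP, LinearMap.coe_mk, AddHom.coe_mk]
  rw [this, dif_pos ⟨n.1.2, n.2.2⟩]

lemma to_from {n₁ n₂ : ℕ} {P : PP k} (h : Box n₁ n₂ P) : toP k n₁ n₂ (fromP k n₁ n₂ P) = P := by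
  ext j i
  rw [coeff_toP]
  split_ifs with h1
  · rfl
  · rw [h i j (by omega)]

lemma box_toP (n₁ n₂ : ℕ) (c : Fin n₁ × Fin n₂ → k) : Box n₁ n₂ (toP k n₁ n₂ c) := by
  intro i j hij
  rw [coeff_toP, dif_neg (by omega)]

lemma ev_toP {Ω : Type*} [Field Ω] (f : k →+* Ω) (u v : Ω) (n₁ n₂ : ℕ) (c : Fin n₁ × Fin n₂ → k) :
    ev f u v (toP k n₁ n₂ c) = ∑ n, f (c n) * (u ^ (n.1 : ℕ) * v ^ (n.2 : ℕ)) := by
  simp only [ev, toP, LinearMap.coe_mk, AddHom.coe_mk]
  rw [eval₂_finsetSum]
  apply Finset.sum_congr rfl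
  intro n _
  rw [eval₂_monomial, coe_eval₂RingHom, eval₂_monomial]
  ring

/-- a linearly independent family of vectors stays linearly independent over a larger field -/
lemma li_map {Ω : Type*} [Field Ω] (f : k →+* Ω) {r κ : Type*} [Fintype r] [Fintype κ]
    [DecidableEq r] [DecidableEq κ]
    (v : r → κ → k) (hv : LinearIndependent k v) :
    LinearIndependent Ω (fun i j => f (v i j)) := by
  have h1 : Function.Injective (Matrix.vecMul · (Matrix.of v)) := by
    rw [Matrix.vecMul_injective_iff]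
    exact hv
  have h2 : LinearMap.ker (Matrix.vecMulLinear (Matrix.of v)) = ⊥ := by
    rw [LinearMap.ker_eq_bot]
    exact h1
  obtain ⟨g, hg⟩ := LinearMap.exists_leftInverse_of_injective _ h2
  -- g = vecMulLinear B
  set B : Matrix κ r k := Matrix.of (fun j => g (Pi.single j 1)) with hB
  have h3 : ∀ x : κ → k, Matrix.vecMul x B = g x := by
    intro x
    have : x = ∑ j, x j • (Pi.single j 1 : κ → k) := by
      ext i
      simp [Finset.sum_apply, Pi.single_apply]
    conv_rhs => rw [this]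
    rw [map_sum]
    ext i
    simp only [Matrix.vecMul, dotProduct, hB, Matrix.of_apply, Finset.sum_apply, map_smul,
      Pi.smul_apply, smul_eq_mul]
  have h4 : Matrix.of v * B = 1 := by
    ext i j
    have h5 := congrFun (congrArg DFunLike.coe hg) (Pi.single i 1)
    simp only [LinearMap.comp_apply, LinearMap.id_apply] at h5
    rw [← h3] at h5
    have h6 := congrFun h5 j
    simp only [Matrix.vecMulLinear_apply, Matrix.vecMul_vecMul] at h6
    rw [Matrix.single_one_vecMul] at h6
    have h7 : (1 : Matrix r r k) i j = (Pi.single i 1 : r → k) j := by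
      rw [Matrix.one_apply, Pi.single_apply]
      by_cases h : i = j
      · rw [if_pos h, if_pos h.symm]
      · rw [if_neg h, if_neg (fun h' => h h'.symm)]
    rw [h7]
    exact h6
  have h5 : (Matrix.of v).map f * B.map f = 1 := by
    rw [← Matrix.map_mul, h4]
    exact Matrix.map_one _ (map_zero f) (map_one f)
  have h6 : Function.Injective (Matrix.vecMul · ((Matrix.of v).map f)) := by
    intro x y hxy
    have := congrArg (fun z => Matrix.vecMul z (B.map f)) hxy
    simpa [Matrix.vecMul_vecMul, h5] using this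
  rw [Matrix.vecMul_injective_iff] at h6
  exact h6

end lin

/-- evaluation at the points of `Z` -/
noncomputable def evZ {Ω : Type*} [Field Ω] (n₁ n₂ : ℕ) (Z : Finset (Ω × Ω)) :
    (Fin n₁ × Fin n₂ → Ω) →ₗ[Ω] (Z → Ω) where
  toFun c := fun z => ∑ n, c n * (z.1.1 ^ (n.1 : ℕ) * z.1.2 ^ (n.2 : ℕ))
  map_add' x y := by
    ext z
    simp [add_mul, Finset.sum_add_distrib]
  map_smul' r x := by
    ext z
    simp [mul_assoc, Finset.mul_sum]

section interp

variable {Ω : Type*} [Field Ω]

lemma bideg_mul {P Q : PP Ω} {a b c d : ℕ} (hP : BiDeg P a b) (hQ : BiDeg Q c d) :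
    BiDeg (P * Q) (a + c) (b + d) := by
  have h1 : Box (a + (c + 1)) (b + (d + 1)) (P * Q) := by
    apply box_mul (bideg_zero hP)
    intro i j hij
    exact bideg_zero hQ i j (by omega)
  constructor
  · rw [natDegree_le_iff_coeff_eq_zero]
    intro j hj
    ext i
    rw [h1 i j (by omega)]
    simp
  · intro j
    rw [natDegree_le_iff_coeff_eq_zero]
    intro i hi
    exact h1 i j (by omega)

lemma bideg_prod {ι : Type*} [DecidableEq ι] (s : Finset ι) (l : ι → PP Ω) (h : ∀ i ∈ s, BiDeg (l i) 1 1) :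
    BiDeg (∏ i ∈ s, l i) s.card s.card := by
  induction s using Finset.induction_on with
  | empty =>
    simp only [Finset.prod_empty, Finset.card_empty]
    constructor
    · simp
    · intro i
      rw [coeff_one]
      split_ifs <;> simp
  | insert i s hi ih =>
    rw [Finset.prod_insert hi, Finset.card_insert_of_notMem hi]
    have h1 := bideg_mul (h i (Finset.mem_insert_self _ _))
      (ih (fun j hj => h j (Finset.mem_insert_of_mem hj)))
    rw [add_comm]
    exact h1

lemma ev_mul {k : Type*} [Field k] (f : k →+* Ω) (u v : Ω) (P Q : PP k) :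
    ev f u v (P * Q) = ev f u v P * ev f u v Q := by
  simp [ev, eval₂_mul]

lemma ev_add {k : Type*} [Field k] (f : k →+* Ω) (u v : Ω) (P Q : PP k) :
    ev f u v (P + Q) = ev f u v P + ev f u v Q := by
  simp [ev, eval₂_add]

lemma ev_prod {k : Type*} [Field k] (f : k →+* Ω) (u v : Ω) {ι : Type*} (s : Finset ι)
    (P : ι → PP k) : ev f u v (∏ i ∈ s, P i) = ∏ i ∈ s, ev f u v (P i) := by
  have : ∀ Q : PP k, ev f u v Q = eval₂RingHom (eval₂RingHom f u) v Q := fun Q => rfl
  simp only [this, map_prod]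

open Classical in
/-- the linear factor separating `z` from `w` -/
noncomputable def sep (w z : Ω × Ω) : PP Ω :=
  if z.1 ≠ w.1 then C (C ((w.1 - z.1)⁻¹) * (X - C z.1)) else C (C ((w.2 - z.2)⁻¹)) * (X - C (C z.2))

lemma sep_bideg (w z : Ω × Ω) : BiDeg (sep w z) 1 1 := by
  unfold sep
  split_ifs with h
  · constructor
    · rw [natDegree_C]; exact Nat.zero_le _
    · intro i
      rw [coeff_C]
      split_ifs
      · refine (natDegree_C_mul_le _ _).trans ?_
        rw [natDegree_X_sub_C]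
      · simp
  · constructor
    · refine (natDegree_C_mul_le _ _).trans ?_
      rw [natDegree_X_sub_C]
    · intro i
      rw [coeff_C_mul, coeff_sub, coeff_X, coeff_C]
      refine (natDegree_C_mul_le _ _).trans ?_
      split_ifs <;> simp

lemma sep_self (w z : Ω × Ω) (h : z ≠ w) : ev (RingHom.id Ω) w.1 w.2 (sep w z) = 1 := by
  unfold sep
  split_ifs with h1
  · simp only [ev, eval₂_C, coe_eval₂RingHom, eval₂_mul, eval₂_sub, eval₂_X, eval₂_C,
      RingHom.id_apply]
    rw [inv_mul_cancel₀]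
    rw [sub_ne_zero]; exact fun h2 => h1 h2.symm
  · simp only [ev, eval₂_C, coe_eval₂RingHom, eval₂_mul, eval₂_sub, eval₂_X, eval₂_C,
      RingHom.id_apply]
    rw [inv_mul_cancel₀]
    rw [sub_ne_zero]
    intro h2
    push Not at h1
    exact h (Prod.ext h1 h2.symm)

lemma sep_other (w z : Ω × Ω) : ev (RingHom.id Ω) z.1 z.2 (sep w z) = 0 := by
  unfold sep
  split_ifs with h1
  · simp only [ev, eval₂_C, coe_eval₂RingHom, eval₂_mul, eval₂_sub, eval₂_X, eval₂_C,
      RingHom.id_apply]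
    simp
  · simp only [ev, eval₂_C, coe_eval₂RingHom, eval₂_mul, eval₂_sub, eval₂_X, eval₂_C,
      RingHom.id_apply]
    simp

lemma evZ_surj (n₁ n₂ : ℕ) (Z : Finset (Ω × Ω)) (h1 : Z.card ≤ n₁) (h2 : Z.card ≤ n₂) :
    LinearMap.range (evZ n₁ n₂ Z) = ⊤ := by
  classical
  rw [eq_top_iff]
  rintro y -
  have hy : y = ∑ w : Z, y w • (Pi.single w 1 : Z → Ω) := by
    ext i
    simp [Finset.sum_apply, Pi.single_apply]
  rw [hy]
  apply Submodule.sum_mem
  intro w _
  apply Submodule.smul_mem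
  -- the interpolating polynomial
  set P : PP Ω := ∏ z ∈ Z.erase w.1, sep w.1 z with hP
  have hb : BiDeg P (Z.card - 1) (Z.card - 1) := by
    have := bideg_prod (Z.erase w.1) (fun z => sep w.1 z) (fun z _ => sep_bideg _ _)
    rw [Finset.card_erase_of_mem w.2] at this
    exact this
  have hpos : 0 < Z.card := Finset.card_pos.2 ⟨w.1, w.2⟩
  have hbox : Box n₁ n₂ P := by
    intro i j hij
    exact bideg_zero hb i j (by omega)
  refine ⟨fromP Ω n₁ n₂ P, ?_⟩
  ext z
  have h3 : evZ n₁ n₂ Z (fromP Ω n₁ n₂ P) z = ev (RingHom.id Ω) z.1.1 z.1.2 P := by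
    conv_rhs => rw [← to_from hbox]
    rw [ev_toP]
    simp [evZ]
  rw [h3, hP, ev_prod]
  by_cases hzw : z = w
  · subst hzw
    rw [Pi.single_eq_same]
    apply Finset.prod_eq_one
    intro x hx
    exact sep_self _ _ (Finset.ne_of_mem_erase hx)
  · rw [Pi.single_eq_of_ne hzw]
    apply Finset.prod_eq_zero (i := z.1)
    · rw [Finset.mem_erase]
      exact ⟨fun h => hzw (Subtype.ext h), z.2⟩
    · exact sep_other _ _

end interp

theorem _root_.Pool.Agent.H54.AD.bez : S_BEZ := by
  classical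
  intro k Ω _ _ f G F a b c d hG hGF hGd hFd Z hZ
  have hG0 : G ≠ 0 := hG.ne_zero
  set k₁ := (Bivariate.swap G).natDegree with hk₁
  set k₂ := G.natDegree with hk₂
  set M := Z.card with hM
  -- the linear map
  let dom := (Fin (c + M) × Fin (d + M) → k) × (Fin (k₁ + M) × Fin (k₂ + M) → k)
  let Φ : ((Fin (c + M) × Fin (d + M) → k) × (Fin (k₁ + M) × Fin (k₂ + M) → k)) →ₗ[k]
      (Fin (k₁ + (c + M)) × Fin (k₂ + (d + M)) → k) :=
    (fromP k _ _) ∘ₗ ((LinearMap.mulLeft k G) ∘ₗ (toP k _ _) ∘ₗ (LinearMap.fst k _ _) +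
      (LinearMap.mulLeft k F) ∘ₗ (toP k _ _) ∘ₗ (LinearMap.snd k _ _))
  have hbox : ∀ x : (Fin (c + M) × Fin (d + M) → k) × (Fin (k₁ + M) × Fin (k₂ + M) → k),
      Box (k₁ + (c + M)) (k₂ + (d + M)) (G * toP k _ _ x.1 + F * toP k _ _ x.2) := by
    intro x
    apply box_add
    · exact box_mul (self_zero G) (box_toP _ _ _)
    · have := box_mul (bideg_zero hFd) (box_toP _ _ x.2)
      intro i j hij
      exact this i j (by omega)
  have hΦ : ∀ x, toP k _ _ (Φ x) = G * toP k _ _ x.1 + F * toP k _ _ x.2 := by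
    intro x
    exact to_from (hbox x)
  let Ψ : (Fin M × Fin M → k) →ₗ[k]
      ((Fin (c + M) × Fin (d + M) → k) × (Fin (k₁ + M) × Fin (k₂ + M) → k)) :=
    LinearMap.prod (-((fromP k _ _) ∘ₗ (LinearMap.mulLeft k F) ∘ₗ (toP k _ _)))
      ((fromP k _ _) ∘ₗ (LinearMap.mulLeft k G) ∘ₗ (toP k _ _))
  have hker : LinearMap.ker Φ ≤ LinearMap.range Ψ := by
    intro x hx
    rw [LinearMap.mem_ker] at hx
    have h1 := hΦ x
    rw [hx, map_zero] at h1
    have h2 : G ∣ toP k _ _ x.2 := by
      have h3 : G ∣ F * toP k _ _ x.2 := by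
        refine ⟨-toP k _ _ x.1, ?_⟩
        linear_combination -h1
      exact (hG.dvd_or_dvd h3).resolve_left hGF
    obtain ⟨B', hB'⟩ := h2
    have h3 : toP k _ _ x.1 = -(F * B') := by
      have h4 : G * (toP k _ _ x.1 + F * B') = 0 := by
        rw [hB'] at h1
        linear_combination -h1
      have h5 := (mul_eq_zero.1 h4).resolve_left hG0
      exact eq_neg_of_add_eq_zero_left h5
    have h4 : Box M M B' := by
      apply box_div hG0
      rw [← hB']
      exact box_toP _ _ _
    refine ⟨fromP k M M B', ?_⟩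
    apply Prod.ext
    · show -(fromP k _ _ (F * toP k _ _ (fromP k M M B'))) = x.1
      rw [to_from h4, ← map_neg, ← h3, from_to]
    · show (fromP k _ _ (G * toP k _ _ (fromP k M M B'))) = x.2
      rw [to_from h4, ← hB', from_to]
  have hrn := LinearMap.finrank_range_add_finrank_ker Φ
  have hk : finrank k (LinearMap.ker Φ) ≤ M * M := by
    calc finrank k (LinearMap.ker Φ) ≤ finrank k (LinearMap.range Ψ) := Submodule.finrank_mono hker
      _ ≤ finrank k (Fin M × Fin M → k) := LinearMap.finrank_range_le Ψ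
      _ = M * M := by simp
  have hdom : finrank k ((Fin (c + M) × Fin (d + M) → k) × (Fin (k₁ + M) × Fin (k₂ + M) → k)) =
      (c + M) * (d + M) + (k₁ + M) * (k₂ + M) := by
    rw [finrank_prod]; simp
  -- linearly independent family
  let bs := Module.finBasis k (LinearMap.range Φ)
  have hli : LinearIndependent k (fun i => (bs i : Fin (k₁ + (c + M)) × Fin (k₂ + (d + M)) → k)) :=
    bs.linearIndependent.map' (Submodule.subtype _) (Submodule.ker_subtype _)
  have hli' := li_map f _ hli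
  have hmem : ∀ i, (fun j => f ((bs i : Fin (k₁ + (c + M)) × Fin (k₂ + (d + M)) → k) j)) ∈
      LinearMap.ker (evZ (k₁ + (c + M)) (k₂ + (d + M)) Z) := by
    intro i
    obtain ⟨x, hx⟩ := (bs i).2
    rw [LinearMap.mem_ker]
    ext z
    have h1 : evZ (k₁ + (c + M)) (k₂ + (d + M)) Z
        (fun j => f ((bs i : Fin (k₁ + (c + M)) × Fin (k₂ + (d + M)) → k) j)) z =
        ev f z.1.1 z.1.2 (toP k _ _ (bs i : Fin (k₁ + (c + M)) × Fin (k₂ + (d + M)) → k)) := by
      rw [ev_toP]
      rfl
    rw [h1, ← hx, hΦ, ev_add, ev_mul, ev_mul, (hZ z.1 z.2).1, (hZ z.1 z.2).2]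
    simp
  have hcard : finrank k (LinearMap.range Φ) ≤
      finrank Ω (LinearMap.ker (evZ (k₁ + (c + M)) (k₂ + (d + M)) Z)) := by
    have h1 : LinearIndependent Ω (fun i =>
        (⟨_, hmem i⟩ : LinearMap.ker (evZ (k₁ + (c + M)) (k₂ + (d + M)) Z))) := by
      apply LinearIndependent.of_comp (Submodule.subtype _)
      exact hli'
    have h2 := h1.fintype_card_le_finrank
    simpa using h2
  have hrn2 := LinearMap.finrank_range_add_finrank_ker (evZ (k₁ + (c + M)) (k₂ + (d + M)) Z)
  rw [evZ_surj _ _ Z (by omega) (by omega), finrank_top] at hrn2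
  have h7 : finrank Ω (Z → Ω) = M := by simp [hM]
  have h8 : finrank Ω (Fin (k₁ + (c + M)) × Fin (k₂ + (d + M)) → Ω) =
      (k₁ + (c + M)) * (k₂ + (d + M)) := by simp
  rw [h7, h8] at hrn2
  rw [hdom] at hrn
  have hk1a : k₁ ≤ a := bideg_swap hGd
  have hk2b : k₂ ≤ b := hGd.1
  have h9 : M ≤ k₁ * d + c * k₂ := by
    nlinarith
  have h10 : k₁ * d ≤ a * d := Nat.mul_le_mul_right d hk1a
  have h11 : c * k₂ ≤ b * c := by
    rw [mul_comm b c]
    exact Nat.mul_le_mul_left c hk2b
  omega

end Pool.Agent.H54.AD.Bez
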