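import Mathlib
import Pool.Agent.H54.AD.Defs
import Pool.Agent.H54.RX.F6

set_option autoImplicit false

/-!
# AD-CLO: different Frobenius levels are close
-/

namespace Pool.Agent.H54.AD

open Polynomial
open Pool.Agent.W237.RK
open Pool.Agent.H58P (Qb ht)
open Pool.Agent.W669.RK (norm_add_le_of norm_sub_le_of norm_sum_le_of norm_sum_pow_pow_sub
  norm_coeff_prod_le max_one_pow)

namespace Clo

variable {p : ℕ} [Fact p.Prime]

/-- comparison of two products -/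
lemma prod_sub_le {ι : Type*} (Y : Finset ι) (A B : ι → PadicAlgCl p) (M : ι → ℝ) (ε : ℝ)
    (hε : 0 ≤ ε) (hA : ∀ i ∈ Y, ‖A i‖ ≤ M i) (hB : ∀ i ∈ Y, ‖B i‖ ≤ M i)
    (h : ∀ i ∈ Y, ‖B i - A i‖ ≤ ε * M i) :
    ‖∏ i ∈ Y, B i - ∏ i ∈ Y, A i‖ ≤ ε * ∏ i ∈ Y, M i := by
  classical
  induction Y using Finset.induction_on with
  | empty => simp [hε]
  | insert a s ha ih =>
    rw [Finset.prod_insert ha, Finset.prod_insert ha, Finset.prod_insert ha]
    have hMa : 0 ≤ M a := (norm_nonneg _).trans (hA a (Finset.mem_insert_self _ _))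
    have hAs : ∀ i ∈ s, ‖A i‖ ≤ M i := fun i hi => hA i (Finset.mem_insert_of_mem hi)
    have hBs : ∀ i ∈ s, ‖B i‖ ≤ M i := fun i hi => hB i (Finset.mem_insert_of_mem hi)
    have ih' := ih hAs hBs (fun i hi => h i (Finset.mem_insert_of_mem hi))
    have e : B a * ∏ i ∈ s, B i - A a * ∏ i ∈ s, A i =
        B a * (∏ i ∈ s, B i - ∏ i ∈ s, A i) + (B a - A a) * ∏ i ∈ s, A i := by ring
    rw [e]
    have hM0 : 0 ≤ ∏ i ∈ s, M i := Finset.prod_nonneg fun i hi => (norm_nonneg _).trans (hAs i hi)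
    apply norm_add_le_of
    · rw [norm_mul]
      calc _ ≤ M a * (ε * ∏ i ∈ s, M i) :=
            mul_le_mul (hB a (Finset.mem_insert_self _ _)) ih' (norm_nonneg _) hMa
        _ = _ := by ring
    · rw [norm_mul, norm_prod]
      calc _ ≤ (ε * M a) * ∏ i ∈ s, M i :=
            mul_le_mul (h a (Finset.mem_insert_self _ _))
              (Finset.prod_le_prod (fun _ _ => norm_nonneg _) hAs)
              (Finset.prod_nonneg fun _ _ => norm_nonneg _) (mul_nonneg hε hMa)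
        _ = _ := by ring

/-- freshman's dream for a difference -/
lemma two_term (x y : PadicAlgCl p) {R : ℝ} (hR : 0 ≤ R) (hx : ‖x‖ ≤ R) (hy : ‖y‖ ≤ R) (a : ℕ) :
    ‖(x ^ (p ^ a) - y ^ (p ^ a)) - (x - y) ^ (p ^ a)‖ ≤ (p : ℝ)⁻¹ * R ^ (p ^ a) := by
  have h := norm_sum_pow_pow_sub (Finset.univ : Finset Bool)
    (fun i => if i then x - y else y) hR (by
      intro i _
      cases i
      · exact hy
      · exact norm_sub_le_of hx hy) a
  rw [Fintype.sum_bool, Fintype.sum_bool] at h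
  simp only [if_true, Bool.false_eq_true, if_false, sub_add_cancel] at h
  have e : (x ^ (p ^ a) - y ^ (p ^ a)) - (x - y) ^ (p ^ a) =
      x ^ (p ^ a) - ((x - y) ^ (p ^ a) + y ^ (p ^ a)) := by ring
  rw [e]
  exact h

/-- the reverse direction of `prod_close` -/
theorem prod_close_rev (ψ : Qb →+* PadicAlgCl p) (σ : Aut) (E : GF) (a n₁ : ℕ) (hn₁ : 0 < n₁)
    (Y : Finset Qb) (hco : ∀ j, (∏ y ∈ Y, (X - C y)).coeff j ∈ E) (β : Qb) (hβ : β ∈ Y)
    (ρ : ℝ) (hρ0 : 0 < ρ) (hρ : ρ ^ n₁ = (p : ℝ)⁻¹)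
    (hE : ∀ x ∈ E, ‖ψ x‖ ≤ 1 → ‖ψ (σ x - x ^ (p ^ a))‖ ^ n₁ ≤ (p : ℝ)⁻¹) :
    ∏ y ∈ Y, ‖ψ (σ β) - ψ y ^ (p ^ a)‖ ≤
      ρ * ∏ y ∈ Y, (max 1 ‖ψ (σ β)‖ * max 1 ‖ψ y ^ (p ^ a)‖) := by
  classical
  have hp : p.Prime := Fact.out
  have hpR : (0 : ℝ) < p := by exact_mod_cast hp.pos
  have hp1 : (p : ℝ)⁻¹ < 1 := inv_lt_one_of_one_lt₀ (by exact_mod_cast hp.one_lt)
  have hρ1 : ρ < 1 := by
    by_contra hcon
    push Not at hcon
    have := one_le_pow₀ (n := n₁) hcon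
    rw [hρ] at this
    linarith
  have hpρ : (p : ℝ)⁻¹ ≤ ρ := by
    rw [← hρ]
    calc ρ ^ n₁ ≤ ρ ^ 1 := pow_le_pow_of_le_one hρ0.le hρ1.le hn₁
      _ = ρ := pow_one _
  set P : Qb[X] := ∏ y ∈ Y, (X - C y) with hP
  set d := Y.card with hd
  have hPm : P.Monic := monic_prod_X_sub_C _ _
  have hPd : P.natDegree = d := natDegree_finsetProd_X_sub_C_eq_card Y (fun y => y)
  have hPβ : P.eval β = 0 := by
    rw [hP, eval_prod]
    apply Finset.prod_eq_zero hβ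
    simp
  obtain ⟨l0, hl0, hmax⟩ := Finset.exists_max_image (Finset.range (d + 1))
    (fun l => ‖ψ (P.coeff l)‖) ⟨0, by simp⟩
  set c0 := P.coeff l0 with hc0
  have hcd : ‖ψ (P.coeff d)‖ = 1 := by
    rw [← hPd, hPm.coeff_natDegree, map_one, norm_one]
  have hc0n : 1 ≤ ‖ψ c0‖ := by
    rw [← hcd]
    exact hmax d (by simp)
  have hψc0 : ψ c0 ≠ 0 := by
    intro h
    rw [h, norm_zero] at hc0n
    linarith
  have hc00 : c0 ≠ 0 := fun h => hψc0 (by rw [h, map_zero])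
  set Q := p ^ a with hQ
  have hQ0 : 0 < Q := pow_pos hp.pos _
  obtain ⟨b, hb⟩ := IsAlgClosed.exists_pow_nat_eq (ψ (σ β)) hQ0
  set R : ℝ := (max 1 ‖b‖) ^ d with hR
  have hm1 : (1 : ℝ) ≤ max 1 ‖b‖ := le_max_left _ _
  have hR0 : 0 ≤ R := by positivity
  have hx : ∀ l, P.coeff l / c0 ∈ E := fun l => E.div_mem (hco l) (hco l0)
  have hxn : ∀ l ∈ Finset.range (d + 1), ‖ψ (P.coeff l / c0)‖ ≤ 1 := by
    intro l hl
    rw [map_div₀, norm_div]
    exact div_le_one_of_le₀ (hmax l hl) (norm_nonneg _)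
  have hf : ∀ l ∈ Finset.range (d + 1), ‖ψ (P.coeff l / c0) * b ^ l‖ ≤ R := by
    intro l hl
    rw [norm_mul, norm_pow]
    have hld : l ≤ d := by rw [Finset.mem_range] at hl; omega
    calc _ ≤ 1 * (max 1 ‖b‖) ^ l := by
          apply mul_le_mul (hxn l hl) _ (by positivity) zero_le_one
          exact pow_le_pow_left₀ (norm_nonneg _) (le_max_right _ _) _
      _ = (max 1 ‖b‖) ^ l := one_mul _
      _ ≤ R := pow_le_pow_right₀ hm1 hld
  -- the conjugate polynomial vanishes at `σ β`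
  have hsum0 : ∑ l ∈ Finset.range (d + 1), ψ (σ (P.coeff l / c0)) * (b ^ Q) ^ l = 0 := by
    have h1 : ψ (σ (P.eval β / c0)) = 0 := by rw [hPβ, zero_div, map_zero, map_zero]
    rw [eval_eq_sum_range, hPd, Finset.sum_div, map_sum, map_sum] at h1
    rw [← h1]
    apply Finset.sum_congr rfl
    intro l _
    rw [hb, ← map_pow ψ, ← map_pow σ, ← map_mul, ← map_mul]
    congr 2
    ring
  have h2 : ‖∑ l ∈ Finset.range (d + 1), (ψ (P.coeff l / c0) * b ^ l) ^ Q‖ ≤ ρ * R ^ Q := by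
    have e : ∑ l ∈ Finset.range (d + 1), (ψ (P.coeff l / c0) * b ^ l) ^ Q =
        ∑ l ∈ Finset.range (d + 1), (ψ (σ (P.coeff l / c0)) * (b ^ Q) ^ l -
          (ψ (σ (P.coeff l / c0)) - ψ (P.coeff l / c0) ^ Q) * (b ^ Q) ^ l) := by
      apply Finset.sum_congr rfl
      intro l _
      ring
    rw [e, Finset.sum_sub_distrib, hsum0, zero_sub, norm_neg]
    apply norm_sum_le_of
    · positivity
    · intro l hl
      have hld : l ≤ d := by rw [Finset.mem_range] at hl; omega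
      have h4 := hE _ (hx l) (hxn l hl)
      rw [map_sub, map_pow, ← hρ] at h4
      have h5 : ‖ψ (σ (P.coeff l / c0)) - ψ (P.coeff l / c0) ^ Q‖ ≤ ρ :=
        le_of_pow_le_pow_left₀ hn₁.ne' hρ0.le h4
      rw [norm_mul, norm_pow, norm_pow]
      apply mul_le_mul h5 _ (by positivity) hρ0.le
      calc (‖b‖ ^ Q) ^ l ≤ ((max 1 ‖b‖) ^ Q) ^ l := by
            gcongr
            exact le_max_right _ _
        _ ≤ ((max 1 ‖b‖) ^ Q) ^ d := pow_le_pow_right₀ (one_le_pow₀ hm1) hld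
        _ = R ^ Q := by rw [hR, ← pow_mul, ← pow_mul, mul_comm]
  have h3 := norm_sum_pow_pow_sub (Finset.range (d + 1)) (fun l => ψ (P.coeff l / c0) * b ^ l)
    hR0 hf a
  have h4 : ‖(∑ l ∈ Finset.range (d + 1), ψ (P.coeff l / c0) * b ^ l) ^ Q‖ ≤ ρ * R ^ Q := by
    have e : (∑ l ∈ Finset.range (d + 1), ψ (P.coeff l / c0) * b ^ l) ^ Q =
        ((∑ l ∈ Finset.range (d + 1), ψ (P.coeff l / c0) * b ^ l) ^ Q -
          ∑ l ∈ Finset.range (d + 1), (ψ (P.coeff l / c0) * b ^ l) ^ Q) +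
          ∑ l ∈ Finset.range (d + 1), (ψ (P.coeff l / c0) * b ^ l) ^ Q := by ring
    rw [e]
    apply norm_add_le_of _ h2
    refine h3.trans ?_
    gcongr
  have h5 : ∑ l ∈ Finset.range (d + 1), ψ (P.coeff l / c0) * b ^ l =
      (ψ c0)⁻¹ * ∏ y ∈ Y, (b - ψ y) := by
    have e1 : ∏ y ∈ Y, (b - ψ y) = (P.map ψ).eval b := by
      rw [hP, Polynomial.map_prod, eval_prod]
      apply Finset.prod_congr rfl
      intro y _
      simp
    rw [e1, eval_eq_sum_range, natDegree_map, hPd, Finset.mul_sum]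
    apply Finset.sum_congr rfl
    intro l _
    rw [coeff_map, map_div₀]
    ring
  have h6 : ‖ψ c0‖ ≤ ∏ y ∈ Y, max 1 ‖ψ y‖ := by
    have h7 := norm_coeff_prod_le Y (fun y => ψ y) l0
    have e1 : ∏ y ∈ Y, (X - C (ψ y)) = P.map ψ := by
      rw [hP, Polynomial.map_prod]
      apply Finset.prod_congr rfl
      intro y _
      simp
    rw [e1, coeff_map] at h7
    exact h7
  -- the product of the `Q`-th powers of the differences
  set M : Qb → ℝ := fun y => max 1 ‖b ^ Q‖ * max 1 ‖ψ y ^ Q‖ with hM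
  have hMQ : ∀ y, M y = (max 1 ‖b‖ * max 1 ‖ψ y‖) ^ Q := by
    intro y
    rw [hM, mul_pow, max_one_pow _ (norm_nonneg _), max_one_pow _ (norm_nonneg _)]
    simp only [norm_pow]
  have hMprod : ∏ y ∈ Y, M y = R ^ Q * (∏ y ∈ Y, max 1 ‖ψ y‖) ^ Q := by
    simp only [hMQ]
    rw [Finset.prod_pow, Finset.prod_mul_distrib, Finset.prod_const, mul_pow, hR, hd]
  have h7 : ‖∏ y ∈ Y, (b - ψ y) ^ Q‖ ≤ ρ * ∏ y ∈ Y, M y := by
    rw [h5, mul_pow, norm_mul, norm_pow, _root_.norm_inv, inv_pow] at h4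
    have hc : 0 < ‖ψ c0‖ ^ Q := by positivity
    rw [inv_mul_le_iff₀ hc] at h4
    rw [Finset.prod_pow, hMprod]
    calc _ ≤ ‖ψ c0‖ ^ Q * (ρ * R ^ Q) := h4
      _ ≤ (∏ y ∈ Y, max 1 ‖ψ y‖) ^ Q * (ρ * R ^ Q) := by gcongr
      _ = _ := by ring
  have hle : ∀ y, ‖b‖ ≤ max 1 ‖b‖ * max 1 ‖ψ y‖ ∧ ‖ψ y‖ ≤ max 1 ‖b‖ * max 1 ‖ψ y‖ := by
    intro y
    constructor
    · calc ‖b‖ ≤ max 1 ‖b‖ := le_max_right _ _
        _ = max 1 ‖b‖ * 1 := (mul_one _).symm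
        _ ≤ _ := by gcongr; exact le_max_left _ _
    · calc ‖ψ y‖ ≤ max 1 ‖ψ y‖ := le_max_right _ _
        _ = 1 * max 1 ‖ψ y‖ := (one_mul _).symm
        _ ≤ _ := by gcongr
  have h8 := prod_sub_le Y (fun y => (b - ψ y) ^ Q) (fun y => b ^ Q - ψ y ^ Q) M (p : ℝ)⁻¹
    (by positivity)
    (by
      intro y _
      rw [hMQ, norm_pow]
      exact pow_le_pow_left₀ (norm_nonneg _) (norm_sub_le_of (hle y).1 (hle y).2) _)
    (by
      intro y _
      rw [hMQ]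
      apply norm_sub_le_of
      · rw [norm_pow]; exact pow_le_pow_left₀ (norm_nonneg _) (hle y).1 _
      · rw [norm_pow]; exact pow_le_pow_left₀ (norm_nonneg _) (hle y).2 _)
    (by
      intro y _
      rw [hMQ]
      exact two_term b (ψ y) (by positivity) (hle y).1 (hle y).2 a)
  have hM0 : 0 ≤ ∏ y ∈ Y, M y := Finset.prod_nonneg fun y _ => by rw [hMQ]; positivity
  have h9 : ‖∏ y ∈ Y, (b ^ Q - ψ y ^ Q)‖ ≤ ρ * ∏ y ∈ Y, M y := by
    have e : ∏ y ∈ Y, (b ^ Q - ψ y ^ Q) = (∏ y ∈ Y, (b ^ Q - ψ y ^ Q) - ∏ y ∈ Y, (b - ψ y) ^ Q) +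
        ∏ y ∈ Y, (b - ψ y) ^ Q := by ring
    rw [e]
    apply norm_add_le_of _ h7
    refine h8.trans ?_
    gcongr
  rw [norm_prod, hb] at h9
  have e9 : ∏ y ∈ Y, M y = ∏ y ∈ Y, (max 1 ‖ψ (σ β)‖ * max 1 ‖ψ y ^ Q‖) := by
    rw [hM, hb]
  rw [e9] at h9
  exact h9

/-- the reverse direction of `frob_block` -/
lemma frob_block_rev (p : ℕ) [hp : Fact p.Prime] (ψ : Qb →+* PadicAlgCl p) (E : GF) (σ s : Aut)
    (a n₁ C : ℕ) (hn₁ : 0 < n₁) (hC : n₁ ≤ 2 ^ C) (hσE : ∀ x ∈ E, σ x ∈ E)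
    (hsE : ∀ x ∈ E, s x ∈ E)
    (h : ∀ x ∈ E, ‖ψ x‖ ≤ 1 → ‖ψ (σ x - x ^ (p ^ a))‖ ^ n₁ ≤ (p : ℝ)⁻¹) (Y : Finset Qb)
    (hco : ∀ l, (∏ y ∈ Y, (X - Polynomial.C y)).coeff l ∈ E) (y₀ : Qb) (hy₀ : y₀ ∈ Y)
    (m j N : ℕ) (hj : C + N ≤ a * j) :
    ∏ y ∈ Y, ‖ψ (((σ ^ m) (s y₀)) ^ (p ^ (a * j))) - ψ ((s y) ^ (p ^ (a * (j + m))))‖ ≤
      ((p : ℝ) ^ N)⁻¹ * ∏ y ∈ Y, (max 1 ‖ψ (((σ ^ m) (s y₀)) ^ (p ^ (a * j)))‖ *
        max 1 ‖ψ ((s y) ^ (p ^ (a * (j + m))))‖) := by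
  classical
  have hp0 := Pool.Agent.W402.RK.p_pos (p := p)
  have hp2 := Pool.Agent.W402.RK.two_le_p (p := p)
  obtain ⟨ρ, hρ0, hρ⟩ : ∃ ρ : ℝ, 0 < ρ ∧ ρ ^ n₁ = (p : ℝ)⁻¹ := by
    refine ⟨((p : ℝ)⁻¹) ^ ((n₁ : ℝ)⁻¹), by positivity, ?_⟩
    rw [← Real.rpow_natCast, ← Real.rpow_mul (by positivity), inv_mul_cancel₀ (by positivity),
      Real.rpow_one]
  set Y' := Y.image s with hY'
  have hinj : Set.InjOn (fun y => s y) (Y : Set Qb) := fun x _ y _ hxy => s.injective hxy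
  have hco' : ∀ l, (∏ y ∈ Y', (X - Polynomial.C y)).coeff l ∈ E := by
    intro l
    have e1 : ∏ y ∈ Y', (X - Polynomial.C y) =
        (∏ y ∈ Y, (X - Polynomial.C y)).map (s : Qb →+* Qb) := by
      rw [hY', Finset.prod_image hinj, Polynomial.map_prod]
      apply Finset.prod_congr rfl
      intro y _
      simp
    rw [e1, coeff_map]
    exact hsE _ (hco l)
  have h1 := prod_close_rev ψ (σ ^ m) E (a * m) n₁ hn₁ Y' hco' (s y₀)
    (Finset.mem_image_of_mem _ hy₀) ρ hρ0 hρ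
    (fun x hx hx1 => (Pool.Agent.H54.RX.frob_iter p ψ E σ a n₁ hn₁ hσE h m x hx hx1).2.2)
  rw [hY', Finset.prod_image hinj, Finset.prod_image hinj] at h1
  obtain ⟨N', hN'⟩ := Nat.exists_eq_add_of_le hj
  have h2 := Pool.Agent.H54.RX.block_pow Y (ψ ((σ ^ m) (s y₀))) (fun y => ψ (s y) ^ (p ^ (a * m)))
    n₁ C hC ρ hρ0 hρ h1 (N + N')
  have e1 : C + (N + N') = a * j := by omega
  rw [e1] at h2
  have e2 : ∀ y, (ψ (s y) ^ (p ^ (a * m))) ^ (p ^ (a * j)) = ψ ((s y) ^ (p ^ (a * (j + m)))) := by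
    intro y
    rw [map_pow, ← pow_mul, ← pow_add]
    congr 2
    ring
  have e3 : ψ ((σ ^ m) (s y₀)) ^ (p ^ (a * j)) = ψ (((σ ^ m) (s y₀)) ^ (p ^ (a * j))) :=
    (map_pow ψ _ _).symm
  simp only [e2, e3] at h2
  refine h2.trans ?_
  apply mul_le_mul_of_nonneg_right _ (Finset.prod_nonneg fun y _ => by positivity)
  apply inv_anti₀ (by positivity)
  exact pow_le_pow_right₀ (by linarith) (by omega)

end Clo

open Clo in
theorem clo : S_CLO := by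
  intro p _ ψ E σ a n₁ ha han hσE h Y hco e N j l y hy hj hl hje hle hjl
  have hn₁ : 0 < n₁ := by omega
  have hC : n₁ ≤ 2 ^ n₁ := Nat.lt_two_pow_self.le
  have hpow : ∀ k : ℕ, ∀ x ∈ E, (σ ^ k) x ∈ E := by
    intro k
    induction k with
    | zero => intro x hx; simpa using hx
    | succ k ih =>
      intro x hx
      rw [pow_succ', AlgEquiv.mul_apply]
      exact hσE _ (ih x hx)
  have hq : ∀ k : ℕ, (p ^ a) ^ k = p ^ (a * k) := fun k => (pow_mul _ _ _).symm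
  rcases lt_or_gt_of_ne hjl with hlt | hlt
  · -- `j < l`
    have h1 := frob_block_rev p ψ E σ (σ ^ (e - l)) a n₁ n₁ hn₁ hC hσE (hpow _) h Y hco y hy
      (l - j) j N (by
        calc n₁ + N ≤ 1 * j := by rw [one_mul]; exact hj
          _ ≤ a * j := Nat.mul_le_mul_right _ ha)
    have e1 : j + (l - j) = l := by omega
    have e2 : (σ ^ (l - j)) ((σ ^ (e - l)) y) = (σ ^ (e - j)) y := by
      rw [← AlgEquiv.mul_apply, ← pow_add]
      congr 2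
      omega
    rw [e1] at h1
    simp only [e2] at h1
    simp only [pt, hq]
    exact h1
  · -- `l < j`
    have h1 := Pool.Agent.H54.RX.frob_block p ψ E σ (σ ^ (e - j)) a n₁ n₁ hn₁ hC hσE (hpow _) h
      Y hco y hy (j - l) l N (by
        calc n₁ + N ≤ 1 * l := by rw [one_mul]; exact hl
          _ ≤ a * l := Nat.mul_le_mul_right _ ha)
    have e1 : l + (j - l) = j := by omega
    have e2 : ∀ y, (σ ^ (j - l)) ((σ ^ (e - j)) y) = (σ ^ (e - l)) y := by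
      intro y
      rw [← AlgEquiv.mul_apply, ← pow_add]
      congr 2
      omega
    rw [e1] at h1
    simp only [e2] at h1
    simp only [pt, hq]
    exact h1

end Pool.Agent.H54.AD
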