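import Pool.Agent.H54.AD.Defs

set_option autoImplicit false

/-! Project AD, part DETL (helper36) -/

namespace Pool.Agent.H54.AD

open Finset

namespace DetlAux

variable {F : Type*} [NormedField F] [IsUltrametricDist F] {ι : Type} [Fintype ι] [DecidableEq ι]

/-- ultrametric bound of a determinant by row bounds -/
theorem det_le (M : Matrix ι ι F) (b : ι → ℝ) (hb : ∀ i, 0 ≤ b i) (h : ∀ i l, ‖M i l‖ ≤ b i) :
    ‖M.det‖ ≤ ∏ i, b i := by
  rw [Matrix.det_apply']
  refine IsUltrametricDist.norm_sum_le_of_forall_le_of_nonneg (prod_nonneg fun i _ => hb i) ?_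
  intro σ _
  rw [norm_mul, norm_prod]
  have h1 : ‖((Equiv.Perm.sign σ : ℤ) : F)‖ ≤ 1 := by
    rcases Int.units_eq_one_or (Equiv.Perm.sign σ) with h | h <;> rw [h] <;> simp
  have h2 : ∏ i, ‖M (σ i) i‖ ≤ ∏ i, b i := by
    rw [← Equiv.prod_comp σ b]
    exact prod_le_prod (fun i _ => norm_nonneg _) fun i _ => h _ _
  calc _ ≤ 1 * ∏ i, b i := mul_le_mul h1 h2 (prod_nonneg fun i _ => norm_nonneg _) zero_le_one
    _ = _ := one_mul _

end DetlAux

open DetlAux in
theorem detl : S_DETL := by
  classical
  intro p _ ι _ _ A s ρ T r₀ U hρ0 hρ1 hs hU hA hAu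
  choose u hu hw using hAu
  obtain ⟨w, hwd⟩ : ∃ w : ι → ι → PadicAlgCl p, w = fun i => A i - u i := ⟨_, rfl⟩
  have hρT : ρ ^ T ≤ 1 := pow_le_one₀ hρ0.le hρ1
  have hρT0 : 0 ≤ ρ ^ T := pow_nonneg hρ0.le T
  have hadd : A = w + u := by
    rw [hwd]
    funext i
    simp
  have hb0 : 0 ≤ ρ ^ (T * (Fintype.card ι - r₀)) * ∏ i, s i :=
    mul_nonneg (pow_nonneg hρ0.le _) (prod_nonneg fun i _ => hs i)
  have hdet : A.det = ∑ t : Finset ι, Matrix.det (t.piecewise w u) := by
    conv_lhs => rw [hadd]
    exact (Matrix.detRowAlternating (R := PadicAlgCl p) (n := ι)).toMultilinearMap.map_add_univ w u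
  rw [hdet]
  refine IsUltrametricDist.norm_sum_le_of_forall_le_of_nonneg hb0 ?_
  intro t _
  by_cases ht : r₀ < (tᶜ).card
  · have h0 : Matrix.det (t.piecewise w u) = 0 := by
      refine (Matrix.detRowAlternating (R := PadicAlgCl p) (n := ι)).map_linearDependent _ ?_
      intro hli
      have h1 : LinearIndependent (PadicAlgCl p) (fun i : (tᶜ : Finset ι) => u i) := by
        have h2 := hli.comp (fun i : (tᶜ : Finset ι) => (i : ι)) Subtype.val_injective
        have h3 : (t.piecewise w u) ∘ (fun i : (tᶜ : Finset ι) => (i : ι)) =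
            fun i : (tᶜ : Finset ι) => u i := by
          funext i
          have hi : (i : ι) ∉ t := mem_compl.1 i.2
          simp [Finset.piecewise, hi]
        rw [h3] at h2
        exact h2
      have h4 : LinearIndependent (PadicAlgCl p) (fun i : (tᶜ : Finset ι) => (⟨u i, hu i⟩ : U)) := by
        refine LinearIndependent.of_comp U.subtype ?_
        exact h1
      have h5 := h4.fintype_card_le_finrank
      rw [Fintype.card_coe] at h5
      omega
    rw [h0, norm_zero]
    exact hb0
  · push Not at ht
    obtain ⟨b, hb⟩ : ∃ b : ι → ℝ, b = fun i => (if i ∈ t then ρ ^ T else 1) * s i := ⟨_, rfl⟩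
    have h1 := det_le (Matrix.of (t.piecewise w u)) b (fun i => by
        rw [hb]
        dsimp only
        refine mul_nonneg ?_ (hs i)
        split_ifs
        · exact hρT0
        · exact zero_le_one) (fun i l => by
        rw [hb]
        dsimp only
        rw [Matrix.of_apply]
        by_cases hi : i ∈ t
        · rw [Finset.piecewise_eq_of_mem _ _ _ hi, if_pos hi, hwd]
          exact hw i l
        · rw [Finset.piecewise_eq_of_notMem _ _ _ hi, if_neg hi, one_mul]
          have h2 : u i l = A i l + -(A i l - u i l) := by ring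
          rw [h2]
          refine (IsUltrametricDist.norm_add_le_max _ _).trans (max_le (hA i l) ?_)
          rw [norm_neg]
          refine (hw i l).trans ?_
          exact mul_le_of_le_one_left (hs i) hρT)
    refine le_trans h1 ?_
    have h2 : ∏ i, b i = ρ ^ (T * t.card) * ∏ i, s i := by
      rw [hb, prod_mul_distrib]
      congr 1
      rw [prod_ite, prod_const, prod_const_one, mul_one]
      have : (univ.filter (fun i => i ∈ t)) = t := by ext; simp
      rw [this, pow_mul]
    rw [h2]
    have h3 : Fintype.card ι - r₀ ≤ t.card := by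
      have := card_add_card_compl t
      omega
    refine mul_le_mul_of_nonneg_right ?_ (prod_nonneg fun i _ => hs i)
    exact pow_le_pow_of_le_one hρ0.le hρ1 (Nat.mul_le_mul_left T h3)

end Pool.Agent.H54.AD
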