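import Pool.Agent.H54.AD.Defs

set_option autoImplicit false

/-!
# The rank does not increase under an embedding of fields
-/

namespace Pool.Agent.H54.AD

theorem emb_mem {Ω Ω' κ : Type} [Field Ω] [Field Ω'] (ψ : Ω →+* Ω') {b : Set (κ → Ω)}
    {t : κ → Ω} (ht : t ∈ Submodule.span Ω b) :
    (fun n => ψ (t n)) ∈ Submodule.span Ω' ((fun (w : κ → Ω) (n : κ) => ψ (w n)) '' b) := by
  induction ht using Submodule.span_induction with
  | mem x hx => exact Submodule.subset_span ⟨x, hx, rfl⟩
  | zero =>
    have : (fun n : κ => ψ ((0 : κ → Ω) n)) = 0 := by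
      funext n
      simp
    rw [this]
    exact Submodule.zero_mem _
  | add x y _ _ hx hy =>
    have : (fun n : κ => ψ ((x + y) n)) = (fun n => ψ (x n)) + fun n => ψ (y n) := by
      funext n
      simp
    rw [this]
    exact Submodule.add_mem _ hx hy
  | smul a x _ hx =>
    have : (fun n : κ => ψ ((a • x) n)) = ψ a • fun n => ψ (x n) := by
      funext n
      simp
    rw [this]
    exact Submodule.smul_mem _ _ hx

theorem emb : S_EMB := by
  intro Ω Ω' _ _ ψ ι N₁ N₂ u v S hS
  classical
  unfold rk
  set T : Set (Fin N₁ × Fin N₂ → Ω) := (fun x => row N₁ N₂ (u x) (v x)) '' S with hT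
  set F : (Fin N₁ × Fin N₂ → Ω) → (Fin N₁ × Fin N₂ → Ω') := fun w n => ψ (w n) with hF
  have hTF : (fun x => row N₁ N₂ (ψ (u x)) (ψ (v x))) '' S = F '' T := by
    rw [hT, Set.image_image]
    refine Set.image_congr fun x _ => ?_
    funext n
    simp only [hF, row, map_mul, map_pow]
  obtain ⟨b, hb1, hb2, hb3⟩ := exists_linearIndependent Ω T
  have hbf : b.Finite := (hS.image _).subset hb1
  haveI : Fintype b := hbf.fintype
  have hcard : Module.finrank Ω (Submodule.span Ω T) = Fintype.card b := by
    rw [← hb2]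
    exact (finrank_span_set_eq_card hb3).trans (by rw [Set.toFinset_card])
  rw [hTF, hcard]
  have hle : Submodule.span Ω' (F '' T) ≤ Submodule.span Ω' (F '' b) := by
    rw [Submodule.span_le]
    rintro _ ⟨t, ht, rfl⟩
    have h1 : t ∈ Submodule.span Ω b := by
      rw [hb2]
      exact Submodule.subset_span ht
    exact emb_mem ψ h1
  haveI : Fintype (F '' b) := (hbf.image F).fintype
  calc Module.finrank Ω' (Submodule.span Ω' (F '' T))
      ≤ Module.finrank Ω' (Submodule.span Ω' (F '' b)) := Submodule.finrank_mono hle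
    _ ≤ (F '' b).toFinset.card := finrank_span_le_card _
    _ ≤ Fintype.card b := by
        rw [Set.toFinset_card]
        exact Fintype.card_le_of_surjective (fun x : b => (⟨F x, x, x.2, rfl⟩ : F '' b))
          (by rintro ⟨_, x, hx, rfl⟩; exact ⟨⟨x, hx⟩, rfl⟩)

end Pool.Agent.H54.AD
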