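import Pool.Agent.H54.AD.Defs
import Pool.Agent.H54.G.W402.RK.POW

set_option autoImplicit false

/-!
# Powers of a unit of `K`
-/

namespace Pool.Agent.H54.AD

open Pool.Agent.W402.RK

theorem gam : S_GAM := by
  intro p hp γ a n₁ N j h ha han hγ hclose hj hh
  have hp0 := p_pos (p := p)
  have hp2 := two_le_p (p := p)
  have hγ1 : ‖γ‖ ≤ 1 := hγ.le
  have hγq : ‖γ ^ (p ^ a)‖ ≤ 1 := by rw [norm_pow]; exact pow_le_one₀ (norm_nonneg _) hγ1
  have hstep : ∀ i, n₁ + N ≤ i →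
      ‖γ ^ ((p ^ a) ^ i) - γ ^ ((p ^ a) ^ (i + 1))‖ ≤ ((p : ℝ) ^ N)⁻¹ := by
    intro i hi
    have h1 := core n₁ hγ1 hγq hclose (a * i)
    have e1 : γ ^ (p ^ (a * i)) = γ ^ ((p ^ a) ^ i) := by rw [pow_mul]
    have e2 : (γ ^ (p ^ a)) ^ (p ^ (a * i)) = γ ^ ((p ^ a) ^ (i + 1)) := by
      rw [← pow_mul, pow_mul p a i, ← pow_succ']
    rw [e1, e2] at h1
    have h2 : (p : ℝ) ^ (n₁ + N) ≤ (p : ℝ) ^ (a * i) :=
      pow_le_pow_right₀ (by linarith) (hi.trans (Nat.le_mul_of_pos_left i ha))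
    set D := ‖γ ^ ((p ^ a) ^ i) - γ ^ ((p ^ a) ^ (i + 1))‖ with hD
    have hD0 : 0 ≤ D := norm_nonneg _
    have h3 : D * (p : ℝ) ^ (n₁ + N) ≤ (p : ℝ) ^ n₁ :=
      (mul_le_mul_of_nonneg_left h2 hD0).trans h1
    rw [pow_add, ← mul_assoc, mul_right_comm] at h3
    have h4 : 0 < (p : ℝ) ^ n₁ := by positivity
    have h5 : D * (p : ℝ) ^ N ≤ 1 := by
      by_contra hcon
      push Not at hcon
      nlinarith
    rw [← one_div, le_div_iff₀ (by positivity)]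
    exact h5
  have key : ∀ i, n₁ + N ≤ i → ∀ k, ‖γ ^ ((p ^ a) ^ i) - γ ^ ((p ^ a) ^ (i + k))‖ ≤
      ((p : ℝ) ^ N)⁻¹ := by
    intro i hi k
    induction k with
    | zero =>
      rw [add_zero, sub_self, norm_zero]
      positivity
    | succ k ih =>
      have h1 : γ ^ ((p ^ a) ^ i) - γ ^ ((p ^ a) ^ (i + (k + 1))) =
          (γ ^ ((p ^ a) ^ i) - γ ^ ((p ^ a) ^ (i + k))) +
          (γ ^ ((p ^ a) ^ (i + k)) - γ ^ ((p ^ a) ^ (i + k + 1))) := by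
        rw [add_assoc i k 1]
        ring
      rw [h1]
      exact (IsUltrametricDist.norm_add_le_max _ _).trans
        (max_le ih (hstep _ (hi.trans (Nat.le_add_right _ _))))
  rcases le_total j h with hjh | hjh
  · obtain ⟨k, rfl⟩ := Nat.exists_eq_add_of_le hjh
    exact key j hj k
  · obtain ⟨k, rfl⟩ := Nat.exists_eq_add_of_le hjh
    rw [norm_sub_rev]
    exact key h hh k

end Pool.Agent.H54.AD
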