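import Mathlib
import Pool.Agent.H54.AD.Defs
import Pool.Agent.H54.G.TH53.RP1
import Pool.Agent.H54.G.H58R.Loc

set_option autoImplicit false
set_option linter.unusedVariables false

/-!
# AD-GE: the height inequality for a determinant of monomials
-/

namespace Pool.Agent.H54.AD

open NumberField Height Module
open Pool.Agent.W237.RK
open Pool.Agent.W848.RK
open Pool.Agent.Helper259.AbsHt
open Pool.Agent.H58P (Qb ht qb_isIntegral)

section core

variable {G : Type*} [Fintype G] {d : ℕ} (U V : G → Fin d → Qb)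

theorem core4 (D : Qb) (hN0 : D ≠ 0) (p : ℕ) [hp : Fact p.Prime] (φ : Qb →+* PadicAlgCl p) (M : GF)
    (hU : ∀ g s, U g s ∈ M) (hV : ∀ g s, V g s ∈ M) (hD : D ∈ M)
    (hcj : ∀ W : ValuationSubring Qb, W.valuation (p : Qb) < 1 → ∃ (π : G ≃ G) (ρ : Aut),
      (∀ g s, ρ (U g s) = U (π g) s) ∧ (∀ g s, ρ (V g s) = V (π g) s) ∧ ρ D = D ∧
      ∀ x ∈ M, (x ∈ W ↔ ‖φ (ρ x)‖ ≤ 1))
    (hDW : ∀ W : ValuationSubring Qb, W.valuation D ≤ ∏ q : G × Fin d,
      (max 1 (W.valuation (U q.1 q.2)) * max 1 (W.valuation (V q.1 q.2))))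
    (A : ℝ) (hA0 : 0 < A) (hA : ∀ ψ : Qb →+* ℂ, ‖ψ D‖ ≤ A *
      ∏ q : G × Fin d, (max 1 ‖ψ (U q.1 q.2)‖ * max 1 ‖ψ (V q.1 q.2)‖))
    (Δ : ℝ) (hΔ0 : 0 < Δ) (hΔ1 : Δ ≤ 1)
    (hloc : ‖φ D‖ ≤ Δ *
      ∏ q : G × Fin d, (max 1 ‖φ (U q.1 q.2)‖ * max 1 ‖φ (V q.1 q.2)‖)) :
    -Real.log Δ ≤
      ∑ q : G × Fin d, (ht (U q.1 q.2) + ht (V q.1 q.2)) + Real.log A := by
  classical
  have hpp : p.Prime := hp.out
  have hp0 : (0 : ℝ) < p := by exact_mod_cast hpp.pos
  have hp1 : (1 : ℝ) < p := by exact_mod_cast hpp.one_lt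
  have hlogp : 0 < Real.log p := Real.log_pos hp1
  have hlogδ : 0 ≤ -Real.log Δ := by
    have := Real.log_nonpos hΔ0.le hΔ1
    linarith
  have hw := ht_wv U V
  set H : ℝ := ∑ q : G × Fin d, (ht (U q.1 q.2) + ht (V q.1 q.2)) with hH
  -- main inequality
  have key : ∀ r : ℕ, (r : ℝ) * (-Real.log Δ) - Real.log p ≤
      (r : ℝ) * (H + Real.log A) := by
    intro r
    set b : ℕ := ⌊((r : ℝ) * (-Real.log Δ)) / Real.log p⌋₊ with hb
    have hb1 : (b : ℝ) * Real.log p ≤ (r : ℝ) * (-Real.log Δ) := by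
      rw [← le_div_iff₀ hlogp]
      exact Nat.floor_le (by positivity)
    have hb2 : (r : ℝ) * (-Real.log Δ) < (b + 1 : ℝ) * Real.log p := by
      rw [← div_lt_iff₀ hlogp]
      exact Nat.lt_floor_add_one _
    let c : Qb := (p : Qb) ^ b * (D ^ r)⁻¹
    have hpQ : (p : Qb) ≠ 0 := by exact_mod_cast hpp.ne_zero
    have hc : c ≠ 0 := mul_ne_zero (pow_ne_zero _ hpQ) (inv_ne_zero (pow_ne_zero _ hN0))
    have hx : absLogHeight (c • fun f => wv U V f ^ r) = r * H := by
      rw [absLogHeight_smul _ hc, absLogHeight_powfam, hw]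
    have hle : Real.log ((p : ℝ) ^ b / A ^ r) ≤
        absLogHeight (c • fun f => wv U V f ^ r) := by
      apply height_geR
      · positivity
      · intro W
        have hpW : W.valuation (p : Qb) ≤ 1 := by
          rw [ValuationSubring.valuation_le_one_iff]
          exact natCast_mem W p
        rcases lt_or_eq_of_le hpW with h | h
        · obtain ⟨π, ρ, hρU, hρV, hN1, hρ⟩ := hcj W h
          obtain ⟨f, hf⟩ := exists_max U V (fun x => ‖φ (ρ x)‖) (by simp) (by simp)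
          have hf1 : ‖φ (ρ (wv U V f))‖ =
              ∏ q : G × Fin d, (max 1 ‖φ (U q.1 q.2)‖ * max 1 ‖φ (V q.1 q.2)‖) := by
            have h1 : ‖φ (ρ (wv U V f))‖ = ∏ q : G × Fin d,
              (max 1 ‖φ (ρ (U q.1 q.2))‖ * max 1 ‖φ (ρ (V q.1 q.2))‖) := hf
            rw [h1]
            simp only [hρU, hρV]
            exact Equiv.prod_comp (π.prodCongr (Equiv.refl (Fin d)))
              (fun q : G × Fin d => (max 1 ‖φ (U q.1 q.2)‖ * max 1 ‖φ (V q.1 q.2)‖))
          refine ⟨f, ?_⟩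
          -- the element and its norm
          have hP1 : (1 : ℝ) ≤ ∏ q : G × Fin d,
              (max 1 ‖φ (U q.1 q.2)‖ * max 1 ‖φ (V q.1 q.2)‖) := by
            refine Finset.prod_induction _ (fun x : ℝ => 1 ≤ x) ?_ le_rfl ?_
            · intro a b ha hb
              exact one_le_mul_of_one_le_of_one_le ha hb
            · intro q _
              exact one_le_mul_of_one_le_of_one_le (le_max_left _ _) (le_max_left _ _)
          have hwf0 : wv U V f ≠ 0 := by
            intro h0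
            rw [h0, map_zero, map_zero, norm_zero] at hf1
            rw [← hf1] at hP1
            linarith
          have hx0 : c * wv U V f ^ r ≠ 0 := mul_ne_zero hc (pow_ne_zero _ hwf0)
          have hxM : (c * wv U V f ^ r)⁻¹ ∈ M := by
            have h1 : D ∈ M := hD
            have h2 : wv U V f ∈ M := by
              refine prod_mem fun q _ => mul_mem ?_ ?_
              · generalize (f q).1 = j
                fin_cases j
                · simp
                · simpa using hU q.1 q.2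
              · generalize (f q).2 = j
                fin_cases j
                · simp
                · simpa using hV q.1 q.2
            exact inv_mem (mul_mem (mul_mem (pow_mem (natCast_mem _ _) _)
              (inv_mem (pow_mem h1 _))) (pow_mem h2 _))
          have hnorm : 1 ≤ ‖φ (ρ (c * wv U V f ^ r))‖ := by
            have e1 : ‖φ (ρ (c * wv U V f ^ r))‖ = ((p : ℝ)⁻¹) ^ b * (‖φ D‖ ^ r)⁻¹ *
                ‖φ (ρ (wv U V f))‖ ^ r := by
              have hp' : ‖φ (ρ (p : Qb))‖ = (p : ℝ)⁻¹ := by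
                rw [map_natCast, map_natCast]
                have h2 := PadicAlgCl.norm_extends p (p : ℚ_[p])
                rw [Padic.norm_p] at h2
                rw [← h2]
                congr 1
              rw [show c = (p : Qb) ^ b * (D ^ r)⁻¹ from rfl]
              simp only [map_mul, map_pow, map_inv₀, norm_mul, norm_pow, norm_inv, hN1, hp']
            have hX : 0 < ‖φ D‖ := norm_pos_iff.mpr ((map_ne_zero φ).mpr hN0)
            rw [e1, hf1]
            set P : ℝ := ∏ q : G × Fin d, (max 1 ‖φ (U q.1 q.2)‖ * max 1 ‖φ (V q.1 q.2)‖)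
            have hP0 : 0 < P := by linarith
            have hXr : ‖φ D‖ ^ r ≤ (Δ) ^ r * P ^ r := by
              rw [← mul_pow]
              exact pow_le_pow_left₀ hX.le hloc r
            have hpb : (p : ℝ) ^ b * (Δ) ^ r ≤ 1 := by
              rw [← Real.log_nonpos_iff (by positivity),
                Real.log_mul (by positivity) (by positivity), Real.log_pow, Real.log_pow]
              linarith
            have h5 : (p : ℝ) ^ b * ‖φ D‖ ^ r ≤ P ^ r := by
              calc (p : ℝ) ^ b * ‖φ D‖ ^ r ≤ (p : ℝ) ^ b * ((Δ) ^ r * P ^ r) := by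
                    gcongr
                _ = ((p : ℝ) ^ b * (Δ) ^ r) * P ^ r := by ring
                _ ≤ 1 * P ^ r := by gcongr
                _ = P ^ r := one_mul _
            rw [inv_pow, ← mul_inv, ← div_eq_inv_mul, one_le_div (by positivity)]
            exact h5
          have h1 : (c * wv U V f ^ r)⁻¹ ∈ W := by
            rw [hρ _ hxM, map_inv₀, map_inv₀, norm_inv]
            exact inv_le_one_of_one_le₀ hnorm
          rw [← ValuationSubring.valuation_le_one_iff, map_inv₀] at h1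
          show 1 ≤ W.valuation (c * wv U V f ^ r)
          exact (inv_le_one₀ (zero_lt_iff.mpr ((Valuation.ne_zero_iff _).mpr hx0))).mp h1
        · obtain ⟨f, hf⟩ := exists_max U V (fun x => W.valuation x) (by simp) (by simp)
          refine ⟨f, ?_⟩
          have hN : W.valuation D ≤ W.valuation (wv U V f) := by
            rw [hf]
            exact hDW W
          have hN' : W.valuation D ≠ 0 := (Valuation.ne_zero_iff _).mpr hN0
          show 1 ≤ W.valuation ((p : Qb) ^ b * (D ^ r)⁻¹ * wv U V f ^ r)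
          rw [map_mul, map_mul, map_pow, map_inv₀, map_pow, map_pow, h, one_pow, one_mul,
            ← inv_mul_cancel₀ (pow_ne_zero r hN')]
          exact mul_le_mul' le_rfl (pow_le_pow_left' hN r)
      · intro ψ
        obtain ⟨f, hf⟩ := exists_max U V (fun x => ‖ψ x‖) (by simp) (by simp)
        refine ⟨f, ?_⟩
        have hN : ‖ψ D‖ ≤ A * ‖ψ (wv U V f)‖ := by
          have hf' : ‖ψ (wv U V f)‖ = ∏ q : G × Fin d,
              (max 1 ‖ψ (U q.1 q.2)‖ * max 1 ‖ψ (V q.1 q.2)‖) := hf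
          rw [hf']
          exact hA ψ
        have hX : 0 < ‖ψ D‖ := norm_pos_iff.mpr ((map_ne_zero ψ).mpr hN0)
        show (p : ℝ) ^ b / A ^ r ≤ ‖ψ ((p : Qb) ^ b * (D ^ r)⁻¹ * wv U V f ^ r)‖
        have e1 : ‖ψ ((p : Qb) ^ b * (D ^ r)⁻¹ * wv U V f ^ r)‖ =
            (p : ℝ) ^ b * (‖ψ D‖ ^ r)⁻¹ * ‖ψ (wv U V f)‖ ^ r := by
          simp only [map_mul, map_pow, map_inv₀, norm_mul, norm_pow, norm_inv, map_natCast,
            Complex.norm_natCast]
        rw [e1]
        have hXr : ‖ψ D‖ ^ r ≤ A ^ r * ‖ψ (wv U V f)‖ ^ r := by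
          rw [← mul_pow]
          exact pow_le_pow_left₀ hX.le hN r
        rw [div_le_iff₀ (by positivity)]
        calc (p : ℝ) ^ b = (p : ℝ) ^ b * ((‖ψ D‖ ^ r)⁻¹ * ‖ψ D‖ ^ r) := by
              rw [inv_mul_cancel₀ (by positivity), mul_one]
          _ ≤ (p : ℝ) ^ b * ((‖ψ D‖ ^ r)⁻¹ * (A ^ r * ‖ψ (wv U V f)‖ ^ r)) := by
              gcongr
          _ = _ := by ring
    rw [hx, Real.log_div (by positivity) (by positivity), Real.log_pow, Real.log_pow] at hle
    nlinarith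
  by_contra hcon
  push Not at hcon
  set A' := -Real.log Δ
  set B := H + Real.log A
  obtain ⟨r, hr⟩ := exists_nat_gt (Real.log p / (A' - B))
  have h1 := key r
  rw [div_lt_iff₀ (by linarith)] at hr
  nlinarith

end core

/-! ### bounds for determinants -/

theorem val_det_le {ι : Type*} [Fintype ι] [DecidableEq ι] {K Γ : Type*} [Field K]
    [LinearOrderedCommGroupWithZero Γ] (v : Valuation K Γ) (A : Matrix ι ι K) (s : ι → Γ)
    (h : ∀ i l, v (A i l) ≤ s i) : v A.det ≤ ∏ i, s i := by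
  rw [Matrix.det_apply]
  refine Valuation.map_sum_le v fun σ _ => ?_
  have e1 : v (Equiv.Perm.sign σ • ∏ i, A (σ i) i) = v (∏ i, A (σ i) i) := by
    rcases Int.units_eq_one_or (Equiv.Perm.sign σ) with h1 | h1
    · rw [h1, one_smul]
    · rw [h1, Units.neg_smul, one_smul, Valuation.map_neg]
  rw [e1, map_prod, ← Equiv.prod_comp σ s]
  exact Finset.prod_le_prod' fun i _ => h _ _

theorem norm_det_le (p : ℕ) [Fact p.Prime] {ι : Type*} [Fintype ι] [DecidableEq ι]
    (A : Matrix ι ι (PadicAlgCl p)) (s : ι → ℝ) (hs : ∀ i, 0 ≤ s i)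
    (h : ∀ i l, ‖A i l‖ ≤ s i) : ‖A.det‖ ≤ ∏ i, s i := by
  rw [Matrix.det_apply]
  refine IsUltrametricDist.norm_sum_le_of_forall_le_of_nonneg
    (Finset.prod_nonneg fun i _ => hs i) fun σ _ => ?_
  have e1 : ‖Equiv.Perm.sign σ • ∏ i, A (σ i) i‖ = ‖∏ i, A (σ i) i‖ := by
    rcases Int.units_eq_one_or (Equiv.Perm.sign σ) with h1 | h1
    · rw [h1, one_smul]
    · rw [h1, Units.neg_smul, one_smul, norm_neg]
  rw [e1, norm_prod, ← Equiv.prod_comp σ s]
  exact Finset.prod_le_prod (fun i _ => norm_nonneg _) fun i _ => h _ _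

theorem cnorm_det_le {ι : Type*} [Fintype ι] [DecidableEq ι]
    (A : Matrix ι ι ℂ) (s : ι → ℝ) (hs : ∀ i, 0 ≤ s i)
    (h : ∀ i l, ‖A i l‖ ≤ s i) :
    ‖A.det‖ ≤ (Fintype.card ι : ℝ) ^ Fintype.card ι * ∏ i, s i := by
  rw [Matrix.det_apply]
  have e0 : ∀ σ : Equiv.Perm ι, ‖Equiv.Perm.sign σ • ∏ i, A (σ i) i‖ ≤ ∏ i, s i := by
    intro σ
    have e1 : ‖Equiv.Perm.sign σ • ∏ i, A (σ i) i‖ = ‖∏ i, A (σ i) i‖ := by
      rcases Int.units_eq_one_or (Equiv.Perm.sign σ) with h1 | h1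
      · rw [h1, one_smul]
      · rw [h1, Units.neg_smul, one_smul, norm_neg]
    rw [e1, norm_prod, ← Equiv.prod_comp σ s]
    exact Finset.prod_le_prod (fun i _ => norm_nonneg _) fun i _ => h _ _
  calc _ ≤ ∑ σ : Equiv.Perm ι, ‖Equiv.Perm.sign σ • ∏ i, A (σ i) i‖ := norm_sum_le _ _
    _ ≤ ∑ σ : Equiv.Perm ι, ∏ i, s i := Finset.sum_le_sum fun σ _ => e0 σ
    _ = ((Fintype.card ι).factorial : ℝ) * ∏ i, s i := by
        rw [Finset.sum_const, Finset.card_univ, Fintype.card_perm, nsmul_eq_mul]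
    _ ≤ _ := by
        refine mul_le_mul_of_nonneg_right ?_ (Finset.prod_nonneg fun i _ => hs i)
        exact_mod_cast Nat.factorial_le_pow _

/-- the size of a monomial -/
theorem mono_le {a b : ℝ} (ha : 0 ≤ a) (hb : 0 ≤ b) {m n N₁ N₂ : ℕ} (hm : m < N₁) (hn : n < N₂) :
    a ^ m * b ^ n ≤ (max 1 a) ^ N₁ * (max 1 b) ^ N₂ := by
  have h1 : a ^ m ≤ (max 1 a) ^ N₁ := (pow_le_pow_left₀ ha (le_max_right _ _) _).trans
    (pow_le_pow_right₀ (le_max_left _ _) hm.le)
  have h2 : b ^ n ≤ (max 1 b) ^ N₂ := (pow_le_pow_left₀ hb (le_max_right _ _) _).trans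
    (pow_le_pow_right₀ (le_max_left _ _) hn.le)
  exact mul_le_mul h1 h2 (by positivity) (by positivity)

theorem mono_le_val {Γ : Type*} [LinearOrderedCommGroupWithZero Γ] {a b : Γ} {m n N₁ N₂ : ℕ}
    (hm : m < N₁) (hn : n < N₂) :
    a ^ m * b ^ n ≤ (max 1 a) ^ N₁ * (max 1 b) ^ N₂ := by
  have h1 : a ^ m ≤ (max 1 a) ^ N₁ := (pow_le_pow_left' (le_max_right _ _) _).trans
    (pow_le_pow_right' (le_max_left _ _) hm.le)
  have h2 : b ^ n ≤ (max 1 b) ^ N₂ := (pow_le_pow_left' (le_max_right _ _) _).trans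
    (pow_le_pow_right' (le_max_left _ _) hn.le)
  exact mul_le_mul' h1 h2

/-- `row` and ring homomorphisms -/
theorem map_row {K L : Type*} [Field K] [Field L] (f : K →+* L) (N₁ N₂ : ℕ) (u v : K)
    (n : Fin N₁ × Fin N₂) : f (row N₁ N₂ u v n) = row N₁ N₂ (f u) (f v) n := by
  simp [row]

theorem map_det_row {K L : Type*} [Field K] [Field L] (f : K →+* L) {ι : Type*} [Fintype ι]
    [DecidableEq ι] (N₁ N₂ : ℕ) (u v : ι → K) (c : ι → Fin N₁ × Fin N₂) :
    f (Matrix.of (fun i l => row N₁ N₂ (u i) (v i) (c l))).det =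
      (Matrix.of (fun i l => row N₁ N₂ (f (u i)) (f (v i)) (c l))).det := by
  rw [RingHom.map_det]
  congr 1
  ext i l
  simp [row]

theorem ge : S_GE := by
  intro p hp φ M hM hst ι _ _ N₁ N₂ u v c huv hdet T δ hδ0 hδ1 hT
  classical
  have hnf : NumberField M := { to_charZero := inferInstance, to_finiteDimensional := hM }
  -- the embeddings
  let emb : (M ≃ₐ[ℚ] M) → (M →+* Qb) := fun τ => (algebraMap M Qb).comp (τ : M →+* M)
  have hemb : Function.Injective emb := by
    intro τ τ' h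
    ext x
    exact congrArg (fun g : M →+* Qb => g x) h
  have hfin : Finite (M ≃ₐ[ℚ] M) := Finite.of_injective emb hemb
  have hft : Fintype (M ≃ₐ[ℚ] M) := Fintype.ofFinite _
  have hcard : (Fintype.card (M ≃ₐ[ℚ] M) : ℝ) ≤ Module.finrank ℚ M := by
    have h1 := Fintype.card_le_of_injective emb hemb
    have h2 := NumberField.Embeddings.card M Qb
    rw [h2] at h1
    have h3 : Fintype.card (M ≃ₐ[ℚ] M) ≤ Module.finrank ℚ M := by
      convert h1
    exact_mod_cast h3
  set u' : ι → M := fun i => ⟨u i, (huv i).1⟩ with hu'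
  set v' : ι → M := fun i => ⟨v i, (huv i).2⟩ with hv'
  set dM : M := (Matrix.of (fun i l => row N₁ N₂ (u' i) (v' i) (c l))).det with hdM
  have hdMQ : ∀ τ : M ≃ₐ[ℚ] M, ((τ dM : M) : Qb) =
      (Matrix.of (fun i l => row N₁ N₂ ((τ (u' i) : M) : Qb) ((τ (v' i) : M) : Qb)
        (c l))).det := fun τ => map_det_row (emb τ) N₁ N₂ u' v' c
  have hdMQ1 : (dM : Qb) = (Matrix.of (fun i l => row N₁ N₂ (u i) (v i) (c l))).det :=
    map_det_row (algebraMap M Qb) N₁ N₂ u' v' c
  have hdM0 : dM ≠ 0 := by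
    intro h
    rw [h] at hdMQ1
    exact hdet (by rw [← hdMQ1]; rfl)
  set J : Type _ := ι × (Fin N₁ ⊕ Fin N₂) with hJ
  set d := Fintype.card J with hd
  set e : Fin d ≃ J := (Fintype.equivFin J).symm with he
  set w : J → M := fun q => Sum.elim (fun _ => u' q.1) (fun _ => v' q.1) q.2 with hw
  set U : (M ≃ₐ[ℚ] M) → Fin d → Qb := fun τ s => ((τ (w (e s)) : M) : Qb) with hU
  set V : (M ≃ₐ[ℚ] M) → Fin d → Qb := fun _ _ => 1 with hV
  set D : Qb := ∏ τ : M ≃ₐ[ℚ] M, ((τ dM : M) : Qb) with hD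
  have hD0 : D ≠ 0 := by
    rw [hD, Finset.prod_ne_zero_iff]
    intro τ _ h
    have h1 : (τ dM : M) = 0 := by exact_mod_cast h
    exact hdM0 ((map_eq_zero τ).1 h1)
  have hprodJ : ∀ {Γ : Type} [CommMonoid Γ] (F : M → Γ),
      ∏ s : Fin d, F (w (e s)) = ∏ i, (F (u' i)) ^ N₁ * (F (v' i)) ^ N₂ := by
    intro Γ _ F
    rw [Equiv.prod_comp e (fun q => F (w q)), Fintype.prod_prod_type]
    refine Finset.prod_congr rfl fun i _ => ?_
    rw [Fintype.prod_sum_type]
    simp [hw]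
  have hsc : ∀ {Γ : Type} [LinearOrder Γ] [CommMonoid Γ] (N : Qb → Γ) (h1 : N 1 = 1)
      (τ : M ≃ₐ[ℚ] M), ∏ s : Fin d, (max 1 (N (U τ s)) * max 1 (N (V τ s))) =
        ∏ i, (max 1 (N ((τ (u' i) : M) : Qb))) ^ N₁ * (max 1 (N ((τ (v' i) : M) : Qb))) ^ N₂ := by
    intro Γ _ _ N h1 τ
    rw [← hprodJ (fun x => max 1 (N ((τ x : M) : Qb)))]
    refine Finset.prod_congr rfl fun s _ => ?_
    simp [hU, hV, h1]
  set n : ℕ := Fintype.card ι with hn
  set A : ℝ := ((n : ℝ) ^ n) ^ Fintype.card (M ≃ₐ[ℚ] M) with hAdef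
  have hn0 : (0 : ℝ) < (n : ℝ) ^ n := by
    rcases Nat.eq_zero_or_pos n with h | h
    · rw [h]; simp
    · positivity
  have hlogT : -Real.log (δ ^ T.card) = (T.card : ℝ) * -Real.log δ := by
    rw [Real.log_pow]; ring
  have key := core4 (G := M ≃ₐ[ℚ] M) U V D hD0 p φ M (fun g s => (g _).2)
    (fun g s => one_mem _) (prod_mem fun τ _ => (τ dM).2) ?_ ?_ A (by positivity) ?_
    (δ ^ T.card) (by positivity) (pow_le_one₀ hδ0.le hδ1) ?_
  · rw [hlogT] at key
    refine key.trans ?_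
    have h1 : ∀ (g : M ≃ₐ[ℚ] M) (x : M), ht ((g x : M) : Qb) = ht (x : Qb) := by
      intro g x
      exact ht_conjM M (g : M →+* M) x
    have h2 : ∑ q : (M ≃ₐ[ℚ] M) × Fin d, (ht (U q.1 q.2) + ht (V q.1 q.2)) =
        Fintype.card (M ≃ₐ[ℚ] M) * ∑ i, (N₁ * ht (u i) + N₂ * ht (v i)) := by
      simp only [hU, hV, h1, Pool.Agent.H58R.ht_one, add_zero]
      rw [Fintype.sum_prod_type]
      simp only []
      rw [Finset.sum_const, Finset.card_univ, nsmul_eq_mul]
      congr 1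
      rw [Equiv.sum_comp e (fun q => ht ((w q : M) : Qb)), Fintype.sum_prod_type]
      refine Finset.sum_congr rfl fun i _ => ?_
      rw [Fintype.sum_sum_type]
      simp [hw, hu', hv']
    rw [h2, hAdef, Real.log_pow, Real.log_pow, ← mul_add]
    have h5 : 0 ≤ ∑ i, (N₁ * ht (u i) + N₂ * ht (v i)) := Finset.sum_nonneg fun i _ => by
      have a1 : 0 ≤ ht (u i) := absLogHeight_nonneg _
      have a2 : 0 ≤ ht (v i) := absLogHeight_nonneg _
      positivity
    have h6 : 0 ≤ Real.log (n : ℝ) := Real.log_natCast_nonneg n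
    apply (mul_le_mul_of_nonneg_right hcard (by positivity)).trans
    rw [add_comm]
  · intro W hW
    obtain ⟨ρ, hρ⟩ := Pool.Agent.W369.RK.conj p φ M hM hst W hW
    have hρ' : ∀ x ∈ M, ρ⁻¹ x ∈ M := fun x hx => hst ρ⁻¹ x hx
    let e : M ≃+* M :=
      { toFun := fun x => ⟨ρ x, hst ρ x x.2⟩
        invFun := fun x => ⟨ρ⁻¹ x, hρ' x x.2⟩
        left_inv := fun x => Subtype.ext (AlgEquiv.symm_apply_apply ρ (x : Qb))
        right_inv := fun x => Subtype.ext (AlgEquiv.apply_symm_apply ρ (x : Qb))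
        map_mul' := fun x y => Subtype.ext (map_mul ρ (x : Qb) y)
        map_add' := fun x y => Subtype.ext (map_add ρ (x : Qb) y) }
    let ρM : M ≃ₐ[ℚ] M := AlgEquiv.ofRingEquiv (f := e) (fun r => by
      have h1 : (algebraMap ℚ M r : M) = (r : M) := by simp
      rw [h1]
      exact map_ratCast e r)
    refine ⟨Equiv.mulLeft ρM, ρ, fun g s => rfl, fun g s => map_one ρ, ?_, hρ⟩
    rw [hD, map_prod]
    exact Equiv.prod_comp (Equiv.mulLeft ρM) (fun τ : M ≃ₐ[ℚ] M => ((τ dM : M) : Qb))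
  · intro W
    rw [Fintype.prod_prod_type, hD, map_prod]
    refine Finset.prod_le_prod' fun τ _ => ?_
    rw [hsc (fun x => W.valuation x) (map_one _) τ, hdMQ τ]
    refine val_det_le _ _ _ fun i l => ?_
    rw [Matrix.of_apply, row, map_mul, map_pow, map_pow]
    exact mono_le_val (c l).1.2 (c l).2.2
  · intro ψ
    rw [Fintype.prod_prod_type, hD, map_prod, norm_prod, hAdef, ← Finset.card_univ,
      ← Finset.prod_const, ← Finset.prod_mul_distrib]
    refine Finset.prod_le_prod (fun τ _ => norm_nonneg _) fun τ _ => ?_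
    rw [hsc (fun x => ‖ψ x‖) (by simp) τ, hdMQ τ, map_det_row ψ]
    refine cnorm_det_le _ _ (fun i => by positivity) fun i l => ?_
    rw [Matrix.of_apply, row, norm_mul, norm_pow, norm_pow]
    exact mono_le (norm_nonneg _) (norm_nonneg _) (c l).1.2 (c l).2.2
  · have hg : ∀ τ : M ≃ₐ[ℚ] M, ‖φ ((τ dM : M) : Qb)‖ ≤ (if τ ∈ T then δ else 1) *
        ∏ s, (max 1 ‖φ (U τ s)‖ * max 1 ‖φ (V τ s)‖) := by
      intro τ
      rw [hsc (fun x => ‖φ x‖) (by simp) τ]
      by_cases h : τ ∈ T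
      · rw [if_pos h]
        obtain ⟨t, ht1, ht2⟩ := hT τ h
        have e1 : ((τ dM : M) : Qb) = t (dM : Qb) := (ht1 dM).symm
        have e2 : ∀ i, ((τ (u' i) : M) : Qb) = t (u i) := fun i => (ht1 (u' i)).symm
        have e3 : ∀ i, ((τ (v' i) : M) : Qb) = t (v i) := fun i => (ht1 (v' i)).symm
        rw [e1, hdMQ1]
        simp only [e2, e3]
        exact ht2
      · rw [if_neg h, one_mul, hdMQ τ, map_det_row φ]
        refine norm_det_le p _ _ (fun i => by positivity) fun i l => ?_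
        rw [Matrix.of_apply, row, norm_mul, norm_pow, norm_pow]
        exact mono_le (norm_nonneg _) (norm_nonneg _) (c l).1.2 (c l).2.2
    rw [hD, map_prod, norm_prod, Fintype.prod_prod_type]
    calc ∏ τ : M ≃ₐ[ℚ] M, ‖φ ((τ dM : M) : Qb)‖
        ≤ ∏ τ : M ≃ₐ[ℚ] M, ((if τ ∈ T then δ else 1) *
          ∏ s, (max 1 ‖φ (U τ s)‖ * max 1 ‖φ (V τ s)‖)) :=
          Finset.prod_le_prod (fun g _ => norm_nonneg _) fun g _ => hg g
      _ = _ := by
          rw [Finset.prod_mul_distrib]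
          congr 1
          rw [Finset.prod_ite]
          simp

end Pool.Agent.H54.AD
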