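import Pool.Agent.H54.AD.Defs

set_option autoImplicit false

/-! Project AD, part HALF (helper36) -/

namespace Pool.Agent.H54.AD

open Module

namespace HalfAux

variable {Ω : Type} [Field Ω] {ι : Type}

/-- the rank is the column rank -/
theorem rk_col (N₁ N₂ : ℕ) (u v : ι → Ω) (S : Set ι) (hS : S.Finite) :
    rk N₁ N₂ u v S = finrank Ω (Submodule.span Ω
      (Set.range (fun n : Fin N₁ × Fin N₂ => (fun x : S => u x ^ (n.1 : ℕ) * v x ^ (n.2 : ℕ))))) := by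
  have : Fintype S := hS.fintype
  classical
  have h1 := Matrix.rank_eq_finrank_span_row (Matrix.of (fun (x : S) => row N₁ N₂ (u x) (v x)))
  have h2 := Matrix.rank_eq_finrank_span_cols (Matrix.of (fun (x : S) => row N₁ N₂ (u x) (v x)))
  unfold rk
  have h3 : ((fun x => row N₁ N₂ (u x) (v x)) '' S) =
      Set.range (Matrix.of (fun (x : S) => row N₁ N₂ (u x) (v x))).row := by
    ext z
    constructor
    · rintro ⟨x, hx, rfl⟩
      exact ⟨⟨x, hx⟩, rfl⟩
    · rintro ⟨x, rfl⟩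
      exact ⟨x, x.2, rfl⟩
  rw [h3, ← h1, h2]
  rfl

end HalfAux

open HalfAux in
theorem half : S_HALF := by
  intro Ω _ ι N₁ N₂ n₁ n₂ u v S hS h1 h2
  have : Fintype S := hS.fintype
  rw [rk_col N₁ N₂ u v S hS, rk_col n₁ n₂ u v S hS]
  obtain ⟨V, hV⟩ : ∃ V, V = Submodule.span Ω
      (Set.range (fun n : Fin n₁ × Fin n₂ => (fun x : S => u x ^ (n.1 : ℕ) * v x ^ (n.2 : ℕ)))) := ⟨_, rfl⟩
  rw [← hV]
  let D : ℕ × ℕ → ((S → Ω) →ₗ[Ω] (S → Ω)) := fun t =>
    LinearMap.pi (fun x : S => (u x ^ t.1 * v x ^ t.2) • LinearMap.proj x)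
  have hD : ∀ (t : ℕ × ℕ) (w : S → Ω) (x : S), D t w x = u x ^ t.1 * v x ^ t.2 * w x := by
    intro t w x
    simp [D]
  have hle : Submodule.span Ω
      (Set.range (fun n : Fin N₁ × Fin N₂ => (fun x : S => u x ^ (n.1 : ℕ) * v x ^ (n.2 : ℕ)))) ≤
      (V.map (D (0, 0)) ⊔ V.map (D (n₁, 0))) ⊔ (V.map (D (0, n₂)) ⊔ V.map (D (n₁, n₂))) := by
    rw [Submodule.span_le]
    rintro _ ⟨n, rfl⟩
    have key : ∀ (t : ℕ × ℕ) (m₁ m₂ : ℕ), m₁ < n₁ → m₂ < n₂ → (n.1 : ℕ) = m₁ + t.1 →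
        (n.2 : ℕ) = m₂ + t.2 → (fun x : S => u x ^ (n.1 : ℕ) * v x ^ (n.2 : ℕ)) ∈ V.map (D t) := by
      intro t m₁ m₂ hm1 hm2 e1 e2
      refine ⟨fun x : S => u x ^ m₁ * v x ^ m₂, ?_, ?_⟩
      · rw [hV]
        exact Submodule.subset_span ⟨(⟨m₁, hm1⟩, ⟨m₂, hm2⟩), rfl⟩
      · funext x
        rw [hD]
        rw [e1, e2, pow_add, pow_add]
        ring
    have hn1 := n.1.2
    have hn2 := n.2.2
    rcases Nat.lt_or_ge (n.1 : ℕ) n₁ with ha | ha <;> rcases Nat.lt_or_ge (n.2 : ℕ) n₂ with hb | hb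
    · exact Submodule.mem_sup_left (Submodule.mem_sup_left
        (key (0, 0) n.1 n.2 ha hb (by simp) (by simp)))
    · exact Submodule.mem_sup_right (Submodule.mem_sup_left
        (key (0, n₂) n.1 (n.2 - n₂) ha (by omega) (by simp) (by simp; omega)))
    · exact Submodule.mem_sup_left (Submodule.mem_sup_right
        (key (n₁, 0) (n.1 - n₁) n.2 (by omega) hb (by simp; omega) (by simp)))
    · exact Submodule.mem_sup_right (Submodule.mem_sup_right
        (key (n₁, n₂) (n.1 - n₁) (n.2 - n₂) (by omega) (by omega) (by simp; omega) (by simp; omega)))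
  refine (Submodule.finrank_mono hle).trans ?_
  have h3 : ∀ t, finrank Ω (V.map (D t)) ≤ finrank Ω V := fun t => Submodule.finrank_map_le _ _
  have h4 := Submodule.finrank_add_le_finrank_add_finrank (V.map (D (0, 0)) ⊔ V.map (D (n₁, 0)))
    (V.map (D (0, n₂)) ⊔ V.map (D (n₁, n₂)))
  have h5 := Submodule.finrank_add_le_finrank_add_finrank (V.map (D (0, 0))) (V.map (D (n₁, 0)))
  have h6 := Submodule.finrank_add_le_finrank_add_finrank (V.map (D (0, n₂))) (V.map (D (n₁, n₂)))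
  have := h3 (0, 0)
  have := h3 (n₁, 0)
  have := h3 (0, n₂)
  have := h3 (n₁, n₂)
  omega

end Pool.Agent.H54.AD
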