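import Pool.Agent.H54.AD.Defs

set_option autoImplicit false

/-! Project AD, part IND (helper36) -/

namespace Pool.Agent.H54.AD

open Finset Module

namespace IndAux

variable {Ω : Type} [Field Ω] {ι : Type}

/-- the value of a polynomial through its coefficients -/
theorem ev_sum (G : PP Ω) (a b : ℕ) (h : BiDeg G a b) (u v : Ω) :
    ev (RingHom.id Ω) u v G =
      ∑ j ∈ range (b + 1), (∑ i ∈ range (a + 1), (G.coeff j).coeff i * u ^ i) * v ^ j := by
  unfold ev
  rw [Polynomial.eval₂_eq_sum_range' _ (Nat.lt_succ_of_le h.1)]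
  refine sum_congr rfl fun j _ => ?_
  congr 1
  rw [Polynomial.coe_eval₂RingHom, Polynomial.eval₂_eq_sum_range' _ (Nat.lt_succ_of_le (h.2 j))]
  rfl

/-- a basis of the span of the rows of a finite set of points -/
theorem basis (n₁ n₂ : ℕ) (u v : ι → Ω) (S : Set ι) (hS : S.Finite) :
    ∃ R : Finset ι, (∀ x ∈ R, x ∈ S) ∧ R.card = rk n₁ n₂ u v S ∧
      LinearIndependent Ω (fun x : R => row n₁ n₂ (u x) (v x)) := by
  classical
  obtain ⟨b, hbS, -, hb2, hb3⟩ := exists_linearIndepOn_extension (K := Ω)
    (v := fun x => row n₁ n₂ (u x) (v x)) (linearIndepOn_empty Ω _) (Set.empty_subset S)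
  have hbf : b.Finite := hS.subset hbS
  have : Fintype b := hbf.fintype
  refine ⟨hbf.toFinset, fun x hx => hbS (hbf.mem_toFinset.1 hx), ?_, ?_⟩
  · have h1 := finrank_span_eq_card (R := Ω) hb3
    have h2 : Submodule.span Ω (Set.range fun x : b => row n₁ n₂ (u x) (v x)) =
        Submodule.span Ω ((fun x => row n₁ n₂ (u x) (v x)) '' S) := by
      have h3 : Set.range (fun x : b => row n₁ n₂ (u x) (v x)) =
          (fun x => row n₁ n₂ (u x) (v x)) '' b := by
        rw [Set.image_eq_range]
      rw [h3]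
      apply le_antisymm
      · exact Submodule.span_mono (Set.image_mono hbS)
      · exact Submodule.span_le.2 hb2
    rw [h2] at h1
    unfold rk
    rw [h1, Set.Finite.card_toFinset]
  · let e : hbf.toFinset ≃ b := Equiv.subtypeEquivRight fun x => hbf.mem_toFinset
    exact hb3.comp e e.injective

end IndAux

open IndAux in
theorem ind : S_IND := by
  classical
  intro Ω _ ι L N₁ N₂ d₁ d₂ u v S G hS hG hd1 hd2 h0 hne
  choose R hR1 hR2 hR3 using fun i => basis (N₁ - d₁) (N₂ - d₂) u v (S i) (hS i)
  refine ⟨R, hR1, hR2, ?_⟩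
  rw [Fintype.linearIndependent_iff]
  intro c hc
  -- the relations for the products with `G i`
  have hrel : ∀ (i : Fin L) (m : Fin (N₁ - d₁) × Fin (N₂ - d₂)),
      ∑ x : (Σ l, R l), c x * (ev (RingHom.id Ω) (u x.2) (v x.2) (G i) *
        (u x.2 ^ (m.1 : ℕ) * v x.2 ^ (m.2 : ℕ))) = 0 := by
    intro i m
    have h1 : ∀ (a b : ℕ), a < N₁ → b < N₂ →
        ∑ x : (Σ l, R l), c x * (u x.2 ^ a * v x.2 ^ b) = 0 := by
      intro a b ha hb
      have h2 := congrFun hc (⟨a, ha⟩, ⟨b, hb⟩)
      rw [Finset.sum_apply] at h2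
      simpa [row] using h2
    have h3 : ∑ x : (Σ l, R l), c x * (ev (RingHom.id Ω) (u x.2) (v x.2) (G i) *
        (u x.2 ^ (m.1 : ℕ) * v x.2 ^ (m.2 : ℕ))) =
        ∑ j ∈ range (d₂ + 1), ∑ k ∈ range (d₁ + 1), ((G i).coeff j).coeff k *
          ∑ x : (Σ l, R l), c x * (u x.2 ^ (k + (m.1 : ℕ)) * v x.2 ^ (j + (m.2 : ℕ))) := by
      simp only [ev_sum (G i) d₁ d₂ (hG i), mul_sum, sum_mul]
      rw [sum_comm]
      refine sum_congr rfl fun j _ => ?_
      rw [sum_comm]
      refine sum_congr rfl fun k _ => ?_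
      refine sum_congr rfl fun x _ => ?_
      rw [pow_add, pow_add]
      ring
    rw [h3]
    refine sum_eq_zero fun j hj => sum_eq_zero fun k hk => ?_
    rw [mem_range] at hj hk
    have hm1 := m.1.2
    have hm2 := m.2.2
    rw [h1 _ _ (by omega) (by omega), mul_zero]
  -- descending induction
  have key : ∀ n : ℕ, ∀ i : Fin L, L - (i : ℕ) ≤ n → ∀ x : R i, c ⟨i, x⟩ = 0 := by
    intro n
    induction n with
    | zero =>
      intro i hi
      have := i.2
      omega
    | succ n ih =>
      intro i hi x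
      have hsum : ∑ y : R i, (c ⟨i, y⟩ * ev (RingHom.id Ω) (u y) (v y) (G i)) •
          row (N₁ - d₁) (N₂ - d₂) (u y) (v y) = 0 := by
        funext m
        have h1 := hrel i m
        rw [Fintype.sum_sigma, sum_eq_single i] at h1
        · rw [Finset.sum_apply]
          simp only [Pi.smul_apply, smul_eq_mul, row, Pi.zero_apply]
          rw [← h1]
          refine sum_congr rfl fun y _ => ?_
          ring
        · intro l _ hl
          refine sum_eq_zero fun y _ => ?_
          dsimp only
          rcases lt_or_gt_of_ne hl with h | h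
          · rw [h0 i l h y (hR1 l y y.2), zero_mul, mul_zero]
          · rw [ih l (by
              have h2 : (i : ℕ) < (l : ℕ) := h
              have := l.2
              omega) y, zero_mul]
        · intro h
          exact absurd (mem_univ i) h
      have h2 := Fintype.linearIndependent_iff.1 (hR3 i) _ hsum x
      rcases mul_eq_zero.1 h2 with h | h
      · exact h
      · exact absurd h (hne i x (hR1 i x x.2))
  intro x
  exact key (L - (x.1 : ℕ)) x.1 le_rfl x.2

end Pool.Agent.H54.AD
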