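import Mathlib
import Pool.Agent.H54.AD.Lem
import Pool.Agent.H54.RX.F11

set_option autoImplicit false
set_option linter.unusedVariables false

/-!
# Heights relative to the division group of one element
-/

namespace Pool.Agent.H54.AD

open Polynomial IntermediateField
open Pool.Agent.W237.RK
open Pool.Agent.H58P (Qb ht)
open Pool.Agent.H58B (ht_pow)
open Pool.Agent.H58R (ht_nonneg ht_mul_le ht_inv ht_zpow)
open Pool.Agent.W402.RK (bot_mem fg_bot root_mul_mem comm_lev iterate_CS)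
open Pool.Agent.W669.RK (tor_of_ht_zero)
open Pool.Agent.H54.RX

lemma norm_le_one_of_int (p : ℕ) [Fact p.Prime] (φ : Qb →+* PadicAlgCl p) {x : Qb}
    (hx : IsIntegral ℤ x) : ‖φ x‖ ≤ 1 := by
  have h1 : IsIntegral ℤ (φ x) := map_isIntegral_int φ hx
  have h2 : φ x ∈ (NormedField.valuation (K := PadicAlgCl p)).integer := by
    apply Valuation.Integers.mem_of_integral (Valuation.integer.integers _)
    exact h1.tower_top
  have h3 : NormedField.valuation (φ x) ≤ 1 := h2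
  exact h3

/-- a prime at which `g` is a unit -/
lemma exists_unit_prime (g : Qb) (hg : g ≠ 0) : ∃ (p : ℕ) (_ : Fact p.Prime),
    ∀ φ : Qb →+* PadicAlgCl p, ‖φ g‖ = 1 := by
  have key : ∀ x : Qb, ∃ d : ℤ, d ≠ 0 ∧ IsIntegral ℤ ((d : Qb) * x) := by
    intro x
    have h1 : IsAlgebraic ℤ x := by
      have h2 : IsAlgebraic ℚ x := Algebra.IsAlgebraic.isAlgebraic x
      exact (IsFractionRing.isAlgebraic_iff ℤ ℚ Qb).mpr h2
    obtain ⟨y, hy, h⟩ := h1.exists_integral_multiple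
    refine ⟨y, hy, ?_⟩
    rw [zsmul_eq_mul] at h
    exact h
  obtain ⟨d₁, hd₁, h1⟩ := key g
  obtain ⟨d₂, hd₂, h2⟩ := key g⁻¹
  obtain ⟨p, hple, hp⟩ := Nat.exists_infinite_primes (d₁.natAbs * d₂.natAbs + 1)
  have : Fact p.Prime := ⟨hp⟩
  refine ⟨p, ⟨hp⟩, fun φ => ?_⟩
  have hd : ∀ d : ℤ, d ≠ 0 → d.natAbs < p → ‖φ (d : Qb)‖ = 1 := by
    intro d hd0 hdp
    have e1 : φ (d : Qb) = algebraMap ℚ_[p] (PadicAlgCl p) (d : ℚ_[p]) := by
      rw [map_intCast, map_intCast]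
    rw [e1, PadicAlgCl.norm_extends]
    apply le_antisymm (Padic.norm_int_le_one d)
    by_contra hlt
    push Not at hlt
    rw [Padic.norm_intCast_lt_one_iff] at hlt
    have := Int.le_of_dvd (abs_pos.mpr hd0) ((dvd_abs _ _).mpr hlt)
    rw [Int.abs_eq_natAbs] at this
    omega
  have hn1 : 0 < d₁.natAbs := Int.natAbs_pos.mpr hd₁
  have hn2 : 0 < d₂.natAbs := Int.natAbs_pos.mpr hd₂
  have hl1 : d₁.natAbs < p := by nlinarith
  have hl2 : d₂.natAbs < p := by nlinarith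
  have h3 := norm_le_one_of_int p φ h1
  have h4 := norm_le_one_of_int p φ h2
  rw [map_mul, norm_mul, hd d₁ hd₁ hl1, one_mul] at h3
  rw [map_mul, norm_mul, hd d₂ hd₂ hl2, one_mul, map_inv₀, _root_.norm_inv] at h4
  have h5 : 0 < ‖φ g‖ := norm_pos_iff.mpr ((map_ne_zero φ).mpr hg)
  apply le_antisymm h3
  rw [← inv_inv ‖φ g‖]
  exact (one_le_inv₀ (by positivity)).mpr h4

lemma exists_emb (p : ℕ) [Fact p.Prime] : Nonempty (Qb →+* PadicAlgCl p) := by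
  have : CharZero (PadicAlgCl p) := inferInstance
  let _ : Algebra ℚ (PadicAlgCl p) := DivisionRing.toRatAlgebra
  exact ⟨((IsAlgClosed.lift : Qb →ₐ[ℚ] PadicAlgCl p) : Qb →+* PadicAlgCl p)⟩

lemma divG_zpow {Γ : Subgroup Qbˣ} {x : Qb} (h : DivG Γ x) (b : ℤ) : DivG Γ (x ^ b) := by
  obtain ⟨n, hn, g, hg, h⟩ := h
  refine ⟨n, hn, g ^ b, zpow_mem hg b, ?_⟩
  rw [← zpow_natCast, ← zpow_mul, mul_comm, zpow_mul, zpow_natCast, h, Units.val_zpow_eq_zpow_val]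

lemma divG_of_zpow {Γ : Subgroup Qbˣ} {x : Qb} {b : ℤ} (hb : b ≠ 0) (h : DivG Γ (x ^ b)) :
    DivG Γ x := by
  rcases Int.natAbs_eq b with hb' | hb'
  · rw [hb', zpow_natCast] at h
    exact Pool.Agent.TH53.RP.DivG.of_pow (Int.natAbs_pos.mpr hb) h
  · rw [hb', zpow_neg, zpow_natCast] at h
    have h1 := divG_inv h
    rw [inv_inv] at h1
    exact Pool.Agent.TH53.RP.DivG.of_pow (Int.natAbs_pos.mpr hb) h1

lemma ht_ne_zero_of_not_tor {x : Qb} (hx : x ≠ 0) (h : ¬ Tor x) : 0 < ht x := by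
  rcases (ht_nonneg x).lt_or_eq with h1 | h1
  · exact h1
  · exact absurd (tor_of_ht_zero x hx h1.symm) h

theorem star : S_TWO → S_AD2 → S_CS3 → S_FROB → S_BOG3 → S_STAR := by
  intro hTWO hAD hCS hFROB hBOG K g hK hgK ε hε
  have hg0 : (g : Qb) ≠ 0 := g.ne_zero
  set Γ : Subgroup Qbˣ := Subgroup.zpowers g with hΓdef
  have hΓ : ∀ x ∈ Γ, (x : Qb) ∈ K := by
    rintro _ ⟨k, rfl⟩
    show ((g ^ k : Qbˣ) : Qb) ∈ K
    rw [Units.val_zpow_eq_zpow_val]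
    exact zpow_mem hgK k
  by_cases hgT : Tor (g : Qb)
  · -- the torsion case
    obtain ⟨c, hc, h⟩ := hBOG K hK ε hε
    refine ⟨c, hc, fun D hD0 β δ hβ0 hβD hδ hβ => ?_⟩
    have htor : ∀ x : Qb, DivG Γ x → Tor x := by
      rintro x ⟨n, hn, y, ⟨k, hk⟩, hx⟩
      have hk' : g ^ k = y := hk
      rw [← hk', Units.val_zpow_eq_zpow_val] at hx
      apply Tor.of_pow hn
      rw [hx]
      exact tor_zpow hgT k
    have hβT : ¬ Tor β := fun hT => hβ (divG_tor Γ hT)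
    have h1 := h D hD0 β hβ0 hβD hβT
    have e1 : β / δ = δ⁻¹ * β := by rw [div_eq_mul_inv, mul_comm]
    rw [e1, ht_tor_mul (htor δ hδ).inv]
    exact h1
  -- the main case
  obtain ⟨p, hpf, hφ⟩ := exists_unit_prime (g : Qb) hg0
  have hp : p.Prime := hpf.out
  obtain ⟨φ⟩ := exists_emb p
  have hφg : ‖φ (g : Qb)‖ = 1 := hφ φ
  obtain ⟨B, C₁, hC₁, h1'⟩ := hCS p φ K ⊥ ε hε hK fg_bot (bot_mem K)
  set K' := lev K ⊥ (p ^ B) 1 with hK'
  have hK'fd : FiniteDimensional ℚ K' :=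
    finiteDimensional_lev K hK ⊥ fg_bot (p ^ B) 1 (pow_pos hp.pos B) one_pos
  obtain ⟨n₁, h2⟩ := hFROB p φ K' hK'fd
  obtain ⟨cA, hcA, h3'⟩ := hAD p φ (Module.finrank ℚ K') n₁ ε hε
  set H : ℝ := ht (g : Qb) with hH
  have hH0 : 0 < H := ht_ne_zero_of_not_tor hg0 hgT
  set C₀ : ℝ := min (C₁ / 2) (cA / (4 * H)) with hC₀
  have hC₀pos : 0 < C₀ := lt_min (by positivity) (by positivity)
  refine ⟨C₀, hC₀pos, fun D hD0 y δ hy0 hyD hδ hy => ?_⟩
  change lowr C₀ ε D ≤ ht (y / δ)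
  by_contra hlt
  push Not at hlt
  apply hy
  have hδ0 : δ ≠ 0 := Pool.Agent.TH53.RP.DivG.ne_zero hδ
  obtain ⟨e, he0, heT, heD⟩ := torRigid_split (Finf := kinf K) (fun x hx => tor_mem_kinf K hx)
    hy0
  set y₁ := y ^ e with hy₁
  have hy₁0 : y₁ ≠ 0 := pow_ne_zero _ hy0
  set δ₁ := δ ^ e with hδ₁
  have hδ₁0 : δ₁ ≠ 0 := pow_ne_zero _ hδ0
  have hδ₁d : DivG Γ δ₁ := divG_pow hδ e
  set Finf := kinf K with hFinf
  set D₁ : ℕ := (orb Finf y₁).ncard with hD₁def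
  have hD₁pos : 0 < D₁ := orb_ncard_pos Finf y₁
  have hD₁R : (0 : ℝ) < D₁ := by exact_mod_cast hD₁pos
  have h1 := h1' D₁ hD₁pos
  set c₁ : ℝ := lowr C₁ ε D₁ with hc₁
  -- the height of `y₁ / δ₁`
  set η : ℝ := ht (y₁ / δ₁) with hη
  have hη0 : 0 ≤ η := ht_nonneg _
  have hηlt : η < lowr C₀ ε D₁ := by
    have e1 : y₁ / δ₁ = (y / δ) ^ e := by rw [hy₁, hδ₁, div_pow]
    rw [hη, e1, ht_pow]
    have h5 := lowr_split hC₀pos.le hε.le he0 hD₁pos (heD.trans hyD)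
    have he1 : (0 : ℝ) < e := by exact_mod_cast he0
    exact (mul_lt_mul_of_pos_left hlt he1).trans_le h5
  have hη1 : 2 * η < c₁ := by
    have h5 : lowr C₀ ε D₁ ≤ lowr (C₁ / 2) ε D₁ := lowr_mono (min_le_left _ _) D₁
    have h6 : lowr (C₁ / 2) ε D₁ = lowr C₁ ε D₁ / 2 := by
      unfold lowr
      ring
    rw [hc₁]
    linarith
  have hD₁ : (orb Finf y₁).ncard ≤ D₁ := le_rfl
  have hT₁ : TorRigid Finf y₁ := heT
  -- rigidity at a finite level
  have hlevInf : levInf K ⊥ 1 = Finf := by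
    apply le_antisymm
    · apply levInf_le (le_kinf K) (fun x hx => tor_mem_kinf K hx)
      rintro z ⟨g, hg, hz⟩
      rw [Subgroup.mem_bot] at hg
      rw [hg, Units.val_one, pow_one] at hz
      rw [hz]
      exact one_mem _
    · exact kinf_le_levInf K ⊥ 1
  have hR₀ : Rigid Finf (levInf K ⊥ 1) y₁ := by
    rw [hlevInf]
    exact fun κ hκ => ⟨κ, hκ, rfl⟩
  obtain ⟨N, hN, hRN⟩ := exists_rigid_lev Finf K ⊥ 1 y₁ hR₀
  obtain ⟨j, M', hM', hNj⟩ := Nat.exists_eq_pow_mul_and_not_dvd hN.ne' p hp.ne_one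
  have hRj : Rigid Finf (lev K ⊥ (p ^ (B + j) * M') 1) y₁ := by
    apply rigid_mono _ hRN
    apply lev_mono K ⊥ _ one_pos (dvd_refl 1)
    rw [hNj, pow_add, mul_assoc]
    exact Dvd.intro_left _ rfl
  have hM'0 : 0 < M' := by
    rcases Nat.eq_zero_or_pos M' with h | h
    · exact absurd (h ▸ dvd_zero p) hM'
    · exact h
  -- the levels are inside `Finf`
  have hle : ∀ N : ℕ, 0 < N → lev K ⊥ N 1 ≤ Finf := by
    intro N hN
    rw [← hlevInf]
    exact lev_le_levInf K ⊥ hN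
  obtain ⟨γ, hγ, hRγ⟩ := iterate_CS p K Finf D₁ B c₁ M' le_rfl
    (by
      intro i β hi hβ0 hβD hβT hβR hβh
      have := h1 Finf i 0 1 M' β (by omega) (fun h => hp.one_lt.ne' (Nat.dvd_one.mp h)) hM' le_rfl
        (by
          rw [pow_zero, one_mul]
          exact hle _ (Nat.mul_pos (pow_pos hp.pos i) hM'0)) (normal_kinf K) hβ0 hβD hβT
        (by rw [pow_zero, one_mul]; exact hβR) hβh
      rw [pow_zero, one_mul] at this
      exact this)
    j y₁ hy₁0 hD₁ hT₁ hRj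
    (by
      intro σ hσ
      have hq0 : y₁ / δ₁ ≠ 0 := div_ne_zero hy₁0 hδ₁0
      rw [← ht_div hδ₁0 (tor_ratio hΓ hδ₁0 hδ₁d hσ)]
      have a1 : ht (σ (y₁ / δ₁) / (y₁ / δ₁)) ≤ ht (σ (y₁ / δ₁)) + ht (y₁ / δ₁)⁻¹ := by
        rw [div_eq_mul_inv (σ (y₁ / δ₁))]
        exact ht_mul_le _ _
      rw [ht_inv _ hq0, Pool.Agent.H58B.ht_conj] at a1
      linarith)
  have hγ0 := hγ.ne_zero
  have hγm : γ ∈ Finf := tor_mem_kinf K hγ
  set β := y₁ / γ with hβ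
  have hβ0 : β ≠ 0 := div_ne_zero hy₁0 hγ0
  obtain ⟨M'', σ, a, hM'', hdvd, hσ, ha0, ha1, hσζ, hσx⟩ := h2 M' hM'
  have hM''0 : 0 < M'' := by
    rcases Nat.eq_zero_or_pos M'' with h | h
    · exact absurd (h ▸ dvd_zero p) hM''
    · exact h
  set E := lev K' ⊥ M'' 1 with hE
  have hKK' : K ≤ K' := le_lev K ⊥ _ _
  have hEfin : E ≤ Finf := by
    apply lev_le
    · exact hle _ (pow_pos hp.pos B)
    · intro x hx
      exact tor_mem_kinf K ⟨M'', hM''0, hx⟩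
    · rintro z ⟨g, hg, hz⟩
      rw [Subgroup.mem_bot] at hg
      rw [hg, Units.val_one, pow_one] at hz
      rw [hz]
      exact one_mem _
  have hlevE : lev K ⊥ (p ^ B * M') 1 ≤ E := by
    apply lev_le
    · exact hKK'.trans (le_lev K' ⊥ _ _)
    · intro x hx
      apply root_mul_mem (a := p ^ B) (b := M') _ _ _ x hx
      · exact Nat.Coprime.pow_left B ((Nat.Prime.coprime_iff_not_dvd hp).mpr hM')
      · intro x hx
        exact le_lev K' ⊥ _ _ (root_mem_lev K ⊥ hx)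
      · intro x hx
        apply root_mem_lev
        obtain ⟨k, rfl⟩ := hdvd
        rw [pow_mul, hx, one_pow]
    · rintro z ⟨g, hg, hz⟩
      rw [Subgroup.mem_bot] at hg
      rw [hg, Units.val_one, pow_one] at hz
      rw [hz]
      exact one_mem _
  have hRE : Rigid Finf E β := rigid_mono hlevE hRγ
  have horb : orb E β = orb Finf β := orb_eq_of_rigid hEfin hRE
  have hβD : (orb E β).ncard ≤ D₁ := by
    rw [horb, hβ, orb_div_ncard hγ0 hγm]
  have hEfd : FiniteDimensional ℚ E :=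
    finiteDimensional_lev K' hK'fd ⊥ fg_bot M'' 1 hM''0 one_pos
  have hβTR : TorRigid E β := torRigid_of (torRigid_div hT₁ hγ0 hγm) hRE
  -- `β` is in the division group iff `y` is
  have hback : DivG Γ β → DivG Γ y := by
    intro h
    have e1 : y₁ = β * γ := by rw [hβ, div_mul_cancel₀ _ hγ0]
    apply Pool.Agent.TH53.RP.DivG.of_pow he0
    rw [← hy₁, e1]
    exact h.mul (divG_tor Γ hγ)
  by_contra hynd
  have hβnd : ¬ DivG Γ β := fun h => hynd (hback h)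
  -- the height of `β / δ₁`
  have hηβ : ht (β / δ₁) = η := by
    have e1 : β / δ₁ = γ⁻¹ * (y₁ / δ₁) := by
      rw [hβ]
      field_simp
    rw [e1, ht_tor_mul hγ.inv]
  have hηpos : 0 < η := by
    rcases hη0.lt_or_eq with h | h
    · exact h
    · exfalso
      apply hβnd
      have h5 : Tor (β / δ₁) :=
        tor_of_ht_zero _ (div_ne_zero hβ0 hδ₁0) (by rw [hηβ]; exact h.symm)
      have e1 : β = (β / δ₁) * δ₁ := by rw [div_mul_cancel₀ _ hδ₁0]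
      rw [e1]
      exact (divG_tor Γ h5).mul hδ₁d
  obtain ⟨n, hn0, x, ⟨k, hk⟩, hδn⟩ := id hδ₁d
  have hk' : g ^ k = x := hk
  have hδn' : δ₁ ^ n = (g : Qb) ^ k := by
    rw [hδn, ← hk', Units.val_zpow_eq_zpow_val]
  have hnR : (0 : ℝ) < n := by exact_mod_cast hn0
  obtain ⟨a₁, b₁, a₂, b₂, hdet, hprod⟩ := hTWO ((k : ℝ) / n) H η hH0 hηpos
  -- the heights of the two monomials
  have hhtm : ∀ s t : ℤ, ht (β ^ s * (g : Qb) ^ (-t)) ≤
      |(s : ℝ)| * η + |s * ((k : ℝ) / n) - t| * H := by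
    intro s t
    have e1 : β ^ s * (g : Qb) ^ (-t) = (β / δ₁) ^ s * (δ₁ ^ s * (g : Qb) ^ (-t)) := by
      rw [← mul_assoc, ← mul_zpow, div_mul_cancel₀ _ hδ₁0]
    have e2 : (δ₁ ^ s * (g : Qb) ^ (-t)) ^ n = (g : Qb) ^ (k * s - t * n) := by
      rw [mul_pow, ← zpow_natCast (δ₁ ^ s), ← zpow_mul, mul_comm s, zpow_mul, zpow_natCast, hδn',
        ← zpow_mul, ← zpow_natCast ((g : Qb) ^ (-t)), ← zpow_mul, ← zpow_add₀ hg0]
      congr 1
      ring
    have e3 : (n : ℝ) * ht (δ₁ ^ s * (g : Qb) ^ (-t)) = |((k * s - t * n : ℤ) : ℝ)| * H := by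
      rw [← ht_pow, e2, ht_zpow _ hg0]
    have e4 : ht (δ₁ ^ s * (g : Qb) ^ (-t)) = |s * ((k : ℝ) / n) - t| * H := by
      have e5 : (s : ℝ) * ((k : ℝ) / n) - t = ((k * s - t * n : ℤ) : ℝ) / n := by
        push_cast
        field_simp
      rw [e5, abs_div, abs_of_pos hnR]
      field_simp
      linarith
    calc ht (β ^ s * (g : Qb) ^ (-t)) = ht ((β / δ₁) ^ s * (δ₁ ^ s * (g : Qb) ^ (-t))) := by rw [e1]
      _ ≤ ht ((β / δ₁) ^ s) + ht (δ₁ ^ s * (g : Qb) ^ (-t)) := ht_mul_le _ _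
      _ = _ := by rw [ht_zpow _ (div_ne_zero hβ0 hδ₁0), hηβ, e4]
  -- independence
  have hind : Indep (β ^ a₁ * (g : Qb) ^ (-b₁)) (β ^ a₂ * (g : Qb) ^ (-b₂)) := by
    intro s t hT
    have e1 : (β ^ a₁ * (g : Qb) ^ (-b₁)) ^ s * (β ^ a₂ * (g : Qb) ^ (-b₂)) ^ t =
        β ^ (a₁ * s + a₂ * t) * (g : Qb) ^ (-(b₁ * s + b₂ * t)) := by
      rw [mul_zpow, mul_zpow, ← zpow_mul, ← zpow_mul, ← zpow_mul, ← zpow_mul, zpow_add₀ hβ0,
        mul_mul_mul_comm, ← zpow_add₀ hg0]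
      congr 2
      ring
    rw [e1] at hT
    have h5 : a₁ * s + a₂ * t = 0 := by
      by_contra hne
      apply hβnd
      apply divG_of_zpow hne
      have e2 : β ^ (a₁ * s + a₂ * t) =
          (β ^ (a₁ * s + a₂ * t) * (g : Qb) ^ (-(b₁ * s + b₂ * t))) *
            (g : Qb) ^ (b₁ * s + b₂ * t) := by
        rw [mul_assoc, ← zpow_add₀ hg0, neg_add_cancel, zpow_zero, mul_one]
      rw [e2]
      apply (divG_tor Γ hT).mul
      exact ⟨1, one_pos, g ^ (b₁ * s + b₂ * t), ⟨_, rfl⟩, by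
        rw [pow_one, Units.val_zpow_eq_zpow_val]⟩
    rw [h5, zpow_zero, one_mul] at hT
    have h6 : b₁ * s + b₂ * t = 0 := by
      by_contra hne
      exact hgT (tor_of_zpow (neg_ne_zero.mpr hne) hT)
    constructor
    · have : (a₁ * b₂ - a₂ * b₁) * s = 0 := by linear_combination b₂ * h5 - a₂ * h6
      rw [hdet, one_mul] at this
      exact this
    · have : (a₁ * b₂ - a₂ * b₁) * t = 0 := by linear_combination a₁ * h6 - b₁ * h5
      rw [hdet, one_mul] at this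
      exact this
  have hgK' : ∀ t : ℤ, (g : Qb) ^ (-t) ∈ K' := fun t => zpow_mem (hKK' hgK) _
  have hgn : ∀ t : ℤ, ‖φ ((g : Qb) ^ (-t))‖ = 1 := by
    intro t
    rw [map_zpow₀, norm_zpow, hφg, one_zpow]
  have hfin := h3' K' E σ a β ((g : Qb) ^ (-b₁)) ((g : Qb) ^ (-b₂)) a₁ a₂ hK'fd le_rfl hEfd
    (le_lev K' ⊥ _ _) (normal_lev K' ⊥ (bot_mem K') M'' 1) hσ
    (fun τ hτ => comm_lev K' M'' σ τ hσ hτ (p ^ a) hσζ) ha0 ha1 hσx hβ0 hβTR (hgK' _) (hgK' _)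
    (hgn _) (hgn _) hind
  have hh1 := hhtm a₁ b₁
  have hh2 := hhtm a₂ b₂
  have hle2 : ht (β ^ a₁ * (g : Qb) ^ (-b₁)) * ht (β ^ a₂ * (g : Qb) ^ (-b₂)) ≤ 4 * η * H :=
    (mul_le_mul hh1 hh2 (ht_nonneg _) ((ht_nonneg _).trans hh1)).trans hprod
  have horbpos : (0 : ℝ) < ((orb E β).ncard : ℝ) := by exact_mod_cast orb_pos E β
  have hmono : cA / (D₁ : ℝ) ^ (1 + ε) ≤ cA / ((orb E β).ncard : ℝ) ^ (1 + ε) := by
    apply div_le_div_of_nonneg_left hcA.le (by positivity)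
    apply Real.rpow_le_rpow horbpos.le _ (by linarith)
    exact_mod_cast hβD
  have hlow : lowr C₀ ε D₁ ≤ η := by
    have h5 : lowr C₀ ε D₁ ≤ lowr (cA / (4 * H)) ε D₁ := lowr_mono (min_le_right _ _) D₁
    refine h5.trans ?_
    unfold lowr
    have h6 : cA / (D₁ : ℝ) ^ (1 + ε) ≤ 4 * η * H := hmono.trans (hfin.trans hle2)
    have h7 : cA / (4 * H) / (D₁ : ℝ) ^ (1 + ε) = cA / (D₁ : ℝ) ^ (1 + ε) / (4 * H) := by
      rw [div_div, div_div, mul_comm]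
    rw [h7, div_le_iff₀ (by positivity)]
    linarith
  exact absurd hηlt (not_lt.mpr hlow)

end Pool.Agent.H54.AD
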