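import Mathlib
import Pool.Agent.H54.AD.Star

set_option autoImplicit false
set_option linter.unusedVariables false

/-!
# The main theorem for the division group of one element
-/

namespace Pool.Agent.H54.AD

open Polynomial IntermediateField
open Pool.Agent.W237.RK
open Pool.Agent.H58P (Qb ht)
open Pool.Agent.H58B (ht_pow)
open Pool.Agent.H58R (ht_nonneg ht_mul_le ht_inv ht_zpow)
open Pool.Agent.H54.RX

theorem main4 : S_CS3 → S_KS3 → S_STAR → S_MAIN4 := by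
  intro hCS hKS hSTAR K g hKfd hgK P hP ε hε
  classical
  set Γ : Subgroup Qbˣ := Subgroup.zpowers g with hΓdef
  have hΓ : ∀ x ∈ Γ, (x : Qb) ∈ K := by
    rintro _ ⟨k, rfl⟩
    show ((g ^ k : Qbˣ) : Qb) ∈ K
    rw [Units.val_zpow_eq_zpow_val]
    exact zpow_mem hgK k
  have hΓfg : Γ.FG := ⟨{g}, by rw [Finset.coe_singleton, hΓdef, Subgroup.zpowers_eq_closure]⟩
  -- constants for the primes of `P`
  have hdes : ∀ p : ℕ, ∃ (n₀ : ℕ) (c : ℝ), 0 < c ∧ 0 < n₀ ∧ (p ∈ P → ∀ D : ℕ, 0 < D →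
      ∀ (Finf : GF) (n M : ℕ)
      (β : Qb), n₀ ≤ n → ¬ p ∣ M → levInf K Γ (p ^ n * M) ≤ Finf → NormalOver K Finf →
      Good K Finf D (lowr c ε D) β → Rigid Finf (levInf K Γ (p ^ n * M)) β →
      ∃ γ : Qb, γ ≠ 0 ∧ DivG Γ γ ∧ γ ∈ Finf ∧
        Rigid Finf (levInf K Γ (p ^ (n - 1) * M)) (β / γ)) := by
    intro p
    by_cases hpP : p ∈ P
    · obtain ⟨n₀, c, hc, hn, h⟩ := descend3 hCS hKS p (hP p hpP) K Γ ε hε hKfd hΓfg hΓ
      exact ⟨n₀, c, hc, hn, fun _ => h⟩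
    · exact ⟨1, 1, one_pos, one_pos, fun h => absurd h hpP⟩
  choose n₀ Cp hCp hn₀ hstep using hdes
  set C₀ : ℝ := (1 + ∑ p ∈ P, (Cp p)⁻¹)⁻¹ with hC₀
  have hsum0 : 0 ≤ ∑ p ∈ P, (Cp p)⁻¹ := Finset.sum_nonneg fun p _ => (inv_pos.mpr (hCp p)).le
  have hC₀pos : 0 < C₀ := by
    rw [hC₀]
    positivity
  have hC₀P : ∀ p ∈ P, C₀ ≤ Cp p := by
    intro p hp
    have h1 : (Cp p)⁻¹ ≤ ∑ p ∈ P, (Cp p)⁻¹ :=
      Finset.single_le_sum (f := fun p => (Cp p)⁻¹) (fun p _ => (inv_pos.mpr (hCp p)).le) hp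
    rw [hC₀, ← inv_inv (Cp p)]
    apply inv_anti₀ (inv_pos.mpr (hCp p))
    linarith
  -- the bottom level
  set R₀ : ℕ := ∏ p ∈ P, p ^ n₀ p with hR₀
  have hR₀pos : 0 < R₀ := Finset.prod_pos fun p hp => pow_pos (hP p hp).pos _
  have hR₀s : Smooth P R₀ := by
    refine ⟨hR₀pos, fun q hq hqR => ?_⟩
    obtain ⟨p, hp, hqp⟩ := (Prime.dvd_finsetProd_iff hq.prime _).mp hqR
    have h1 := hq.dvd_of_dvd_pow hqp
    rw [(Nat.prime_dvd_prime_iff_eq hq (hP p hp)).mp h1]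
    exact hp
  set K₁ : GF := lev K Γ R₀ R₀ with hK₁
  have hK₁fd : FiniteDimensional ℚ K₁ := finiteDimensional_lev K hKfd Γ hΓfg R₀ R₀ hR₀pos hR₀pos
  have hKK₁ : K ≤ K₁ := le_lev K Γ _ _
  obtain ⟨CS, hCS0, hStar⟩ := hSTAR K₁ g hK₁fd (hKK₁ hgK) ε hε
  -- the constant
  set C : ℝ := min (C₀ / 2) CS with hC
  have hCpos : 0 < C := lt_min (by positivity) hCS0
  have hC1 : C ≤ C₀ / 2 := min_le_left _ _
  have hC2 : C ≤ CS := min_le_right _ _
  refine ⟨C, hCpos, fun D D' m hD0 hD'0 hm0 => ?_⟩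
  intro α hα hD hD' hnd γ₀ hγ₀
  by_contra hlt
  push Not at hlt
  apply hnd
  have hγ₀0 : γ₀ ≠ 0 := Pool.Agent.TH53.RP.DivG.ne_zero hγ₀
  set Finf := fullField K Γ P with hFinf
  have hkinf : kinf K ≤ Finf := kinf_le_fullField K Γ P
  have htorF : ∀ x : Qb, Tor x → x ∈ Finf := fun x hx => hkinf (tor_mem_kinf K hx)
  have hnorm : NormalOver K Finf := normal_fullField K Γ hΓ P
  obtain ⟨e, he0, heT, heD⟩ := torRigid_split (Finf := Finf) htorF hα
  have heR : (0 : ℝ) < e := by exact_mod_cast he0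
  set x₀ : Qb := α / γ₀ with hx₀
  have hhx := ht_nonneg x₀
  set α₁ := α ^ e with hα₁
  have hα₁0 : α₁ ≠ 0 := pow_ne_zero _ hα
  set g₁ := γ₀ ^ e with hg₁
  have hg₁0 : g₁ ≠ 0 := pow_ne_zero _ hγ₀0
  have hg₁d : DivG Γ g₁ := divG_pow hγ₀ e
  have hquot : α₁ / g₁ = x₀ ^ e := by rw [hα₁, hg₁, ← div_pow]
  set D₁ : ℕ := (orb Finf α₁).ncard with hD₁
  have hD₁pos : 0 < D₁ := orb_ncard_pos Finf α₁
  have hD₁R : (1 : ℝ) ≤ D₁ := by exact_mod_cast hD₁pos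
  have heD' : e * D₁ ≤ D := heD.trans hD
  -- the bound for `e` times the height
  have hD₁D' : D₁ ≤ D' := by
    calc D₁ ≤ (orb Finf (α₁ ^ m)).ncard := orb_pow_ncard_le hα₁0 heT hm0
      _ = (orb Finf ((α ^ m) ^ e)).ncard := by rw [hα₁, ← pow_mul, ← pow_mul, mul_comm e m]
      _ ≤ (orb Finf (α ^ m)).ncard := orb_pow_ncard_ge Finf (α ^ m) e
      _ ≤ D' := hD'
  have heh : (e : ℝ) * ht x₀ < lowr C ε D₁ := by
    have hD1R : (0 : ℝ) < D₁ := by exact_mod_cast hD₁pos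
    have hDR : (0 : ℝ) < D := by exact_mod_cast hD0
    have hD'R : (0 : ℝ) < D' := by exact_mod_cast hD'0
    have h1 : (e : ℝ) * D₁ ≤ D := by exact_mod_cast heD'
    have h2 : (D₁ : ℝ) ≤ D' := by exact_mod_cast hD₁D'
    have h3 : (D₁ : ℝ) ^ ε ≤ (D' : ℝ) ^ ε := Real.rpow_le_rpow hD1R.le h2 hε.le
    have h4 : (0 : ℝ) < (D₁ : ℝ) ^ ε := by positivity
    have h5 : (0 : ℝ) < (D' : ℝ) ^ ε := by positivity
    have h6 : (D₁ : ℝ) ^ (1 + ε) = D₁ * (D₁ : ℝ) ^ ε := by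
      rw [Real.rpow_add hD1R, Real.rpow_one]
    calc (e : ℝ) * ht x₀ < e * (C / (D * (D' : ℝ) ^ ε)) := mul_lt_mul_of_pos_left hlt heR
      _ ≤ lowr C ε D₁ := by
        unfold lowr
        rw [h6, ← mul_div_assoc, div_le_div_iff₀ (by positivity) (by positivity)]
        calc (e : ℝ) * C * (D₁ * (D₁ : ℝ) ^ ε)
            = C * ((e * D₁) * (D₁ : ℝ) ^ ε) := by ring
          _ ≤ C * (D * (D' : ℝ) ^ ε) := by gcongr
  have hlt1 : 2 * (e * ht x₀) ≤ lowr C₀ ε D₁ := by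
    have h2 : lowr C ε D₁ ≤ lowr (C₀ / 2) ε D₁ := lowr_mono hC1 D₁
    have h3 : lowr (C₀ / 2) ε D₁ = lowr C₀ ε D₁ / 2 := by
      unfold lowr
      ring
    linarith
  have hhσ : ∀ σ : Aut, Fix K σ → ht (σ α₁ / α₁) ≤ 2 * (e * ht x₀) := by
    intro σ hσ
    rw [← ht_div hg₁0 (tor_ratio hΓ hg₁0 hg₁d hσ), hquot]
    have hx0 : x₀ ^ e ≠ 0 := pow_ne_zero _ (div_ne_zero hα hγ₀0)
    have h1 := ht_mul_le (σ (x₀ ^ e)) (x₀ ^ e)⁻¹
    rw [ht_inv _ hx0, Pool.Agent.H58B.ht_conj, ← div_eq_mul_inv, ht_pow] at h1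
    linarith
  have hgood : Good K Finf D₁ (lowr C₀ ε D₁) α₁ :=
    { ne := hα₁0
      orb := le_rfl
      tor := heT
      ht := fun σ hσ => (hhσ σ hσ).trans hlt1 }
  -- a minimal level
  have hex : ∃ R : ℕ, Smooth P R ∧ ∃ γ : Qb, γ ≠ 0 ∧ DivG Γ γ ∧ γ ∈ Finf ∧
      Rigid Finf (levInf K Γ R) (α₁ / γ) := by
    obtain ⟨R, hR, hr⟩ := exists_rigid_levInf K Γ P α₁
    exact ⟨R, hR, 1, one_ne_zero, divG_tor Γ tor_one, one_mem _, by rw [div_one]; exact hr⟩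
  obtain ⟨hRs, γ, hγ0, hγd, hγF, hγr⟩ := Nat.find_spec hex
  set R := Nat.find hex with hRdef
  have hRdvd : R ∣ R₀ := by
    have hval : ∀ p ∈ P, R.factorization p < n₀ p := by
      intro p hpP
      by_contra hcon
      push Not at hcon
      have hp := hP p hpP
      obtain ⟨n, M, hM, hRn⟩ := Nat.exists_eq_pow_mul_and_not_dvd hRs.1.ne' p hp.ne_one
      have hn : R.factorization p = n := by
        rw [hRn, Nat.factorization_mul (pow_ne_zero _ hp.ne_zero)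
          (by rintro rfl; exact hM (dvd_zero p)), Finsupp.add_apply, hp.factorization_pow,
          Finsupp.single_eq_same, Nat.factorization_eq_zero_of_not_dvd hM, Nat.add_zero]
      rw [hn] at hcon
      have hg : Good K Finf D₁ (lowr (Cp p) ε D₁) (α₁ / γ) :=
        (hgood.div hΓ hγ0 hγF hγd).mono (lowr_mono (hC₀P p hpP) D₁)
      have hle : levInf K Γ (p ^ n * M) ≤ Finf := by
        rw [← hRn]
        exact levInf_le_fullField K Γ hRs
      obtain ⟨γ', hγ'0, hγ'd, hγ'F, hγ'r⟩ := hstep p hpP D₁ hD₁pos Finf n M (α₁ / γ) hcon hM hle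
        hnorm hg (by rw [← hRn]; exact hγr)
      have hnpos : 0 < n := lt_of_lt_of_le (hn₀ p) hcon
      have hMpos : 0 < M := Nat.pos_of_ne_zero (by rintro rfl; exact hM (dvd_zero p))
      have hlt' : p ^ (n - 1) * M < R := by
        rw [hRn]
        apply Nat.mul_lt_mul_of_pos_right _ hMpos
        exact Nat.pow_lt_pow_right hp.one_lt (by omega)
      apply Nat.find_min hex hlt'
      refine ⟨hRs.of_dvd ?_, γ * γ', mul_ne_zero hγ0 hγ'0, hγd.mul hγ'd, mul_mem hγF hγ'F, ?_⟩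
      · rw [hRn]
        exact Nat.mul_dvd_mul_right (pow_dvd_pow p (by omega)) M
      · rw [← div_div]
        exact hγ'r
    rw [← Nat.factorization_le_iff_dvd hRs.1.ne' hR₀pos.ne']
    intro q
    by_cases hq : q ∈ P
    · have h1 : q ^ n₀ q ∣ R₀ := Finset.dvd_prod_of_mem _ hq
      have h2 : n₀ q ≤ R₀.factorization q :=
        ((hP q hq).pow_dvd_iff_le_factorization hR₀pos.ne').mp h1
      exact (hval q hq).le.trans h2
    · have h1 : R.factorization q = 0 := by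
        by_cases hqp : q.Prime
        · apply Nat.factorization_eq_zero_of_not_dvd
          intro h
          exact hq (hRs.2 q hqp h)
        · exact Nat.factorization_eq_zero_of_not_prime _ hqp
      rw [h1]
      exact Nat.zero_le _
  -- the conclusion
  have hle1 : levInf K Γ R ≤ kinf K₁ := by
    refine (levInf_mono K Γ hR₀pos hRdvd).trans (levInf_le ?_ ?_ ?_)
    · exact (le_lev K Γ R₀ R₀).trans (le_kinf K₁)
    · intro x hx
      exact tor_mem_kinf K₁ hx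
    · intro y hy
      exact le_kinf K₁ (rad_mem_lev K Γ hy)
  set β := α₁ / γ with hβ
  have hβ0 : β ≠ 0 := div_ne_zero hα₁0 hγ0
  have hgoodβ := hgood.div hΓ hγ0 hγF hγd
  have horb1 : (orb (kinf K₁) β).ncard ≤ (orb Finf β).ncard := by
    have h1 := orb_eq_of_rigid (levInf_le_fullField K Γ hRs) hγr
    calc (orb (kinf K₁) β).ncard ≤ (orb (levInf K Γ R) β).ncard :=
          Set.ncard_le_ncard (orb_mono hle1 _) (orb_finite _ _)
      _ = (orb Finf β).ncard := by rw [h1]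
  have horb : (orb (kinf K₁) β).ncard ≤ D₁ := horb1.trans hgoodβ.orb
  have hδd : DivG Γ (g₁ / γ) := by
    rw [div_eq_mul_inv]
    exact hg₁d.mul (divG_inv hγd)
  have hβdiv : DivG Γ β := by
    by_contra hcon
    have h1 := hStar D₁ hD₁pos β (g₁ / γ) hβ0 horb hδd hcon
    have e1 : β / (g₁ / γ) = x₀ ^ e := by
      rw [hβ, div_div_div_cancel_right₀ hγ0, hquot]
    rw [e1, ht_pow] at h1
    have h2 : lowr C ε D₁ ≤ lowr CS ε D₁ := lowr_mono hC2 D₁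
    have h3 : lowr CS ε D₁ = CS / (D₁ : ℝ) ^ (1 + ε) := rfl
    linarith
  have hα₁d : DivG Γ α₁ := by
    have h1 : α₁ = β * γ := by rw [hβ, div_mul_cancel₀ _ hγ0]
    rw [h1]
    exact hβdiv.mul hγd
  exact Pool.Agent.TH53.RP.DivG.of_pow he0 hα₁d

end Pool.Agent.H54.AD
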