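import Pool.Agent.H54.AD.Defs

set_option autoImplicit false

/-!
# Linearly independent rows have a nonzero minor
-/

namespace Pool.Agent.H54.AD

theorem min : S_MIN := by
  intro Ω _ ι κ _ _ _ A hA
  classical
  have h1 : (Matrix.of A).rank = Fintype.card ι := LinearIndependent.rank_matrix (M := Matrix.of A) hA
  have h2 : Submodule.span Ω (Set.range (Matrix.of A).col) = ⊤ := by
    apply Submodule.eq_top_of_finrank_eq
    rw [← Matrix.rank_eq_finrank_span_cols, h1, Module.finrank_fintype_fun_eq_card]
  obtain ⟨b, hb1, hb2, hb3⟩ := exists_linearIndependent Ω (Set.range (Matrix.of A).col)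
  rw [h2] at hb2
  have hli : LinearIndependent Ω (fun x : b => (x : ι → Ω)) := hb3
  have hsp : ⊤ ≤ Submodule.span Ω (Set.range (fun x : b => (x : ι → Ω))) := by
    rw [Subtype.range_coe, hb2]
  let B := Module.Basis.mk hli hsp
  haveI : Fintype b := FiniteDimensional.fintypeBasisIndex B
  have hcard : Fintype.card ι = Fintype.card b := by
    rw [← Module.finrank_fintype_fun_eq_card Ω (η := ι), Module.finrank_eq_card_basis B]
  obtain ⟨e⟩ : Nonempty (ι ≃ b) := Fintype.card_eq.1 hcard
  have hc : ∀ i : ι, ∃ k : κ, (Matrix.of A).col k = (e i : ι → Ω) := fun i => hb1 (e i).2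
  choose c hc using hc
  refine ⟨c, ?_⟩
  have h5 : LinearIndependent Ω (Matrix.of (fun i l => A i (c l))).col := by
    have h6 : (Matrix.of (fun i l => A i (c l))).col = fun l => ((e l : b) : ι → Ω) := by
      funext l
      rw [← hc l]
      rfl
    rw [h6]
    exact hli.comp e e.injective
  have h7 := Matrix.linearIndependent_cols_iff_isUnit.1 h5
  exact ((Matrix.isUnit_iff_isUnit_det _).1 h7).ne_zero

end Pool.Agent.H54.AD
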