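import Pool.Agent.H54.AD.Defs

set_option autoImplicit false

/-!
# The monomials at a point close to a finite set
-/

namespace Pool.Agent.H54.AD.Pad

open Polynomial Finset
open Pool.Agent.H54.AD

section gen

/-- the unit ball -/
def O (K : Type*) [NormedField K] [IsUltrametricDist K] : Subring K where
  carrier := {x | ‖x‖ ≤ 1}
  mul_mem' := by
    intro a b ha hb
    show ‖a * b‖ ≤ 1
    rw [norm_mul]
    exact mul_le_one₀ ha (norm_nonneg _) hb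
  one_mem' := by
    show ‖(1 : K)‖ ≤ 1
    simp
  add_mem' := by
    intro a b ha hb
    exact (IsUltrametricDist.norm_add_le_max a b).trans (max_le ha hb)
  zero_mem' := by
    show ‖(0 : K)‖ ≤ 1
    simp
  neg_mem' := by
    intro a ha
    show ‖-a‖ ≤ 1
    rwa [norm_neg]

variable {K : Type*} [NormedField K] [IsUltrametricDist K]

/-- division with remainder -/
theorem div_bound {ι : Type*} (Y : Finset ι) (x : ι → K) (hx : ∀ l ∈ Y, ‖x l‖ ≤ 1) (z : K)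
    (hz : ‖z‖ ≤ 1) (b T : ℕ) (ρ : ℝ) (hf : ∏ l ∈ Y, ‖z - x l‖ ≤ ρ) :
    ‖z ^ b - (X ^ b %ₘ (∏ l ∈ Y, (X - C (x l))) ^ T).eval z‖ ≤ ρ ^ T := by
  classical
  set x0 : ι → O K := fun l => if h : ‖x l‖ ≤ 1 then ⟨x l, h⟩ else 0 with hx0
  set f : K[X] := ∏ l ∈ Y, (X - C (x l)) with hfd
  set f0 : (O K)[X] := ∏ l ∈ Y, (X - C (x0 l)) with hf0
  have hmap : f0.map (O K).subtype = f := by
    rw [hf0, hfd, Polynomial.map_prod]
    refine Finset.prod_congr rfl fun l hl => ?_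
    rw [Polynomial.map_sub, Polynomial.map_X, Polynomial.map_C]
    congr 2
    simp only [hx0, dif_pos (hx l hl)]
    rfl
  have hm0 : (f0 ^ T).Monic := (monic_prod_of_monic _ _ fun l _ => monic_X_sub_C _).pow _
  have hq : (X ^ b : K[X]) /ₘ f ^ T = ((X ^ b : (O K)[X]) /ₘ f0 ^ T).map (O K).subtype := by
    rw [map_divByMonic _ hm0, Polynomial.map_pow, Polynomial.map_pow, Polynomial.map_X, hmap]
  have h1 : z ^ b - (X ^ b %ₘ f ^ T).eval z = (f.eval z) ^ T * ((X ^ b : K[X]) /ₘ f ^ T).eval z := by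
    have h := congrArg (eval z) (modByMonic_add_div (X ^ b : K[X]) (f ^ T))
    rw [eval_add, eval_mul, eval_pow, eval_pow, eval_X] at h
    rw [← h]
    ring
  rw [h1, norm_mul, norm_pow]
  have h2 : ‖f.eval z‖ ≤ ρ := by
    rw [hfd, eval_prod]
    simp only [eval_sub, eval_X, eval_C]
    rwa [norm_prod]
  have h3 : ‖((X ^ b : K[X]) /ₘ f ^ T).eval z‖ ≤ 1 := by
    rw [hq]
    have h4 : (z : K) = (O K).subtype ⟨z, hz⟩ := rfl
    rw [h4, eval_map, eval₂_at_apply]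
    exact ((((X ^ b : (O K)[X]) /ₘ f0 ^ T).eval ⟨z, hz⟩).2)
  calc ‖f.eval z‖ ^ T * ‖((X ^ b : K[X]) /ₘ f ^ T).eval z‖ ≤ ρ ^ T * 1 :=
        mul_le_mul (pow_le_pow_left₀ (norm_nonneg _) h2 _) h3 (norm_nonneg _)
          (pow_nonneg ((norm_nonneg _).trans h2) _)
    _ = ρ ^ T := mul_one _

end gen

section field

variable {K : Type*} [Field K]

/-- a power of `X - a` divides a polynomial whose Hasse derivatives vanish -/
theorem dvd_of_hasse (P : K[X]) (a : K) (T : ℕ) (h : ∀ i < T, (hasseDeriv i P).eval a = 0) :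
    (X - C a) ^ T ∣ P := by
  rw [X_sub_C_pow_dvd_iff, X_pow_dvd_iff]
  intro d hd
  have := h d hd
  rwa [← taylor_coeff] at this

/-- the value of the remainder in terms of the Hasse derivatives -/
theorem exists_coef {ι : Type*} (Y : Finset ι) (x : ι → K) (hinj : Set.InjOn x Y) (T : ℕ)
    (z : K) : ∃ c : ι → ℕ → K, ∀ P : K[X],
      (P %ₘ (∏ l ∈ Y, (X - C (x l))) ^ T).eval z =
        ∑ l ∈ Y, ∑ i ∈ range T, c l i * (hasseDeriv i P).eval (x l) := by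
  classical
  set f : K[X] := ∏ l ∈ Y, (X - C (x l)) with hfd
  have hf : (f ^ T).Monic := (monic_prod_of_monic _ _ fun l _ => monic_X_sub_C _).pow _
  set L : {l // l ∈ Y} × Fin T → (K[X] →ₗ[K] K) := fun q =>
    (leval (x q.1)).comp (hasseDeriv (q.2 : ℕ)) with hL
  set Φ : K[X] →ₗ[K] K := (leval z).comp (modByMonicHom (f ^ T)) with hΦ
  have hker : ⨅ q, LinearMap.ker (L q) ≤ LinearMap.ker Φ := by
    intro P hP
    rw [Submodule.mem_iInf] at hP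
    have h1 : f ^ T ∣ P := by
      rw [hfd, ← Finset.prod_pow]
      refine Finset.prod_dvd_of_coprime ?_ ?_
      · intro l hl l' hl' hne
        refine IsCoprime.pow ?_
        refine isCoprime_X_sub_C_of_isUnit_sub ?_
        exact (sub_ne_zero.2 fun h => hne (hinj hl hl' h)).isUnit
      · intro l hl
        refine dvd_of_hasse _ _ _ fun i hi => ?_
        exact LinearMap.mem_ker.1 (hP (⟨l, hl⟩, ⟨i, hi⟩))
    rw [LinearMap.mem_ker, hΦ]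
    show (P %ₘ f ^ T).eval z = 0
    rw [(modByMonic_eq_zero_iff_dvd hf).2 h1, eval_zero]
  obtain ⟨c, hc⟩ := (Submodule.mem_span_range_iff_exists_fun K).1
    (mem_span_of_iInf_ker_le_ker hker)
  refine ⟨fun l i => if h : l ∈ Y ∧ i < T then c (⟨l, h.1⟩, ⟨i, h.2⟩) else 0, fun P => ?_⟩
  have h1 : Φ P = ∑ q, c q * L q P := by
    rw [← hc]
    simp [LinearMap.sum_apply, LinearMap.smul_apply]
  have h2 : Φ P = (P %ₘ f ^ T).eval z := rfl
  rw [← h2, h1, Fintype.sum_prod_type, ← Finset.sum_coe_sort Y]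
  refine Finset.sum_congr rfl fun l _ => ?_
  rw [Finset.sum_range]
  refine Finset.sum_congr rfl fun i _ => ?_
  show c (l, i) * L (l, i) P = (if h : (l : ι) ∈ Y ∧ (i : ℕ) < T then
    c (⟨l, h.1⟩, ⟨i, h.2⟩) else 0) * eval (x l) (hasseDeriv (i : ℕ) P)
  rw [dif_pos ⟨l.2, i.2⟩]
  rfl

theorem row_eq {N₁ N₂ : ℕ} {x γ₁ γ₂ : K} (hx : x ≠ 0) (a₁ a₂ : ℤ) (n : Fin N₁ × Fin N₂) :
    row N₁ N₂ (x ^ a₁ * γ₁) (x ^ a₂ * γ₂) n =
      x ^ (a₁ * (n.1 : ℕ) + a₂ * (n.2 : ℕ)) * (γ₁ ^ (n.1 : ℕ) * γ₂ ^ (n.2 : ℕ)) := by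
  unfold row
  rw [mul_pow, mul_pow, zpow_add₀ hx, zpow_mul, zpow_mul, zpow_natCast, zpow_natCast]
  ring

theorem binom (w : K) (n N : ℕ) (h : n < N) :
    (1 + w) ^ n = ∑ r ∈ range N, (n.choose r : K) * w ^ r := by
  rw [add_comm, add_pow]
  rw [← Finset.sum_subset (Finset.range_subset_range.2 (Nat.succ_le_of_lt h)) ]
  · refine Finset.sum_congr rfl fun r _ => ?_
    rw [one_pow, mul_one, mul_comm]
  · intro r _ hr
    rw [Finset.mem_range, not_lt] at hr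
    rw [Nat.choose_eq_zero_of_lt (by omega), Nat.cast_zero, zero_mul]

end field

section main

variable {K : Type*} [NormedField K] [IsUltrametricDist K]

omit [IsUltrametricDist K] in
theorem scale {z : K} (hz0 : z ≠ 0) (hz : ‖z‖ ≤ 1) (a : ℤ) :
    ‖z‖⁻¹ ^ (-a).toNat = max 1 ‖z ^ a‖ := by
  have hp : 0 < ‖z‖ := norm_pos_iff.2 hz0
  rcases le_total 0 a with h | h
  · have h1 : (-a).toNat = 0 := by omega
    rw [h1, pow_zero, max_eq_left]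
    obtain ⟨k, rfl⟩ := Int.eq_ofNat_of_zero_le h
    rw [zpow_natCast, norm_pow]
    exact pow_le_one₀ (norm_nonneg _) hz
  · obtain ⟨k, hk⟩ : ∃ k : ℕ, a = -(k : ℤ) := ⟨(-a).toNat, by omega⟩
    subst hk
    rw [neg_neg, Int.toNat_natCast, zpow_neg, zpow_natCast, norm_inv, norm_pow, inv_pow,
      max_eq_right]
    exact (one_le_inv₀ (pow_pos hp _)).2 (pow_le_one₀ hp.le hz)

theorem half {ι : Type*} (T N₁ N₂ : ℕ) (a₁ a₂ : ℤ) (Y : Finset ι)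
    (x : ι → K) (γ₁ γ₂ : K) (ρ : ℝ) (hρ : 0 < ρ) (hρ1 : ρ ≤ 1)
    (hinj : Set.InjOn x Y) (hx : ∀ l ∈ Y, x l ≠ 0) (h1 : ‖γ₁‖ = 1) (h2 : ‖γ₂‖ = 1) :
    ∃ U : Submodule K (Fin N₁ × Fin N₂ → K),
      Module.finrank K U ≤ T ^ 3 *
        rk N₁ N₂ (fun l => x l ^ a₁ * γ₁) (fun l => x l ^ a₂ * γ₂) (Y : Set ι) ∧
      ∀ z γ₁' γ₂' : K, z ≠ 0 → ‖z‖ ≤ 1 → ‖γ₁'‖ = 1 → ‖γ₂'‖ = 1 → ‖γ₁' - γ₁‖ ≤ ρ →
        ‖γ₂' - γ₂‖ ≤ ρ → ∏ l ∈ Y, ‖z - x l‖ ≤ ρ * ∏ l ∈ Y, (max 1 ‖z‖ * max 1 ‖x l‖) →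
        ∃ w ∈ U, ∀ n, ‖row N₁ N₂ (z ^ a₁ * γ₁') (z ^ a₂ * γ₂') n - w n‖ ≤
          ρ ^ T * ((max 1 ‖z ^ a₁‖) ^ N₁ * (max 1 ‖z ^ a₂‖) ^ N₂) := by
  classical
  set W : Submodule K (Fin N₁ × Fin N₂ → K) := Submodule.span K
    ((fun l => row N₁ N₂ (x l ^ a₁ * γ₁) (x l ^ a₂ * γ₂)) '' (Y : Set ι)) with hW
  set A : ℕ := (-a₁).toNat * N₁ + (-a₂).toNat * N₂ with hA
  set b : Fin N₁ × Fin N₂ → ℕ := fun n => (a₁ * (n.1 : ℕ) + a₂ * (n.2 : ℕ) + A).toNat with hb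
  have hbA : ∀ n, (b n : ℤ) = a₁ * (n.1 : ℕ) + a₂ * (n.2 : ℕ) + A := by
    intro n
    have e1 : ∀ (a : ℤ) (m N : ℕ), m ≤ N → 0 ≤ a * m + ((-a).toNat * N : ℕ) := by
      intro a m N hmN
      have e2 : -a ≤ ((-a).toNat : ℤ) := Int.self_le_toNat _
      have e3 : (m : ℤ) ≤ N := by exact_mod_cast hmN
      have e4 : (0 : ℤ) ≤ ((-a).toNat : ℤ) := by positivity
      push_cast
      nlinarith [mul_le_mul_of_nonneg_left e3 e4, mul_le_mul_of_nonneg_right e2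
        (show (0 : ℤ) ≤ m by positivity)]
    have e5 := e1 a₁ n.1 N₁ n.1.2.le
    have e6 := e1 a₂ n.2 N₂ n.2.2.le
    simp only [hb]
    rw [Int.toNat_of_nonneg]
    rw [hA]
    push_cast at e5 e6 ⊢
    linarith
  set D : Fin T × Fin T × Fin T → (Fin N₁ × Fin N₂ → K) := fun j n =>
    ((n.1 : ℕ).choose j.1 : K) * ((n.2 : ℕ).choose j.2.1 : K) * ((b n).choose j.2.2 : K) with hD
  set Ψ : (Fin T × Fin T × Fin T → W) →ₗ[K] (Fin N₁ × Fin N₂ → K) :=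
    ∑ j, (LinearMap.mulLeft K (D j)).comp (W.subtype.comp (LinearMap.proj j)) with hΨ
  have hmem : ∀ (j : Fin T × Fin T × Fin T) (l : ι), l ∈ Y →
      D j * row N₁ N₂ (x l ^ a₁ * γ₁) (x l ^ a₂ * γ₂) ∈ LinearMap.range Ψ := by
    intro j l hl
    have hl' : row N₁ N₂ (x l ^ a₁ * γ₁) (x l ^ a₂ * γ₂) ∈ W :=
      Submodule.subset_span ⟨l, hl, rfl⟩
    refine ⟨Pi.single j ⟨_, hl'⟩, ?_⟩
    rw [hΨ, LinearMap.sum_apply, Finset.sum_eq_single j]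
    · simp
    · intro j' _ hj'
      simp [Pi.single_eq_of_ne hj']
    · intro h
      exact absurd (Finset.mem_univ j) h
  refine ⟨LinearMap.range Ψ, ?_, ?_⟩
  · refine (LinearMap.finrank_range_le Ψ).trans ?_
    rw [Module.finrank_pi_fintype, Finset.sum_const, Finset.card_univ, Fintype.card_prod,
      Fintype.card_prod, Fintype.card_fin, smul_eq_mul]
    refine le_of_eq ?_
    show T * (T * T) * Module.finrank K W = T ^ 3 * Module.finrank K W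
    ring
  intro z γ₁' γ₂' hz0 hz hg1 hg2 hd1 hd2 hprod
  -- the small value
  set Y0 : Finset ι := Y.filter (fun l => ‖x l‖ ≤ 1) with hY0
  have hsmall : ∏ l ∈ Y0, ‖z - x l‖ ≤ ρ := by
    rw [← Finset.prod_filter_mul_prod_filter_not Y (fun l => ‖x l‖ ≤ 1),
      ← Finset.prod_filter_mul_prod_filter_not Y (fun l => ‖x l‖ ≤ 1)] at hprod
    have e1 : ∏ l ∈ Y with ‖x l‖ ≤ 1, (max 1 ‖z‖ * max 1 ‖x l‖) = 1 := by
      refine Finset.prod_eq_one fun l hl => ?_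
      rw [max_eq_left hz, max_eq_left (Finset.mem_filter.1 hl).2, one_mul]
    have e2 : ∏ l ∈ Y with ¬ ‖x l‖ ≤ 1, (max 1 ‖z‖ * max 1 ‖x l‖) =
        ∏ l ∈ Y with ¬ ‖x l‖ ≤ 1, ‖z - x l‖ := by
      refine Finset.prod_congr rfl fun l hl => ?_
      have e3 : 1 < ‖x l‖ := not_le.1 (Finset.mem_filter.1 hl).2
      rw [max_eq_left hz, max_eq_right e3.le, one_mul]
      have e4 : ‖z‖ ≠ ‖x l‖ := (hz.trans_lt e3).ne
      rw [sub_eq_add_neg, IsUltrametricDist.norm_add_eq_max_of_norm_ne_norm (by rwa [norm_neg]),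
        norm_neg, max_eq_right (hz.trans e3.le)]
    rw [e1, e2, one_mul] at hprod
    have e5 : 0 < ∏ l ∈ Y with ¬ ‖x l‖ ≤ 1, ‖z - x l‖ := by
      rw [← e2]
      exact Finset.prod_pos fun l _ => by positivity
    exact le_of_mul_le_mul_right hprod e5
  have hx0 : ∀ l ∈ Y0, ‖x l‖ ≤ 1 := fun l hl => (Finset.mem_filter.1 hl).2
  have hinj0 : Set.InjOn x Y0 := hinj.mono (by
    intro l hl
    exact (Finset.mem_filter.1 hl).1)
  set f : K[X] := ∏ l ∈ Y0, (X - C (x l)) with hf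
  -- the vectors
  set v : ℕ × ℕ → (Fin N₁ × Fin N₂ → K) := fun r n =>
    ((n.1 : ℕ).choose r.1 : K) * ((n.2 : ℕ).choose r.2 : K) *
      (γ₁ ^ (n.1 : ℕ) * γ₂ ^ (n.2 : ℕ)) * (X ^ (b n) %ₘ f ^ (T - (r.1 + r.2))).eval z with hv
  have hvU : ∀ r : ℕ × ℕ, r.1 + r.2 < T → v r ∈ LinearMap.range Ψ := by
    intro r hr
    obtain ⟨c, hc⟩ := exists_coef Y0 x hinj0 (T - (r.1 + r.2)) z
    have e1 : v r = ∑ l ∈ Y0, ∑ i ∈ (range (T - (r.1 + r.2))).attach,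
        (c l i * x l ^ ((A : ℤ) - (i : ℕ))) •
          (D (⟨r.1, by omega⟩, ⟨r.2, by omega⟩, ⟨i, by
            have := Finset.mem_range.1 i.2
            omega⟩) *
            row N₁ N₂ (x l ^ a₁ * γ₁) (x l ^ a₂ * γ₂)) := by
      funext n
      simp only [hv]
      rw [hc, Finset.sum_apply, Finset.mul_sum]
      refine Finset.sum_congr rfl fun l hl => ?_
      have hxl : x l ≠ 0 := hx l (Finset.mem_filter.1 hl).1
      rw [Finset.sum_apply, Finset.mul_sum, ← Finset.sum_attach]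
      refine Finset.sum_congr rfl fun i _ => ?_
      rw [Pi.smul_apply, Pi.mul_apply, smul_eq_mul, row_eq hxl, X_pow_eq_monomial,
        hasseDeriv_monomial, eval_monomial]
      simp only [hD]
      by_cases hi : (i : ℕ) ≤ b n
      · have e2 : x l ^ (b n - (i : ℕ)) = x l ^ ((A : ℤ) - (i : ℕ)) *
            x l ^ (a₁ * (n.1 : ℕ) + a₂ * (n.2 : ℕ)) := by
          rw [← zpow_natCast, ← zpow_add₀ hxl]
          congr 1
          rw [Nat.cast_sub hi, hbA]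
          ring
        rw [e2]
        ring
      · rw [Nat.choose_eq_zero_of_lt (not_le.1 hi), Nat.cast_zero]
        ring
    rw [e1]
    refine Submodule.sum_mem _ fun l hl => Submodule.sum_mem _ fun i _ => Submodule.smul_mem _ _ ?_
    exact hmem _ l (Finset.mem_filter.1 hl).1
  -- the differences
  have hγ1 : γ₁ ≠ 0 := norm_pos_iff.1 (by rw [h1]; exact one_pos)
  have hγ2 : γ₂ ≠ 0 := norm_pos_iff.1 (by rw [h2]; exact one_pos)
  set w1 : K := γ₁' / γ₁ - 1 with hw1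
  set w2 : K := γ₂' / γ₂ - 1 with hw2
  have ew1 : γ₁' = γ₁ * (1 + w1) := by
    rw [hw1]
    field_simp
    ring
  have ew2 : γ₂' = γ₂ * (1 + w2) := by
    rw [hw2]
    field_simp
    ring
  have nw1 : ‖w1‖ ≤ ρ := by
    have e : w1 = (γ₁' - γ₁) / γ₁ := by
      rw [hw1]
      field_simp
    rw [e, norm_div, h1, div_one]
    exact hd1
  have nw2 : ‖w2‖ ≤ ρ := by
    have e : w2 = (γ₂' - γ₂) / γ₂ := by
      rw [hw2]
      field_simp
    rw [e, norm_div, h2, div_one]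
    exact hd2
  set J : Finset (ℕ × ℕ) := range N₁ ×ˢ range N₂ with hJ
  set u : ℕ × ℕ → K := fun r => z⁻¹ ^ A * (w1 ^ r.1 * w2 ^ r.2) with hu
  refine ⟨∑ r ∈ J, (if r.1 + r.2 < T then u r else 0) • v r, ?_, fun n => ?_⟩
  · refine Submodule.sum_mem _ fun r _ => ?_
    split_ifs with h
    · exact Submodule.smul_mem _ _ (hvU r h)
    · rw [zero_smul]
      exact Submodule.zero_mem _
  · have e1 : row N₁ N₂ (z ^ a₁ * γ₁') (z ^ a₂ * γ₂') n = ∑ r ∈ J, u r *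
        (((n.1 : ℕ).choose r.1 : K) * ((n.2 : ℕ).choose r.2 : K) *
          (γ₁ ^ (n.1 : ℕ) * γ₂ ^ (n.2 : ℕ)) * z ^ (b n)) := by
      rw [row_eq hz0, ew1, ew2, mul_pow, mul_pow, binom w1 n.1 N₁ n.1.2, binom w2 n.2 N₂ n.2.2]
      have e2 : z ^ (a₁ * (n.1 : ℕ) + a₂ * (n.2 : ℕ)) = z⁻¹ ^ A * z ^ (b n) := by
        rw [← zpow_natCast z (b n), hbA, zpow_add₀ hz0 _ (A : ℤ), zpow_natCast, inv_pow]
        have : z ^ A ≠ 0 := pow_ne_zero _ hz0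
        field_simp
      rw [e2, hJ]
      have e3 : γ₁ ^ (n.1 : ℕ) * (∑ r ∈ range N₁, ((n.1 : ℕ).choose r : K) * w1 ^ r) *
          (γ₂ ^ (n.2 : ℕ) * ∑ r ∈ range N₂, ((n.2 : ℕ).choose r : K) * w2 ^ r) =
          (γ₁ ^ (n.1 : ℕ) * γ₂ ^ (n.2 : ℕ)) *
            ((∑ r ∈ range N₁, ((n.1 : ℕ).choose r : K) * w1 ^ r) *
              ∑ r ∈ range N₂, ((n.2 : ℕ).choose r : K) * w2 ^ r) := by ring
      rw [e3, Finset.sum_mul_sum, ← Finset.sum_product', Finset.mul_sum, Finset.mul_sum]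
      refine Finset.sum_congr rfl fun r _ => ?_
      simp only [hu]
      ring
    rw [e1, Finset.sum_apply, ← Finset.sum_sub_distrib]
    have hzA : ‖z⁻¹ ^ A‖ = (max 1 ‖z ^ a₁‖) ^ N₁ * (max 1 ‖z ^ a₂‖) ^ N₂ := by
      rw [norm_pow, norm_inv, hA, pow_add, pow_mul, pow_mul, scale hz0 hz, scale hz0 hz]
    rw [← hzA]
    refine IsUltrametricDist.norm_sum_le_of_forall_le_of_nonneg (by positivity) fun r _ => ?_
    have hnat : ∀ m : ℕ, ‖(m : K)‖ ≤ 1 := fun m => IsUltrametricDist.norm_natCast_le_one K m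
    have key : ‖w1 ^ r.1 * w2 ^ r.2‖ ≤ ρ ^ (r.1 + r.2) := by
      rw [norm_mul, norm_pow, norm_pow, pow_add]
      gcongr
    have hcc : ‖((n.1 : ℕ).choose r.1 : K) * ((n.2 : ℕ).choose r.2 : K) *
          (γ₁ ^ (n.1 : ℕ) * γ₂ ^ (n.2 : ℕ))‖ ≤ 1 := by
      rw [norm_mul, norm_mul, norm_mul, norm_pow, norm_pow, h1, h2, one_pow, one_pow, mul_one,
        mul_one]
      exact mul_le_one₀ (hnat _) (norm_nonneg _) (hnat _)
    have hfin : ∀ y : K, ‖w1 ^ r.1 * w2 ^ r.2‖ * ‖y‖ ≤ ρ ^ T →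
        ‖u r * (((n.1 : ℕ).choose r.1 : K) * ((n.2 : ℕ).choose r.2 : K) *
          (γ₁ ^ (n.1 : ℕ) * γ₂ ^ (n.2 : ℕ)) * y)‖ ≤ ρ ^ T * ‖z⁻¹ ^ A‖ := by
      intro y hy
      simp only [hu]
      rw [norm_mul, norm_mul, norm_mul (_ * _) y]
      calc ‖z⁻¹ ^ A‖ * ‖w1 ^ r.1 * w2 ^ r.2‖ * (‖((n.1 : ℕ).choose r.1 : K) *
            ((n.2 : ℕ).choose r.2 : K) * (γ₁ ^ (n.1 : ℕ) * γ₂ ^ (n.2 : ℕ))‖ * ‖y‖)
          ≤ ‖z⁻¹ ^ A‖ * ‖w1 ^ r.1 * w2 ^ r.2‖ * (1 * ‖y‖) := by gcongr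
        _ = ‖z⁻¹ ^ A‖ * (‖w1 ^ r.1 * w2 ^ r.2‖ * ‖y‖) := by ring
        _ ≤ ‖z⁻¹ ^ A‖ * ρ ^ T := by gcongr
        _ = _ := mul_comm _ _
    split_ifs with h
    · have e4 : u r * (((n.1 : ℕ).choose r.1 : K) * ((n.2 : ℕ).choose r.2 : K) *
          (γ₁ ^ (n.1 : ℕ) * γ₂ ^ (n.2 : ℕ)) * z ^ (b n)) - (u r • v r) n =
          u r * (((n.1 : ℕ).choose r.1 : K) * ((n.2 : ℕ).choose r.2 : K) *
          (γ₁ ^ (n.1 : ℕ) * γ₂ ^ (n.2 : ℕ)) * (z ^ (b n) -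
            (X ^ (b n) %ₘ f ^ (T - (r.1 + r.2))).eval z)) := by
        rw [Pi.smul_apply, smul_eq_mul]
        simp only [hv]
        ring
      rw [e4]
      refine hfin _ ?_
      have e5 := div_bound Y0 x hx0 z hz (b n) (T - (r.1 + r.2)) ρ hsmall
      calc ‖w1 ^ r.1 * w2 ^ r.2‖ * ‖z ^ b n - eval z (X ^ b n %ₘ f ^ (T - (r.1 + r.2)))‖
          ≤ ρ ^ (r.1 + r.2) * ρ ^ (T - (r.1 + r.2)) := by gcongr
        _ = ρ ^ T := by
          rw [← pow_add]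
          congr 1
          omega
    · rw [zero_smul, Pi.zero_apply, sub_zero]
      refine hfin _ ?_
      calc ‖w1 ^ r.1 * w2 ^ r.2‖ * ‖z ^ b n‖ ≤ ρ ^ (r.1 + r.2) * 1 := by
            gcongr
            rw [norm_pow]
            exact pow_le_one₀ (norm_nonneg _) hz
        _ ≤ ρ ^ T := by
          rw [mul_one]
          exact pow_le_pow_of_le_one hρ.le hρ1 (not_lt.1 h)

end main

end Pool.Agent.H54.AD.Pad

namespace Pool.Agent.H54.AD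

open Finset

theorem pad : S_PAD := by
  intro p _ ι T N₁ N₂ a₁ a₂ Y x γ₁ γ₂ ρ hρ hρ1 hinj hx h1 h2
  obtain ⟨U1, hU1, H1⟩ := Pad.half T N₁ N₂ a₁ a₂ Y x γ₁ γ₂ ρ hρ hρ1 hinj hx h1 h2
  obtain ⟨U2, hU2, H2⟩ := Pad.half T N₁ N₂ (-a₁) (-a₂) Y (fun l => (x l)⁻¹) γ₁ γ₂ ρ hρ hρ1
    (fun l hl l' hl' h => hinj hl hl' (inv_injective h)) (fun l hl => inv_ne_zero (hx l hl)) h1 h2
  have e0 : ∀ (y : PadicAlgCl p) (a : ℤ), (y⁻¹) ^ (-a) = y ^ a := fun y a => by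
    rw [inv_zpow, zpow_neg, inv_inv]
  simp only [e0] at hU2
  refine ⟨U1 ⊔ U2, ?_, ?_⟩
  · refine (Submodule.finrank_add_le_finrank_add_finrank U1 U2).trans ?_
    calc _ ≤ _ := add_le_add hU1 hU2
      _ = _ := by ring
  · intro z γ₁' γ₂' hz0 hg1 hg2 hd1 hd2 hprod
    rcases le_total ‖z‖ 1 with hz | hz
    · obtain ⟨w, hw, hw'⟩ := H1 z γ₁' γ₂' hz0 hz hg1 hg2 hd1 hd2 hprod
      exact ⟨w, Submodule.mem_sup_left hw, hw'⟩
    · have hzp : 0 < ‖z‖ := norm_pos_iff.2 hz0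
      have hz' : ‖z⁻¹‖ ≤ 1 := by
        rw [norm_inv]
        exact inv_le_one_of_one_le₀ hz
      obtain ⟨w, hw, hw'⟩ := H2 z⁻¹ γ₁' γ₂' (inv_ne_zero hz0) hz' hg1 hg2 hd1 hd2 (by
        have e1 : ∀ l ∈ Y, ‖z⁻¹ - (x l)⁻¹‖ = ‖z - x l‖ * (‖z‖ * ‖x l‖)⁻¹ := by
          intro l hl
          have hxl := hx l hl
          rw [inv_sub_inv hz0 hxl, norm_div, norm_mul, norm_sub_rev, div_eq_mul_inv]
        have e2 : ∀ l ∈ Y, max 1 ‖z⁻¹‖ * max 1 ‖(x l)⁻¹‖ =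
            (max 1 ‖z‖ * max 1 ‖x l‖) * (‖z‖ * ‖x l‖)⁻¹ := by
          intro l hl
          have e3 : ∀ y : PadicAlgCl p, y ≠ 0 → max 1 ‖y⁻¹‖ = max 1 ‖y‖ * ‖y‖⁻¹ := by
            intro y hy
            have hyp : 0 < ‖y‖ := norm_pos_iff.2 hy
            rw [norm_inv, max_mul_of_nonneg _ _ (by positivity), one_mul, mul_inv_cancel₀ hyp.ne',
              max_comm]
          rw [e3 z hz0, e3 _ (hx l hl), mul_inv]
          ring
        rw [Finset.prod_congr rfl e1, Finset.prod_congr rfl e2, Finset.prod_mul_distrib,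
          Finset.prod_mul_distrib, ← mul_assoc]
        refine mul_le_mul_of_nonneg_right hprod ?_
        exact Finset.prod_nonneg fun l _ => by positivity)
      simp only [e0] at hw'
      exact ⟨w, Submodule.mem_sup_right hw, hw'⟩

end Pool.Agent.H54.AD
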