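import Pool.Agent.H54.AD.Defs

set_option autoImplicit false

/-! Project AD, part PIG (helper36) -/

namespace Pool.Agent.H54.AD

open Finset

theorem pig : S_PIG := by
  classical
  intro L B H hL K hK hcard
  by_contra hcon
  push Not at hcon
  obtain ⟨K0, hK0⟩ : ∃ K0, K0 = K.filter (fun j => ∀ m, 0 < m → m < 2 * L → j + m ∉ K) := ⟨_, rfl⟩
  obtain ⟨K1, hK1⟩ : ∃ K1, K1 = K.filter (fun j => ¬ ∀ m, 0 < m → m < 2 * L → j + m ∉ K) := ⟨_, rfl⟩
  have h1 : K0.card + K1.card = K.card := by
    rw [hK0, hK1]
    exact card_filter_add_card_filter_not _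
  have h2 : K1.card ≤ (2 * L - 1) * B := by
    have h3 : K1 ⊆ (Ico 1 (2 * L)).biUnion (fun m => K.filter (fun j => j + m ∈ K)) := by
      intro j hj
      rw [hK1, mem_filter] at hj
      obtain ⟨hj1, hj2⟩ := hj
      push Not at hj2
      obtain ⟨m, hm0, hm1, hm2⟩ := hj2
      rw [mem_biUnion]
      exact ⟨m, mem_Ico.2 ⟨hm0, hm1⟩, mem_filter.2 ⟨hj1, hm2⟩⟩
    refine (card_le_card h3).trans ?_
    refine card_biUnion_le.trans ?_
    calc _ ≤ ∑ m ∈ Ico 1 (2 * L), B := sum_le_sum fun m hm => by
          rw [mem_Ico] at hm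
          exact hcon m (by omega) hm.2
      _ = _ := by rw [sum_const, Nat.card_Ico, smul_eq_mul]
  have h4 : K0.card ≤ 4 * L * (B + 1) := by
    have h5 : K0.card = (K0.image (fun j => (j - H) / (2 * L))).card := by
      rw [card_image_of_injOn]
      have key : ∀ a b : ℕ, a ∈ K0 → b ∈ K0 → a < b → (a - H) / (2 * L) ≠ (b - H) / (2 * L) := by
        intro a b ha hb hab heq
        rw [hK0, mem_filter] at ha hb
        have ha' := mem_Ico.1 (hK ha.1)
        have hb' := mem_Ico.1 (hK hb.1)
        refine ha.2 (b - a) (by omega) ?_ (by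
          have : a + (b - a) = b := by omega
          rw [this]
          exact hb.1)
        have e1 := Nat.div_add_mod (a - H) (2 * L)
        have e2 := Nat.div_add_mod (b - H) (2 * L)
        have e3 := Nat.mod_lt (b - H) (by omega : 0 < 2 * L)
        rw [← heq] at e2
        have e4 : b - H < (a - H) + 2 * L := by omega
        omega
      intro a ha b hb heq
      rcases lt_trichotomy a b with h | h | h
      · exact absurd heq (key a b ha hb h)
      · exact h
      · exact absurd heq.symm (key b a hb ha h)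
    rw [h5]
    have h6 : K0.image (fun j => (j - H) / (2 * L)) ⊆ range (4 * L * (B + 1)) := by
      intro x hx
      rw [mem_image] at hx
      obtain ⟨j, hj, rfl⟩ := hx
      rw [hK0, mem_filter] at hj
      have hj' := mem_Ico.1 (hK hj.1)
      rw [mem_range]
      apply Nat.div_lt_of_lt_mul
      have : 2 * L * (4 * L * (B + 1)) = L * (8 * L * (B + 1)) := by ring
      rw [this]
      omega
    have := card_le_card h6
    rwa [card_range] at this
  have h7 : (2 * L - 1) * B ≤ 2 * L * B := Nat.mul_le_mul_right _ (Nat.sub_le _ _)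
  have h8 : 8 * L * (B + 1) = 4 * L * (B + 1) + 2 * L * B + (2 * L * B + 4 * L) := by ring
  omega

end Pool.Agent.H54.AD
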