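import Mathlib
import Pool.Agent.H54.AD.Defs

set_option autoImplicit false
set_option linter.unusedVariables false

/-!
# A prime polynomial of small bidegree
-/

namespace Pool.Agent.H54.AD

open Polynomial
open Pool.Agent.W237.RK
open Pool.Agent.H58P (Qb ht)

namespace Prm

theorem coeff_swap {R : Type*} [CommSemiring R] (P : PP R) (i j : ℕ) :
    ((Bivariate.swap P).coeff j).coeff i = (P.coeff i).coeff j := by
  induction P using Polynomial.induction_on' with
  | add p q hp hq => simp [hp, hq]
  | monomial n f =>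
    induction f using Polynomial.induction_on' with
    | add p q hp hq =>
      rw [map_add, map_add]
      simp only [coeff_add, hp, hq]
    | monomial m r =>
      rw [Bivariate.swap_monomial_monomial]
      simp only [coeff_monomial]
      by_cases h1 : m = j <;> by_cases h2 : n = i <;> simp [h1, h2, coeff_monomial]

theorem inner_iff {R : Type*} [CommSemiring R] (P : PP R) (a : ℕ) :
    (∀ i, (P.coeff i).natDegree ≤ a) ↔ (Bivariate.swap P).natDegree ≤ a := by
  rw [natDegree_le_iff_coeff_eq_zero]
  constructor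
  · intro h N hN
    ext i
    rw [coeff_swap]
    exact coeff_eq_zero_of_natDegree_lt (lt_of_le_of_lt (h i) hN)
  · intro h i
    rw [natDegree_le_iff_coeff_eq_zero]
    intro N hN
    rw [← coeff_swap, h N hN, coeff_zero]

theorem bideg_of_dvd {R : Type*} [Field R] {G F : PP R} {a b : ℕ} (hF : F ≠ 0) (h : G ∣ F)
    (hb : BiDeg F a b) : BiDeg G a b := by
  refine ⟨(natDegree_le_of_dvd h hF).trans hb.1, ?_⟩
  rw [inner_iff]
  have h2 := (inner_iff F a).1 hb.2
  refine (natDegree_le_of_dvd (_root_.map_dvd (Bivariate.swap (R := R)) h) ?_).trans h2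
  intro h3
  apply hF
  exact (map_eq_zero_iff _ (Bivariate.swap (R := R)).injective).1 h3

/-- evaluation as a ring homomorphism -/
noncomputable def evh (E : GF) (u v : Qb) : PP E →+* Qb :=
  eval₂RingHom (eval₂RingHom (algebraMap E Qb) u) v

theorem evh_apply (E : GF) (u v : Qb) (G : PP E) :
    evh E u v G = ev (algebraMap E Qb) u v G := rfl

theorem orb2_finite (E : GF) (u v : Qb) : (orb2 E u v).Finite := by
  classical
  have h1 : ∀ (w : Qb), {x : Qb | ∃ ρ : Aut, ρ w = x}.Finite := by
    intro w
    have hne : minpoly ℚ w ≠ 0 :=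
      minpoly.ne_zero ((AlgebraicClosure.isAlgebraic ℚ).isAlgebraic w).isIntegral
    apply ((minpoly ℚ w).rootSet_finite Qb).subset
    rintro x ⟨ρ, rfl⟩
    rw [mem_rootSet]
    refine ⟨hne, ?_⟩
    have h2 : aeval (ρ w) (minpoly ℚ w) = ρ (aeval w (minpoly ℚ w)) := by
      rw [← AlgEquiv.coe_toAlgHom, ← aeval_algHom_apply]
    rw [h2, minpoly.aeval, map_zero]
  apply ((h1 u).prod (h1 v)).subset
  rintro ⟨x, y⟩ ⟨ρ, hρ, h⟩
  simp only [Prod.mk.injEq] at h
  exact ⟨⟨ρ, h.1⟩, ⟨ρ, h.2⟩⟩

theorem finrank_le (E : GF) (u v : Qb) (hE : FiniteDimensional ℚ E) :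
    FiniteDimensional E (IntermediateField.adjoin E {u, v}) ∧
    Module.finrank E (IntermediateField.adjoin E ({u, v} : Set Qb)) ≤ (orb2 E u v).ncard := by
  classical
  have hQ : Algebra.IsAlgebraic ℚ Qb := AlgebraicClosure.isAlgebraic ℚ
  have hQ1 : IsAlgClosure ℚ Qb := ⟨inferInstance, hQ⟩
  have hQ2 : Normal ℚ Qb := IsAlgClosure.normal ℚ Qb
  have hQ3 : Algebra.IsAlgebraic E Qb := Algebra.IsAlgebraic.tower_top (K := ℚ) E
  have hQ4 : Normal E Qb := Normal.tower_top_of_normal ℚ E Qb
  set L := IntermediateField.adjoin E ({u, v} : Set Qb) with hL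
  have hfin : FiniteDimensional E L := by
    apply IntermediateField.finiteDimensional_adjoin
    intro x _
    exact Algebra.IsIntegral.isIntegral x
  refine ⟨hfin, ?_⟩
  have hu : u ∈ L := IntermediateField.subset_adjoin E _ (by simp)
  have hv : v ∈ L := IntermediateField.subset_adjoin E _ (by simp)
  have hcard : Fintype.card (L →ₐ[E] Qb) = Module.finrank E L := AlgHom.card E L Qb
  rw [← hcard, ← Nat.card_eq_fintype_card, ← Set.ncard_univ]
  refine Set.ncard_le_ncard_of_injOn (fun ρ : L →ₐ[E] Qb => (ρ ⟨u, hu⟩, ρ ⟨v, hv⟩)) ?_ ?_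
    (orb2_finite E u v)
  · intro ρ _
    let τ : Qb →ₐ[E] Qb := AlgHom.liftNormal ρ Qb
    have hτ : ∀ x : L, τ (x : Qb) = ρ x := fun x => AlgHom.liftNormal_commutes ρ Qb x
    have hbij : Function.Bijective τ := Algebra.IsAlgebraic.algHom_bijective τ
    let τe : Qb ≃ₐ[E] Qb := AlgEquiv.ofBijective τ hbij
    refine ⟨AlgEquiv.restrictScalars ℚ τe, ?_, ?_⟩
    · intro x hx
      have := τ.commutes (⟨x, hx⟩ : E)
      exact this
    · show (τ u, τ v) = _
      rw [← hτ ⟨u, hu⟩, ← hτ ⟨v, hv⟩]
  · intro ρ _ ρ' _ h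
    simp only [Prod.mk.injEq] at h
    apply IntermediateField.algHom_ext_of_eq_adjoin E hL
    intro x hx
    simp only [Set.mem_insert_iff, Set.mem_singleton_iff] at hx
    rcases hx with hx | hx
    · subst hx; exact h.1
    · subst hx; exact h.2

end Prm

open Prm in
theorem prm : S_PRM := by
  classical
  intro E u v a b hE hlt
  obtain ⟨hfin, hle⟩ := finrank_le E u v hE
  set L := IntermediateField.adjoin E ({u, v} : Set Qb) with hL
  have hu : u ∈ L := IntermediateField.subset_adjoin E _ (by simp)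
  have hv : v ∈ L := IntermediateField.subset_adjoin E _ (by simp)
  have hab : 0 < a * b := lt_of_le_of_lt (Nat.zero_le _) hlt
  have ha : 0 < a := Nat.pos_of_mul_pos_right hab
  have hb : 0 < b := Nat.pos_of_mul_pos_left hab
  let f : Fin a × Fin b → L := fun n => ⟨u, hu⟩ ^ (n.1 : ℕ) * ⟨v, hv⟩ ^ (n.2 : ℕ)
  have hdep : ¬ LinearIndependent E f := by
    intro h
    have h1 := h.fintype_card_le_finrank
    rw [Fintype.card_prod, Fintype.card_fin, Fintype.card_fin] at h1
    omega
  rw [Fintype.not_linearIndependent_iff] at hdep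
  obtain ⟨g, hg, n₀, hn₀⟩ := hdep
  let G : PP E := ∑ n : Fin a × Fin b, monomial (n.2 : ℕ) (monomial (n.1 : ℕ) (g n))
  have hcoeff : ∀ n : Fin a × Fin b, (G.coeff n.2).coeff n.1 = g n := by
    intro n
    show ((∑ m : Fin a × Fin b, monomial (m.2 : ℕ) (monomial (m.1 : ℕ) (g m))).coeff n.2).coeff
      n.1 = g n
    rw [finsetSum_coeff, finsetSum_coeff, Finset.sum_eq_single n]
    · simp
    · intro m _ hm
      rw [coeff_monomial]
      split_ifs with h1
      · rw [coeff_monomial]
        split_ifs with h2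
        · exact absurd (Prod.ext (Fin.ext h2) (Fin.ext h1)) hm
        · rfl
      · simp
    · intro h; exact absurd (Finset.mem_univ _) h
  have hG0 : G ≠ 0 := by
    intro h
    apply hn₀
    rw [← hcoeff n₀, h]
    simp
  have hGdeg : BiDeg G (a - 1) (b - 1) := by
    constructor
    · apply natDegree_sum_le_of_forall_le
      intro n _
      refine (natDegree_monomial_le _).trans ?_
      have := n.2.2
      omega
    · intro i
      show ((∑ m : Fin a × Fin b, monomial (m.2 : ℕ) (monomial (m.1 : ℕ) (g m))).coeff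
        i).natDegree ≤ _
      rw [finsetSum_coeff]
      apply natDegree_sum_le_of_forall_le
      intro n _
      rw [coeff_monomial]
      split_ifs
      · refine (natDegree_monomial_le _).trans ?_
        have := n.1.2
        omega
      · simp
  have hev : evh E u v G = 0 := by
    have h1 : (algebraMap L Qb) (∑ n, g n • f n) = 0 := by rw [hg, map_zero]
    rw [← h1]
    show evh E u v (∑ m : Fin a × Fin b, monomial (m.2 : ℕ) (monomial (m.1 : ℕ) (g m))) = _
    rw [map_sum, map_sum]
    apply Finset.sum_congr rfl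
    intro n _
    rw [evh_apply, ev, eval₂_monomial]
    rw [coe_eval₂RingHom, eval₂_monomial, Algebra.smul_def, map_mul]
    simp only [f, map_mul, map_pow]
    rw [mul_assoc]
    rfl
  -- a prime factor
  have hprod : Associated (UniqueFactorizationMonoid.factors G).prod G :=
    UniqueFactorizationMonoid.factors_prod hG0
  have h0 : evh E u v (UniqueFactorizationMonoid.factors G).prod = 0 := by
    obtain ⟨w, hw⟩ := hprod.symm
    rw [← hw, map_mul, hev, zero_mul]
  rw [map_multiset_prod, Multiset.prod_eq_zero_iff] at h0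
  obtain ⟨P, hP, hP0⟩ := Multiset.mem_map.1 h0
  refine ⟨P, UniqueFactorizationMonoid.prime_of_factor P hP, ?_, hP0⟩
  exact bideg_of_dvd hG0 (UniqueFactorizationMonoid.dvd_of_mem_factors hP) hGdeg

end Pool.Agent.H54.AD
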