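import Pool.Agent.H54.AD.Defs

set_option autoImplicit false

/-! Project AD, part SEL (helper36) -/

namespace Pool.Agent.H54.AD

open Finset

open Classical in
/-- greedy selection -/
theorem sel' : ∀ (L M : ℕ) (I : Finset ℕ) (R : ℕ → ℕ → Prop), 0 < M → L * M ≤ I.card →
    (∀ j ∈ I, R j j) → (∀ j ∈ I, (I.filter (fun k => R j k)).card < M) →
    ∃ f : Fin L → ℕ, Function.Injective f ∧ (∀ i, f i ∈ I) ∧ ∀ i l, i < l → ¬ R (f i) (f l) := by
  intro L
  induction L with
  | zero =>
    intro M I R _ _ _ _
    exact ⟨fun i => i.elim0, fun i => i.elim0, fun i => i.elim0, fun i => i.elim0⟩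
  | succ L ih =>
    intro M I R hM hcard hR hlt
    have hne : I.Nonempty := by
      rw [← card_pos]
      have : (L + 1) * M = L * M + M := by ring
      omega
    obtain ⟨j, hj⟩ := hne
    obtain ⟨I', hI'⟩ : ∃ I', I' = I.filter (fun k => ¬ R j k) := ⟨_, rfl⟩
    have h1 : (I.filter (fun k => R j k)).card + I'.card = I.card := by
      rw [hI']
      exact card_filter_add_card_filter_not _
    have h2 := hlt j hj
    have h3 : L * M ≤ I'.card := by
      have : (L + 1) * M = L * M + M := by ring
      omega
    have hsub : ∀ x ∈ I', x ∈ I ∧ ¬ R j x := by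
      intro x hx
      rw [hI', mem_filter] at hx
      exact hx
    obtain ⟨f, hf1, hf2, hf3⟩ := ih M I' R hM h3 (fun x hx => hR x (hsub x hx).1) (fun x hx => by
      refine lt_of_le_of_lt (card_le_card ?_) (hlt x (hsub x hx).1)
      intro y hy
      rw [mem_filter] at hy ⊢
      exact ⟨(hsub y hy.1).1, hy.2⟩)
    refine ⟨Fin.cons j f, ?_, ?_, ?_⟩
    · rw [Fin.cons_injective_iff]
      refine ⟨?_, hf1⟩
      rintro ⟨i, hi⟩
      have := (hsub _ (hf2 i)).2
      rw [hi] at this
      exact this (hR j hj)
    · intro i
      refine Fin.cases ?_ (fun i => ?_) i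
      · exact hj
      · rw [Fin.cons_succ]
        exact (hsub _ (hf2 i)).1
    · intro i l hil
      induction i using Fin.cases with
      | zero =>
        induction l using Fin.cases with
        | zero => exact absurd hil (lt_irrefl _)
        | succ l =>
          rw [Fin.cons_zero, Fin.cons_succ]
          exact (hsub _ (hf2 l)).2
      | succ i =>
        induction l using Fin.cases with
        | zero => exact absurd hil (by simp)
        | succ l =>
          rw [Fin.cons_succ, Fin.cons_succ]
          exact hf3 i l (by simpa using hil)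

end Pool.Agent.H54.AD
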