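import Pool.Agent.H54.AD.Defs

set_option autoImplicit false

/-!
# Two short vectors of a planar lattice
-/

namespace Pool.Agent.H54.AD

open UpperHalfPlane in
theorem two : S_TWO := by
  intro θ H η hH hη
  have hy : 0 < η / H := by positivity
  obtain ⟨g, hg⟩ := ModularGroup.exists_smul_mem_fd (⟨⟨-θ, η / H⟩, hy⟩ : ℍ)
  set z : ℍ := ⟨⟨-θ, η / H⟩, hy⟩ with hz
  set A : ℤ := g.1 0 0 with hA
  set B : ℤ := g.1 0 1 with hB
  set C : ℤ := g.1 1 0 with hC
  set D : ℤ := g.1 1 1 with hD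
  have hdet : A * D - C * B = 1 := by
    have := g.2
    rw [Matrix.det_fin_two] at this
    rw [hA, hB, hC, hD]
    linarith
  set N1 : ℝ := (A * (-θ) + B) ^ 2 + (A * (η / H)) ^ 2 with hN1
  set N2 : ℝ := (C * (-θ) + D) ^ 2 + (C * (η / H)) ^ 2 with hN2
  have hw : ((g • z : ℍ) : ℂ) = ((A : ℂ) * z + B) / ((C : ℂ) * z + D) := by
    have := UpperHalfPlane.coe_specialLinearGroup_apply g z
    simpa using this
  have hnum : Complex.normSq ((A : ℂ) * z + B) = N1 := by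
    rw [Complex.normSq_apply, hN1, hz]
    simp
    ring
  have hden : Complex.normSq ((C : ℂ) * z + D) = N2 := by
    rw [Complex.normSq_apply, hN2, hz]
    simp
    ring
  have him : (g • z : ℍ).im = (η / H) / N2 := by
    have h1 : (g • z : ℍ).im = (((g • z : ℍ) : ℂ)).im := rfl
    rw [h1, hw, Complex.div_im, hden, hz]
    simp
    rw [← sub_div]
    congr 1
    have h2 : ((A : ℝ) * D - C * B) = 1 := by exact_mod_cast hdet
    linear_combination (η / H) * h2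
  have him0 : 0 < (g • z : ℍ).im := (g • z).im_pos
  have hN2pos : 0 < N2 := by
    have h1 : 0 ≤ N2 := by positivity
    rcases h1.lt_or_eq with h | h
    · exact h
    · rw [him, ← h, div_zero] at him0
      exact absurd him0 (lt_irrefl _)
  have hns : Complex.normSq ((g • z : ℍ) : ℂ) = N1 / N2 := by
    rw [hw, map_div₀, hnum, hden]
  have h34 := ModularGroup.three_le_four_mul_im_sq_of_mem_fd hg
  have hre : |(g • z : ℍ).re| ≤ 1 / 2 := hg.2
  have hle : N1 / N2 ≤ 4 / 3 * (g • z : ℍ).im ^ 2 := by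
    rw [← hns, Complex.normSq_apply]
    have h1 : (((g • z : ℍ) : ℂ)).re = (g • z : ℍ).re := rfl
    have h2 : (((g • z : ℍ) : ℂ)).im = (g • z : ℍ).im := rfl
    rw [h1, h2]
    have h3 : (g • z : ℍ).re ^ 2 ≤ (1 / 2) ^ 2 := by
      rw [← sq_abs]
      exact pow_le_pow_left₀ (abs_nonneg _) hre 2
    nlinarith
  have hN : N1 * N2 ≤ 4 / 3 * (η / H) ^ 2 := by
    rw [him, div_pow, div_le_iff₀ hN2pos] at hle
    have h1 : 4 / 3 * ((η / H) ^ 2 / N2 ^ 2) * N2 = 4 / 3 * (η / H) ^ 2 / N2 := by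
      field_simp
    rw [h1, le_div_iff₀ hN2pos] at hle
    exact hle
  refine ⟨A, B, C, D, by linarith, ?_⟩
  have hP : ∀ a c : ℤ, (|(a : ℝ)| * η + |a * θ - c| * H) ^ 2 ≤
      2 * H ^ 2 * ((a * (-θ) + c) ^ 2 + (a * (η / H)) ^ 2) := by
    intro a c
    have h1 : H ^ 2 * (a * (η / H)) ^ 2 = (|(a : ℝ)| * η) ^ 2 := by
      rw [mul_pow, mul_pow, sq_abs]
      field_simp
    have h2 : H ^ 2 * (a * (-θ) + c) ^ 2 = (|a * θ - c| * H) ^ 2 := by
      rw [mul_pow, sq_abs]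
      ring
    have h3 := sq_nonneg (|(a : ℝ)| * η - |a * θ - c| * H)
    nlinarith
  have hP1 := hP A B
  have hP2 := hP C D
  rw [← hN1] at hP1
  rw [← hN2] at hP2
  have h0 : ∀ a c : ℤ, 0 ≤ |(a : ℝ)| * η + |a * θ - c| * H := fun a c => by positivity
  apply (sq_le_sq₀ (mul_nonneg (h0 A B) (h0 C D)) (by positivity)).1
  rw [mul_pow]
  calc (|(A : ℝ)| * η + |A * θ - B| * H) ^ 2 * (|(C : ℝ)| * η + |C * θ - D| * H) ^ 2
      ≤ (2 * H ^ 2 * N1) * (2 * H ^ 2 * N2) :=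
        mul_le_mul hP1 hP2 (sq_nonneg _) (by positivity)
    _ = 4 * H ^ 4 * (N1 * N2) := by ring
    _ ≤ 4 * H ^ 4 * (4 / 3 * (η / H) ^ 2) := by gcongr
    _ = 16 / 3 * (η * H) ^ 2 := by field_simp; ring
    _ ≤ (4 * η * H) ^ 2 := by nlinarith [sq_nonneg (η * H)]

end Pool.Agent.H54.AD
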