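import Mathlib
import Pool.Agent.H54.AD.Defs

set_option autoImplicit false
set_option linter.unusedVariables false

/-!
# The zero estimate
-/

namespace Pool.Agent.H54.AD

open Polynomial
open Pool.Agent.W237.RK
open Pool.Agent.H58P (Qb ht)

namespace ZEA

/-! ### bidegrees -/

theorem biDeg_mono {R : Type*} [Semiring R] {G : PP R} {a b a' b' : ℕ} (h : BiDeg G a b)
    (ha : a ≤ a') (hb : b ≤ b') : BiDeg G a' b' :=
  ⟨h.1.trans hb, fun i => (h.2 i).trans ha⟩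

theorem biDeg_one {R : Type*} [Semiring R] : BiDeg (1 : PP R) 0 0 := by
  refine ⟨by simp, fun i => ?_⟩
  rw [coeff_one]
  split_ifs <;> simp

theorem biDeg_mul {R : Type*} [CommSemiring R] {G G' : PP R} {a b a' b' : ℕ} (h : BiDeg G a b)
    (h' : BiDeg G' a' b') : BiDeg (G * G') (a + a') (b + b') := by
  refine ⟨natDegree_mul_le.trans (add_le_add h.1 h'.1), fun i => ?_⟩
  rw [coeff_mul]
  refine natDegree_sum_le_of_forall_le _ _ fun x _ => ?_
  exact natDegree_mul_le.trans (add_le_add (h.2 _) (h'.2 _))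

theorem biDeg_prod {R ι : Type*} [CommSemiring R] (s : Finset ι) (G : ι → PP R) {a b : ℕ}
    (h : ∀ i ∈ s, BiDeg (G i) a b) : BiDeg (∏ i ∈ s, G i) (s.card * a) (s.card * b) := by
  classical
  induction s using Finset.induction_on with
  | empty => simpa using biDeg_one
  | insert i s hi ih =>
    rw [Finset.prod_insert hi, Finset.card_insert_of_notMem hi]
    have h1 := biDeg_mul (h i (Finset.mem_insert_self _ _))
      (ih fun j hj => h j (Finset.mem_insert_of_mem hj))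
    refine biDeg_mono h1 (le_of_eq ?_) (le_of_eq ?_) <;> ring

theorem biDeg_map {R S : Type*} [Semiring R] [Semiring S] (f : R →+* S) {G : PP R} {a b : ℕ}
    (h : BiDeg G a b) : BiDeg (G.map (mapRingHom f)) a b := by
  refine ⟨natDegree_map_le.trans h.1, fun i => ?_⟩
  rw [coeff_map]
  exact natDegree_map_le.trans (h.2 i)

/-! ### evaluation -/

theorem ev_map {R S : Type*} [CommSemiring R] [CommSemiring S] (f : R →+* S) (u v : S)
    (G : PP R) : ev (RingHom.id S) u v (G.map (mapRingHom f)) = ev f u v G := by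
  unfold ev
  rw [eval₂_map]
  congr 1
  ext x
  · simp
  · simp

theorem ev_prod {R S ι : Type*} [CommSemiring R] [CommSemiring S] (f : R →+* S) (u v : S)
    (s : Finset ι) (G : ι → PP R) : ev f u v (∏ i ∈ s, G i) = ∏ i ∈ s, ev f u v (G i) := by
  exact map_prod (eval₂RingHom (eval₂RingHom f u) v) G s

theorem ev_fix {E : GF} {ρ : Aut} (hρ : Fix E ρ) (u v : Qb) (G : PP E) :
    ev (algebraMap E Qb) (ρ u) (ρ v) G = ρ (ev (algebraMap E Qb) u v G) := by
  unfold ev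
  have h1 : ρ (eval₂ (eval₂RingHom (algebraMap E Qb) u) v G) =
      (ρ : Qb →+* Qb) (eval₂ (eval₂RingHom (algebraMap E Qb) u) v G) := rfl
  rw [h1, hom_eval₂]
  congr 1
  ext x
  · simp only [RingHom.comp_apply, coe_eval₂RingHom, eval₂_C, RingHom.coe_coe]
    exact (hρ _ x.2).symm
  · simp

/-! ### conjugates -/

theorem orb2_finite (E : GF) (u v : Qb) : (orb2 E u v).Finite := by
  have hf : ∀ x : Qb, ((minpoly ℚ x).rootSet Qb).Finite := fun x => rootSet_finite _ _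
  refine ((hf u).prod (hf v)).subset ?_
  rintro _ ⟨ρ, _, rfl⟩
  have hm : ∀ x : Qb, ρ x ∈ (minpoly ℚ x).rootSet Qb := by
    intro x
    have hx : IsIntegral ℚ x := (AlgebraicClosure.isAlgebraic ℚ).isIntegral.isIntegral x
    rw [mem_rootSet]
    refine ⟨minpoly.ne_zero hx, ?_⟩
    have := minpoly.aeval ℚ x
    have h2 : aeval (ρ x) (minpoly ℚ x) = ρ (aeval x (minpoly ℚ x)) := by
      rw [aeval_algHom_apply]
    rw [h2, this, map_zero]
  exact ⟨hm u, hm v⟩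

theorem mem_orb2_self (E : GF) (u v : Qb) : (u, v) ∈ orb2 E u v :=
  ⟨1, fun x _ => rfl, rfl⟩

theorem pow_mem {E : GF} {σ : Aut} (hσ : ∀ x ∈ E, σ x ∈ E) (n : ℕ) {x : Qb} (hx : x ∈ E) :
    (σ ^ n) x ∈ E := by
  induction n with
  | zero => simpa using hx
  | succ n ih =>
    rw [pow_succ']
    exact hσ _ ih

theorem symm_mem {E : GF} [FiniteDimensional ℚ E] {σ : Aut} (hσ : ∀ x ∈ E, σ x ∈ E) {x : Qb}
    (hx : x ∈ E) : σ.symm x ∈ E := by
  let g : E →ₗ[ℚ] E := LinearMap.restrict (p := E.toSubmodule) (q := E.toSubmodule)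
    (σ : Qb →ₐ[ℚ] Qb).toLinearMap hσ
  have hg : Function.Injective g := by
    intro a b hab
    apply Subtype.ext
    apply σ.injective
    exact congrArg Subtype.val hab
  obtain ⟨y, hy⟩ := (LinearMap.injective_iff_surjective.1 hg) ⟨x, hx⟩
  have h1 : σ (y : Qb) = x := congrArg Subtype.val hy
  rw [← h1, AlgEquiv.symm_apply_apply]
  exact y.2

theorem pow_symm_mem {E : GF} [FiniteDimensional ℚ E] {σ : Aut} (hσ : ∀ x ∈ E, σ x ∈ E) (n : ℕ)
    {x : Qb} (hx : x ∈ E) : (σ ^ n).symm x ∈ E :=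
  symm_mem (σ := σ ^ n) (fun _ h => pow_mem hσ n h) hx

/-- the conjugates of a level are levels of conjugates -/
theorem orb2_pt_sub {E : GF} {σ : Aut} (hσ : ∀ x ∈ E, σ x ∈ E) (q e : ℕ) (u v : Qb) (j : ℕ) :
    orb2 E (pt σ q e u j) (pt σ q e v j) ⊆
      (fun y : Qb × Qb => (pt σ q e y.1 j, pt σ q e y.2 j)) '' orb2 E u v := by
  rintro _ ⟨ρ, hρ, rfl⟩
  set s : Aut := σ ^ (e - j)
  set ρ' : Aut := s⁻¹ * ρ * s with hρ'
  have hs : ∀ x, s (ρ' x) = ρ (s x) := by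
    intro x
    rw [hρ']
    simp only [AlgEquiv.mul_apply]
    exact s.apply_symm_apply _
  refine ⟨(ρ' u, ρ' v), ⟨ρ', fun x hx => ?_, rfl⟩, ?_⟩
  · apply s.injective
    rw [hs, hρ _ (pow_mem hσ _ hx)]
  · have h1 : ∀ x, pt σ q e (ρ' x) j = ρ (pt σ q e x j) := by
      intro x
      unfold pt
      rw [hs, map_pow]
    simp only [h1]

/-- a polynomial over `E` that vanishes at a level of `(u, v)` vanishes at the level of all
conjugates -/
theorem ev_conj {E : GF} [FiniteDimensional ℚ E] {σ : Aut} (hσ : ∀ x ∈ E, σ x ∈ E) (q e : ℕ)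
    (u v : Qb) (j : ℕ) (G : PP E) {y : Qb × Qb} (hy : y ∈ orb2 E u v) :
    ev (algebraMap E Qb) (pt σ q e y.1 j) (pt σ q e y.2 j) G = 0 ↔
      ev (algebraMap E Qb) (pt σ q e u j) (pt σ q e v j) G = 0 := by
  obtain ⟨ρ, hρ, rfl⟩ := hy
  set s : Aut := σ ^ (e - j)
  set ρ' : Aut := s * ρ * s⁻¹ with hρ'
  have hs : ∀ x, ρ' (s x) = s (ρ x) := by
    intro x
    rw [hρ']
    simp only [AlgEquiv.mul_apply]
    congr 2
    exact s.symm_apply_apply _
  have hfix : Fix E ρ' := by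
    intro x hx
    have h1 : x = s (s.symm x) := (s.apply_symm_apply x).symm
    have h2 : ρ (s.symm x) = s.symm x := hρ _ (pow_symm_mem hσ _ hx)
    calc ρ' x = ρ' (s (s.symm x)) := by rw [← h1]
      _ = s (ρ (s.symm x)) := hs _
      _ = x := by rw [h2, ← h1]
  have h1 : ∀ x, pt σ q e (ρ x) j = ρ' (pt σ q e x j) := by
    intro x
    unfold pt
    rw [map_pow, hs]
  show ev (algebraMap E Qb) (pt σ q e (ρ u) j) (pt σ q e (ρ v) j) G = 0 ↔ _
  rw [h1, h1, ev_fix hfix]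
  exact map_eq_zero_iff ρ' ρ'.injective

/-! ### arithmetic -/

theorem choose_ab (b₁ b₂ D : ℕ) (h1 : 1 ≤ b₁) (h2 : 1 ≤ b₂) (hD : 1 ≤ D) (h : D < b₁ * b₂) :
    ∃ n₁ n₂, 1 ≤ n₁ ∧ n₁ ≤ b₁ ∧ 1 ≤ n₂ ∧ n₂ ≤ b₂ ∧ D < n₁ * n₂ ∧ n₁ * n₂ ≤ 2 * D := by
  by_cases hb : b₁ ≤ D
  · refine ⟨b₁, D / b₁ + 1, h1, le_rfl, Nat.succ_le_succ (Nat.zero_le _), ?_, ?_, ?_⟩
    · exact Nat.div_lt_of_lt_mul h
    · exact Nat.lt_mul_div_succ D (by omega)
    · have := Nat.mul_div_le D b₁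
      calc b₁ * (D / b₁ + 1) = b₁ * (D / b₁) + b₁ := by ring
        _ ≤ D + D := by omega
        _ = 2 * D := by ring
  · exact ⟨D + 1, 1, by omega, by omega, le_rfl, h2, by omega, by omega⟩

theorem rk_pos {Ω ι : Type*} [Field Ω] (N₁ N₂ : ℕ) (h1 : 1 ≤ N₁) (h2 : 1 ≤ N₂) (u v : ι → Ω)
    (S : Set ι) (hS : S.Nonempty) : 0 < rk N₁ N₂ u v S := by
  unfold rk
  obtain ⟨x, hx⟩ := hS
  rw [Module.finrank_pos_iff]
  have hmem : row N₁ N₂ (u x) (v x) ∈ Submodule.span Ω ((fun x => row N₁ N₂ (u x) (v x)) '' S) :=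
    Submodule.subset_span ⟨x, hx, rfl⟩
  refine ⟨⟨⟨_, hmem⟩, 0, fun h => ?_⟩⟩
  have h3 : row N₁ N₂ (u x) (v x) = 0 := congrArg Subtype.val h
  have h4 := congrFun h3 (⟨0, h1⟩, ⟨0, h2⟩)
  simp [row] at h4

end ZEA

open ZEA

theorem zea : S_PIG → S_SEL → S_PRM → S_HALF → S_IND → S_ZE3 → S_ZEA := by
  intro hPIG hSEL hPRM hHALF hIND hZE3 Q₁ L hQ₁ hL
  classical
  set B : ℕ := 4 * Q₁ ^ (2 * L) with hB
  set M : ℕ := 8 * L * (B + 1) with hM
  have hM0 : 0 < M := by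
    rw [hM]
    exact Nat.mul_pos (by omega) (by omega)
  refine ⟨L * M, Nat.mul_pos (by omega) hM0, ?_⟩
  intro E σ q e H N₁ N₂ u v hE hσ hq hqQ hu hv hind hTR hHe hN₁ hN₂ hN
  set D : ℕ := (orb2 E u v).ncard with hDdef
  have hD : 1 ≤ D := by
    rw [hDdef, Nat.succ_le_iff, Set.ncard_pos (orb2_finite E u v)]
    exact ⟨_, mem_orb2_self E u v⟩
  -- the bidegrees
  set b₁ : ℕ := N₁ / (2 * L) with hb₁
  set b₂ : ℕ := N₂ / (2 * L) with hb₂
  have hb1 : 1 ≤ b₁ := Nat.div_pos hN₁ (by omega)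
  have hb2 : 1 ≤ b₂ := Nat.div_pos hN₂ (by omega)
  have hlt : ∀ N b : ℕ, b = N / (2 * L) → 1 ≤ b → N < 4 * L * b := by
    intro N b hb hb1
    have h1 : N < (2 * L) * (N / (2 * L) + 1) := Nat.lt_mul_div_succ N (by omega)
    rw [← hb] at h1
    calc N < 2 * L * (b + 1) := h1
      _ ≤ 2 * L * (b + b) := by gcongr
      _ = 4 * L * b := by ring
  have hDb : D < b₁ * b₂ := by
    have h1 := hlt N₁ b₁ hb₁ hb1
    have h2 := hlt N₂ b₂ hb₂ hb2
    have h3 : N₁ * N₂ ≤ (4 * L * b₁) * (4 * L * b₂) := Nat.mul_le_mul h1.le h2.le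
    have h4 : 32 * L ^ 2 * D ≤ 16 * L ^ 2 * (b₁ * b₂) := by
      calc 32 * L ^ 2 * D ≤ N₁ * N₂ := hN
        _ ≤ _ := h3
        _ = _ := by ring
    have h5 : 16 * L ^ 2 * (2 * D) ≤ 16 * L ^ 2 * (b₁ * b₂) := by
      calc 16 * L ^ 2 * (2 * D) = 32 * L ^ 2 * D := by ring
        _ ≤ _ := h4
    have h6 : 2 * D ≤ b₁ * b₂ := Nat.le_of_mul_le_mul_left h5 (by positivity)
    omega
  obtain ⟨n₁, n₂, hn1, hn1b, hn2, hn2b, hDn, hnD⟩ := choose_ab b₁ b₂ D hb1 hb2 hD hDb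
  -- the prime polynomials
  have hG : ∀ j : ℕ, ∃ G : PP E, Prime G ∧ BiDeg G (n₁ - 1) (n₂ - 1) ∧
      ev (algebraMap E Qb) (pt σ q e u j) (pt σ q e v j) G = 0 := by
    intro j
    refine hPRM E _ _ n₁ n₂ hE (lt_of_le_of_lt ?_ hDn)
    calc (orb2 E (pt σ q e u j) (pt σ q e v j)).ncard
        ≤ ((fun y : Qb × Qb => (pt σ q e y.1 j, pt σ q e y.2 j)) '' orb2 E u v).ncard :=
          Set.ncard_le_ncard (orb2_pt_sub hσ q e u v j) ((orb2_finite E u v).image _)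
      _ ≤ D := Set.ncard_image_le (orb2_finite E u v)
  choose G hGp hGd hGz using hG
  set I : Finset ℕ := Finset.Ico H (H + L * M) with hI
  set Rel : ℕ → ℕ → Prop := fun j k =>
    ev (algebraMap E Qb) (pt σ q e u k) (pt σ q e v k) (G j) = 0 with hRel
  have hfew : ∀ j ∈ I, (I.filter (fun k => Rel j k)).card < M := by
    intro j _
    by_contra hcon
    rw [not_lt] at hcon
    set 𝒦 := I.filter (fun k => Rel j k) with h𝒦
    obtain ⟨m, hm0, hmL, hBm⟩ := hPIG L B H hL 𝒦 (Finset.filter_subset _ _) hcon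
    have h1 := hZE3 E σ q e u v hE hσ hq hu hv hind hTR (G j) (n₁ - 1) (n₂ - 1) (hGp j) (hGd j)
      (𝒦.filter (fun j => j + m ∈ 𝒦)) m hm0 (by
        intro k hk
        rw [Finset.mem_filter] at hk
        have h2 := (Finset.mem_filter.1 hk.1).2
        have h3 := Finset.mem_filter.1 hk.2
        have h4 := Finset.mem_Ico.1 h3.1
        exact ⟨by omega, h2, h3.2⟩)
    have h2 : 2 * q ^ m * ((n₁ - 1) * (n₂ - 1)) ≤ B * D := by
      calc 2 * q ^ m * ((n₁ - 1) * (n₂ - 1)) ≤ 2 * q ^ m * (n₁ * n₂) := by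
            gcongr <;> omega
        _ ≤ 2 * q ^ m * (2 * D) := by gcongr
        _ ≤ 2 * Q₁ ^ (2 * L) * (2 * D) := by
            have h6 : q ^ m ≤ Q₁ ^ (2 * L) :=
              (Nat.pow_le_pow_left hqQ m).trans (Nat.pow_le_pow_right (by omega) hmL.le)
            exact Nat.mul_le_mul_right _ (Nat.mul_le_mul_left _ h6)
        _ = B * D := by rw [hB]; ring
    have h3 : (B + 1) * D ≤ (𝒦.filter (fun j => j + m ∈ 𝒦)).card * D := by
      gcongr
      omega
    have h4 : (B + 1) * D ≤ B * D := h3.trans (h1.trans h2)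
    have h5 : (B + 1) * D = B * D + D := by ring
    omega
  obtain ⟨f, hfinj, hfI, hfR⟩ := hSEL L M I Rel hM0 (by rw [hI, Nat.card_Ico]; omega)
    (fun j _ => hGz j) (fun j hj => by convert hfew j hj)
  -- the sets of points and the polynomials
  set S : Fin L → Set (ℕ × (Qb × Qb)) := fun i => {x | x.1 = f i ∧ x.2 ∈ orb2 E u v} with hS
  set U : ℕ × (Qb × Qb) → Qb := fun x => pt σ q e x.2.1 x.1 with hU
  set V : ℕ × (Qb × Qb) → Qb := fun x => pt σ q e x.2.2 x.1 with hV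
  set GG : Fin L → PP Qb := fun i =>
    ∏ l ∈ Finset.univ.filter (fun l => l < i), (G (f l)).map (mapRingHom (algebraMap E Qb)) with hGG
  have hSfin : ∀ i, (S i).Finite := by
    intro i
    refine ((Set.finite_singleton (f i)).prod (orb2_finite E u v)).subset ?_
    rintro x ⟨h1, h2⟩
    exact ⟨h1, h2⟩
  have hLdiv : ∀ N n : ℕ, n ≤ N / (2 * L) → L * (n - 1) ≤ N / 2 := by
    intro N n hn
    calc L * (n - 1) ≤ L * (N / (2 * L)) := by gcongr; omega
      _ = L * (N / 2 / L) := by rw [Nat.div_div_eq_div_mul]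
      _ ≤ N / 2 := Nat.mul_div_le _ _
  have hGGd : ∀ i, BiDeg (GG i) (N₁ / 2) (N₂ / 2) := by
    intro i
    have h1 := biDeg_prod (Finset.univ.filter (fun l => l < i))
      (fun l => (G (f l)).map (mapRingHom (algebraMap E Qb)))
      (fun l _ => biDeg_map (algebraMap E Qb) (hGd (f l)))
    have hc : (Finset.univ.filter (fun l : Fin L => l < i)).card ≤ L := by
      calc _ ≤ (Finset.univ : Finset (Fin L)).card := Finset.card_filter_le _ _
        _ = L := by simp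
    refine biDeg_mono h1 ?_ ?_
    · calc _ ≤ L * (n₁ - 1) := by gcongr
        _ ≤ _ := hLdiv _ _ hn1b
    · calc _ ≤ L * (n₂ - 1) := by gcongr
        _ ≤ _ := hLdiv _ _ hn2b
  have hev : ∀ i x, ev (RingHom.id Qb) (U x) (V x) (GG i) =
      ∏ l ∈ Finset.univ.filter (fun l => l < i), ev (algebraMap E Qb) (U x) (V x) (G (f l)) := by
    intro i x
    rw [hGG]
    simp only
    rw [ev_prod]
    exact Finset.prod_congr rfl fun l _ => ev_map _ _ _ _
  obtain ⟨R, hRS, hRc, hRi⟩ := hIND Qb (ℕ × (Qb × Qb)) L N₁ N₂ (N₁ / 2) (N₂ / 2) U V S GG hSfin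
    hGGd (Nat.div_le_self _ _) (Nat.div_le_self _ _)
    (by
      intro i l hli x hx
      rw [hev]
      refine Finset.prod_eq_zero (i := l) (by simp [hli]) ?_
      have h1 : x.1 = f l := hx.1
      show ev (algebraMap E Qb) (pt σ q e x.2.1 x.1) (pt σ q e x.2.2 x.1) (G (f l)) = 0
      rw [h1, ev_conj hσ q e u v (f l) (G (f l)) hx.2]
      exact hGz (f l))
    (by
      intro i x hx
      rw [hev]
      refine Finset.prod_ne_zero_iff.2 fun l hl => ?_
      have hli : l < i := (Finset.mem_filter.1 hl).2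
      have h1 : x.1 = f i := hx.1
      show ev (algebraMap E Qb) (pt σ q e x.2.1 x.1) (pt σ q e x.2.2 x.1) (G (f l)) ≠ 0
      rw [h1]
      intro h2
      rw [ev_conj hσ q e u v (f i) (G (f l)) hx.2] at h2
      exact hfR l i hli h2)
  -- the level with the smallest rank
  have hLne : (Finset.univ : Finset (Fin L)).Nonempty := ⟨⟨0, hL⟩, Finset.mem_univ _⟩
  obtain ⟨i₀, _, hi₀⟩ := Finset.exists_min_image Finset.univ (fun i => rk N₁ N₂ U V (S i)) hLne
  have hrk : rk N₁ N₂ (fun y : Qb × Qb => pt σ q e y.1 (f i₀)) (fun y => pt σ q e y.2 (f i₀))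
      (orb2 E u v) = rk N₁ N₂ U V (S i₀) := by
    unfold rk
    have himg : (fun x : Qb × Qb => row N₁ N₂ (pt σ q e x.1 (f i₀)) (pt σ q e x.2 (f i₀))) '' orb2 E u v =
        (fun x => row N₁ N₂ (U x) (V x)) '' S i₀ := by
      ext w
      constructor
      · rintro ⟨y, hy, rfl⟩
        exact ⟨(f i₀, y), ⟨rfl, hy⟩, rfl⟩
      · rintro ⟨x, ⟨h1, h2⟩, rfl⟩
        refine ⟨x.2, h2, ?_⟩
        show row N₁ N₂ (pt σ q e x.2.1 (f i₀)) (pt σ q e x.2.2 (f i₀)) =
          row N₁ N₂ (pt σ q e x.2.1 x.1) (pt σ q e x.2.2 x.1)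
        rw [h1]
    rw [himg]
  have hdisj : (Set.univ : Set (Fin L)).PairwiseDisjoint R := by
    intro i _ l _ hil
    rw [Function.onFun, Finset.disjoint_left]
    intro x hx hx'
    have h1 := (hRS i x hx).1
    have h2 := (hRS l x hx').1
    exact hil (hfinj (h1.symm.trans h2))
  have hcard : (Finset.univ.biUnion R).card = ∑ i, (R i).card :=
    Finset.card_biUnion fun i _ l _ hil => hdisj (Set.mem_univ _) (Set.mem_univ _) hil
  have hhalf : ∀ i, rk N₁ N₂ U V (S i) ≤ 4 * (R i).card := by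
    intro i
    rw [hRc i]
    exact hHALF Qb _ N₁ N₂ (N₁ - N₁ / 2) (N₂ - N₂ / 2) U V (S i) (hSfin i) (by omega) (by omega)
  refine ⟨f i₀, Finset.univ.biUnion R, ?_, ?_, ?_, ?_, ?_, ?_⟩
  · exact (Finset.mem_Ico.1 (hfI i₀)).1
  · exact (Finset.mem_Ico.1 (hfI i₀)).2
  · intro x hx
    obtain ⟨i, _, hi⟩ := Finset.mem_biUnion.1 hx
    obtain ⟨h1, h2⟩ := hRS i x hi
    have h3 := Finset.mem_Ico.1 (hfI i)
    rw [h1]
    exact ⟨h3.1, h3.2, h2⟩
  · rw [hcard]
    have h1 : 0 < (R i₀).card := by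
      rw [hRc i₀]
      exact rk_pos _ _ (by omega) (by omega) _ _ _ ⟨(f i₀, (u, v)), rfl, mem_orb2_self E u v⟩
    exact lt_of_lt_of_le h1 (Finset.single_le_sum (f := fun i => (R i).card)
      (fun i _ => Nat.zero_le _) (Finset.mem_univ i₀))
  · rw [hrk, hcard]
    calc L * rk N₁ N₂ U V (S i₀) = ∑ _i : Fin L, rk N₁ N₂ U V (S i₀) := by simp
      _ ≤ ∑ i : Fin L, rk N₁ N₂ U V (S i) := Finset.sum_le_sum fun i _ => hi₀ i (Finset.mem_univ i)
      _ ≤ ∑ i : Fin L, 4 * (R i).card := Finset.sum_le_sum fun i _ => hhalf i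
      _ = 4 * ∑ i, (R i).card := by rw [Finset.mul_sum]
  · have hex : ∀ x : (Finset.univ.biUnion R : Finset (ℕ × (Qb × Qb))), ∃ i, (x : ℕ × (Qb × Qb)) ∈ R i := by
      intro x
      obtain ⟨i, _, hi⟩ := Finset.mem_biUnion.1 x.2
      exact ⟨i, hi⟩
    choose g hg using hex
    have := hRi.comp (fun x : (Finset.univ.biUnion R : Finset (ℕ × (Qb × Qb))) =>
      (⟨g x, ⟨x.1, hg x⟩⟩ : Σ i, R i)) (by
        intro x y hxy
        have h2 : x.1 = y.1 := congrArg (fun z : (Σ i, R i) => (z.2 : ℕ × (Qb × Qb))) hxy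
        exact Subtype.ext h2)
    exact this

end Pool.Agent.H54.AD
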