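import Pool.Agent.H54.AD.Defs

/-! S_ZP1: a curve containing all the points `(u ^ (N ^ i), v ^ (N ^ i))` (helper63) -/

set_option autoImplicit false

namespace Pool.Agent.H54.AD.Zp1

open Polynomial Filter Topology

section dyn

variable {𝕜 : Type*} [NormedField 𝕜]

lemma norm_one_sub_pow_le (x : 𝕜) (hx : ‖x‖ = 1) (m : ℕ) : ‖1 - x ^ m‖ ≤ m * ‖1 - x‖ := by
  rw [← mul_neg_geom_sum, norm_mul, mul_comm]
  apply mul_le_mul_of_nonneg_right _ (norm_nonneg _)
  calc ‖∑ i ∈ Finset.range m, x ^ i‖ ≤ ∑ i ∈ Finset.range m, ‖x ^ i‖ := norm_sum_le _ _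
    _ = m := by simp [norm_pow, hx]

/-- a point where `Q` is small is close to a root -/
lemma near_root [IsAlgClosed 𝕜] (Q : 𝕜[X]) (hQ : Q ≠ 0) (w : 𝕜) (δ : ℝ) (hδ : 0 < δ)
    (h : ‖Q.eval w‖ < ‖Q.leadingCoeff‖ * δ ^ Q.natDegree) :
    ∃ c ∈ Q.roots, ‖w - c‖ ≤ δ := by
  by_contra hcon
  push Not at hcon
  have h1 : Q = C Q.leadingCoeff * (Q.roots.map (fun a => X - C a)).prod :=
    (IsAlgClosed.splits Q).eq_prod_roots
  have hcard : Multiset.card Q.roots = Q.natDegree := (IsAlgClosed.splits Q).natDegree_eq_card_roots.symm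
  have h2 : Q.eval w = Q.leadingCoeff * (Q.roots.map (fun a => w - a)).prod := by
    conv_lhs => rw [h1]
    rw [eval_mul, eval_C, eval_multiset_prod, Multiset.map_map]
    simp
  rw [h2, norm_mul] at h
  have h3 : ∀ s : Multiset 𝕜, (∀ c ∈ s, δ < ‖w - c‖) →
      δ ^ (Multiset.card s) ≤ ‖(s.map (fun a => w - a)).prod‖ := by
    intro s
    induction s using Multiset.induction_on with
    | empty => simp
    | cons a s ih =>
      intro hs
      rw [Multiset.card_cons, Multiset.map_cons, Multiset.prod_cons, norm_mul, pow_succ, mul_comm]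
      apply mul_le_mul (hs a (Multiset.mem_cons_self _ _)).le
        (ih (fun c hc => hs c (Multiset.mem_cons_of_mem hc))) (by positivity) (norm_nonneg _)
  have h4 := h3 Q.roots hcon
  rw [hcard] at h4
  have h5 : ‖Q.leadingCoeff‖ * δ ^ Q.natDegree ≤
      ‖Q.leadingCoeff‖ * ‖(Q.roots.map (fun a => w - a)).prod‖ :=
    mul_le_mul_of_nonneg_left h4 (norm_nonneg _)
  linarith

lemma dyn [CharZero 𝕜] [IsAlgClosed 𝕜] (U : 𝕜) (hU : ‖U‖ = 1) (Q : 𝕜[X]) (hQ : Q ≠ 0)
    (K ρ : ℝ) (hρ0 : 0 < ρ) (hρ1 : ρ < 1) (N : ℕ) (hN : 2 ≤ N)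
    (h : ∀ i : ℕ, ‖Q.eval (U ^ (N ^ i))‖ ≤ K * ρ ^ (N ^ i)) : ∃ n : ℕ, 0 < n ∧ U ^ n = 1 := by
  classical
  -- σ with σ ^ (d + 1) = ρ
  set d := Q.natDegree with hd
  obtain ⟨σ, hσ0, hσ1, hσρ⟩ : ∃ σ : ℝ, 0 < σ ∧ σ < 1 ∧ σ ^ (d + 1) = ρ := by
    refine ⟨ρ ^ ((1 : ℝ) / (d + 1 : ℕ)), Real.rpow_pos_of_pos hρ0 _, ?_, ?_⟩
    · exact Real.rpow_lt_one hρ0.le hρ1 (by positivity)
    · rw [← Real.rpow_natCast, ← Real.rpow_mul hρ0.le, one_div, inv_mul_cancel₀, Real.rpow_one]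
      positivity
  have hNpos : 0 < N := by omega
  have hpow : Tendsto (fun i : ℕ => N ^ i) atTop atTop :=
    tendsto_pow_atTop_atTop_of_one_lt (by omega)
  have hσt : Tendsto (fun i : ℕ => σ ^ (N ^ i)) atTop (𝓝 0) :=
    (tendsto_pow_atTop_nhds_zero_of_lt_one hσ0.le hσ1).comp hpow
  have hlc : 0 < ‖Q.leadingCoeff‖ := norm_pos_iff.2 (leadingCoeff_ne_zero.2 hQ)
  -- for large i: K σ^(N^i) < ‖lc‖
  have hev : ∀ᶠ i : ℕ in atTop, K * σ ^ (N ^ i) < ‖Q.leadingCoeff‖ := by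
    have := hσt.const_mul K
    rw [mul_zero] at this
    exact this.eventually (gt_mem_nhds hlc)
  obtain ⟨i0, hi0⟩ := eventually_atTop.1 hev
  have hroot : ∀ i, i0 ≤ i → ∃ c ∈ Q.roots, ‖U ^ (N ^ i) - c‖ ≤ σ ^ (N ^ i) := by
    intro i hi
    apply near_root Q hQ _ _ (by positivity)
    refine lt_of_le_of_lt (h i) ?_
    have h1 : ρ ^ (N ^ i) = σ ^ (N ^ i) * (σ ^ (N ^ i)) ^ d := by
      rw [← hσρ, ← pow_mul, ← pow_mul, ← pow_add]
      congr 1
      ring
    rw [h1, ← mul_assoc]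
    apply mul_lt_mul_of_pos_right (hi0 i hi) (by positivity)
  -- pigeonhole
  set r := Q.roots.toFinset.card with hr
  set n0 := ∏ s ∈ Finset.range r, (N ^ (s + 1) - 1) with hn0
  have hNs : ∀ s : ℕ, 0 < N ^ (s + 1) - 1 := by
    intro s
    have : 1 < N ^ (s + 1) := Nat.one_lt_pow (by omega) (by omega)
    omega
  have hn0pos : 0 < n0 := Finset.prod_pos (fun s _ => hNs s)
  have hWnorm : ∀ i, ‖U ^ i‖ = 1 := fun i => by rw [norm_pow, hU, one_pow]
  set V : ℕ → 𝕜 := fun i => U ^ (n0 * N ^ i) with hV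
  have hVs : ∀ i s, V (i + s) = (V i) ^ (N ^ s) := by
    intro i s
    simp only [hV, ← pow_mul]
    congr 1
    rw [pow_add]; ring
  have hVnorm : ∀ i, ‖V i‖ = 1 := fun i => hWnorm _
  set B : ℝ := 2 * n0 * N ^ r with hB
  have hBpos : 0 < B := by
    have : (0 : ℝ) < n0 := by exact_mod_cast hn0pos
    have : (0 : ℝ) < N := by exact_mod_cast hNpos
    positivity
  have hup : ∀ i, i0 ≤ i → ‖1 - V (i + r)‖ ≤ B * σ ^ (N ^ i) := by
    intro i hi
    -- choose roots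
    choose! c hc1 hc2 using hroot
    have hmaps : Set.MapsTo (fun s => c (i + s)) (Finset.range (r + 1) : Set ℕ) (Q.roots.toFinset : Set 𝕜) := by
      intro s _
      simp only [Finset.mem_coe, Multiset.mem_toFinset]
      exact hc1 _ (by omega)
    obtain ⟨s, hs, s', hs', hne, heq⟩ := Finset.exists_ne_map_eq_of_card_lt_of_maps_to
      (s := Finset.range (r + 1)) (t := Q.roots.toFinset) (by simp [hr]) hmaps
    -- wlog s < s'
    have key : ∀ s s' : ℕ, s ≤ r → s' ≤ r → s < s' → c (i + s) = c (i + s') →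
        ‖1 - V (i + r)‖ ≤ B * σ ^ (N ^ i) := by
      intro s s' hs hs' hlt heq
      have hσmono : ∀ j, i ≤ j → σ ^ (N ^ j) ≤ σ ^ (N ^ i) := fun j hj =>
        pow_le_pow_of_le_one hσ0.le hσ1.le (Nat.pow_le_pow_right hNpos hj)
      have h1 : ‖U ^ (N ^ (i + s)) - U ^ (N ^ (i + s'))‖ ≤ 2 * σ ^ (N ^ i) := by
        have e1 : U ^ (N ^ (i + s)) - U ^ (N ^ (i + s')) =
            (U ^ (N ^ (i + s)) - c (i + s)) - (U ^ (N ^ (i + s')) - c (i + s')) := by
          rw [heq]; ring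
        rw [e1]
        refine (norm_sub_le _ _).trans ?_
        have h2 := hc2 (i + s) (by omega)
        have h3 := hc2 (i + s') (by omega)
        have h4 := hσmono (i + s) (by omega)
        have h5 := hσmono (i + s') (by omega)
        linarith
      obtain ⟨t, ht⟩ : ∃ t, s' = s + (t + 1) := ⟨s' - s - 1, by omega⟩
      -- W = U^(N^(i+s)), W^(N^(t+1) - 1)
      set W := U ^ (N ^ (i + s)) with hW
      have hWn : ‖W‖ = 1 := hWnorm _
      have h2 : U ^ (N ^ (i + s')) = W * W ^ (N ^ (t + 1) - 1) := by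
        rw [← pow_succ', Nat.sub_add_cancel (by have := hNs t; omega), hW, ← pow_mul, ht,
          ← pow_add, ← add_assoc]
      have h3 : ‖1 - W ^ (N ^ (t + 1) - 1)‖ ≤ 2 * σ ^ (N ^ i) := by
        have e1 : W - W * W ^ (N ^ (t + 1) - 1) = W * (1 - W ^ (N ^ (t + 1) - 1)) := by ring
        rw [h2, e1, norm_mul, hWn, one_mul] at h1
        exact h1
      -- n0 = (N^(t+1) - 1) * m
      have hdvd : (N ^ (t + 1) - 1) ∣ n0 := by
        apply Finset.dvd_prod_of_mem (fun s => N ^ (s + 1) - 1)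
        rw [Finset.mem_range]; omega
      obtain ⟨m, hm⟩ := hdvd
      have hmle : m ≤ n0 := by
        rw [hm]
        exact Nat.le_mul_of_pos_left m (hNs t)
      have h4 : V (i + s) = (W ^ (N ^ (t + 1) - 1)) ^ m := by
        simp only [hV]
        rw [hm, hW, ← pow_mul, ← pow_mul]
        congr 1
        ring
      have h5 : ‖1 - V (i + s)‖ ≤ n0 * (2 * σ ^ (N ^ i)) := by
        rw [h4]
        refine (norm_one_sub_pow_le _ (by rw [norm_pow, hWn, one_pow]) m).trans ?_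
        apply mul_le_mul (by exact_mod_cast hmle) h3 (norm_nonneg _) (by positivity)
      obtain ⟨q, hq⟩ : ∃ q, r = s + q := ⟨r - s, by omega⟩
      have h6 : V (i + r) = (V (i + s)) ^ (N ^ q) := by
        rw [hq, ← add_assoc, hVs]
      rw [h6]
      refine (norm_one_sub_pow_le _ (hVnorm _) _).trans ?_
      have h7 : ((N ^ q : ℕ) : ℝ) ≤ (N : ℝ) ^ r := by
        have : N ^ q ≤ N ^ r := Nat.pow_le_pow_right hNpos (by omega)
        exact_mod_cast this
      calc ((N ^ q : ℕ) : ℝ) * ‖1 - V (i + s)‖ ≤ (N : ℝ) ^ r * (n0 * (2 * σ ^ (N ^ i))) := by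
            apply mul_le_mul h7 h5 (norm_nonneg _) (by positivity)
        _ = B * σ ^ (N ^ i) := by rw [hB]; ring
    rw [Finset.mem_range] at hs hs'
    rcases lt_or_gt_of_ne hne with hlt | hlt
    · exact key s s' (by omega) (by omega) hlt heq
    · exact key s' s (by omega) (by omega) hlt heq.symm
  -- V i → 1
  have hto0 : Tendsto (fun i => ‖1 - V i‖) atTop (𝓝 0) := by
    rw [← tendsto_add_atTop_iff_nat r]
    have h1 : Tendsto (fun i => B * σ ^ (N ^ i)) atTop (𝓝 0) := by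
      have := hσt.const_mul B
      rwa [mul_zero] at this
    apply squeeze_zero' (Eventually.of_forall fun i => norm_nonneg _) _ h1
    filter_upwards [eventually_ge_atTop i0] with i hi using hup i hi
  -- lower bound
  set η : ℝ := ‖(N : 𝕜)‖ / 2 with hη
  have hN0 : (N : 𝕜) ≠ 0 := by exact_mod_cast hNpos.ne'
  have hηpos : 0 < η := by
    have := norm_pos_iff.2 hN0
    positivity
  have hev2 : ∀ᶠ i in atTop, (N : ℝ) * (N * ‖1 - V i‖) < η := by
    have h1 : Tendsto (fun i => (N : ℝ) * (N * ‖1 - V i‖)) atTop (𝓝 ((N : ℝ) * (N * 0))) :=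
      (hto0.const_mul _).const_mul _
    rw [mul_zero, mul_zero] at h1
    exact h1.eventually (gt_mem_nhds hηpos)
  obtain ⟨i1, hi1⟩ := eventually_atTop.1 hev2
  have hlow : ∀ i, i1 ≤ i → η * ‖1 - V i‖ ≤ ‖1 - V (i + 1)‖ := by
    intro i hi
    have h1 : V (i + 1) = V i ^ N := by rw [hVs i 1, pow_one]
    rw [h1, ← mul_neg_geom_sum (V i) N, norm_mul, mul_comm]
    apply mul_le_mul_of_nonneg_left _ (norm_nonneg _)
    have h2 : (N : 𝕜) - ∑ j ∈ Finset.range N, V i ^ j = ∑ j ∈ Finset.range N, (1 - V i ^ j) := by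
      rw [Finset.sum_sub_distrib]; simp
    have h3 : ‖(N : 𝕜) - ∑ j ∈ Finset.range N, V i ^ j‖ ≤ N * (N * ‖1 - V i‖) := by
      rw [h2]
      refine (norm_sum_le _ _).trans ?_
      calc ∑ j ∈ Finset.range N, ‖1 - V i ^ j‖ ≤ ∑ j ∈ Finset.range N, (N * ‖1 - V i‖ : ℝ) := by
            apply Finset.sum_le_sum
            intro j hj
            refine (norm_one_sub_pow_le _ (hVnorm i) j).trans ?_
            apply mul_le_mul_of_nonneg_right _ (norm_nonneg _)
            exact_mod_cast (Finset.mem_range.1 hj).le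
        _ = N * (N * ‖1 - V i‖) := by simp
    have h4 := norm_sub_norm_le (N : 𝕜) (∑ j ∈ Finset.range N, V i ^ j)
    have h5 := hi1 i hi
    have h6 : ‖(N : 𝕜)‖ = 2 * η := by rw [hη]; ring
    linarith
  have hlowk : ∀ k, η ^ k * ‖1 - V i1‖ ≤ ‖1 - V (i1 + k)‖ := by
    intro k
    induction k with
    | zero => simp
    | succ k ih =>
      have h1 := hlow (i1 + k) (by omega)
      calc η ^ (k + 1) * ‖1 - V i1‖ = η * (η ^ k * ‖1 - V i1‖) := by ring
        _ ≤ η * ‖1 - V (i1 + k)‖ := mul_le_mul_of_nonneg_left ih hηpos.le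
        _ ≤ _ := h1
  -- conclusion
  by_cases he : V i1 = 1
  · refine ⟨n0 * N ^ i1, by positivity, he⟩
  exfalso
  have hepos : 0 < ‖1 - V i1‖ := norm_pos_iff.2 (sub_ne_zero.2 (fun h => he h.symm))
  -- L with σ^L ≤ η/2
  obtain ⟨L, hL⟩ : ∃ L : ℕ, σ ^ L < η / 2 :=
    exists_pow_lt_of_lt_one (by positivity) hσ1
  -- k large : L * k ≤ N ^ k
  have hlin : ∀ᶠ k : ℕ in atTop, L * k ≤ N ^ k := by
    have h1 : Tendsto (fun k : ℕ => (k : ℝ) / (N : ℝ) ^ k) atTop (𝓝 0) := by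
      have := tendsto_pow_const_div_const_pow_of_one_lt 1 (r := (N : ℝ)) (by exact_mod_cast (by omega : 1 < N))
      simpa using this
    have h2 : Tendsto (fun k : ℕ => (L : ℝ) * ((k : ℝ) / (N : ℝ) ^ k)) atTop (𝓝 0) := by
      have := h1.const_mul (L : ℝ)
      rwa [mul_zero] at this
    filter_upwards [h2.eventually (gt_mem_nhds one_pos)] with k hk
    have h3 : (0 : ℝ) < (N : ℝ) ^ k := by
      have : (0 : ℝ) < N := by exact_mod_cast hNpos
      positivity
    have h4 : (L : ℝ) * k ≤ (N : ℝ) ^ k := by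
      rw [← mul_div_assoc, div_lt_one h3] at hk
      exact hk.le
    exact_mod_cast h4
  -- η ^ (r + k) e ≤ B (η/2)^k, eventually
  have hfin : ∀ᶠ k : ℕ in atTop, η ^ (i0 + r) * ‖1 - V i1‖ ≤ B * (1 / 2) ^ k := by
    filter_upwards [hlin] with k hk
    have h1 := hlowk (i0 + k + r)
    have h2 := hup (i1 + i0 + k) (by omega)
    have e1 : i1 + (i0 + k + r) = i1 + i0 + k + r := by ring
    rw [e1] at h1
    have h3 : σ ^ (N ^ (i1 + i0 + k)) ≤ (η / 2) ^ k := by
      calc σ ^ (N ^ (i1 + i0 + k)) ≤ σ ^ (N ^ k) :=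
            pow_le_pow_of_le_one hσ0.le hσ1.le (Nat.pow_le_pow_right hNpos (by omega))
        _ ≤ σ ^ (L * k) := pow_le_pow_of_le_one hσ0.le hσ1.le hk
        _ = (σ ^ L) ^ k := pow_mul _ _ _
        _ ≤ (η / 2) ^ k := pow_le_pow_left₀ (by positivity) hL.le k
    have h4 : η ^ (i0 + k + r) * ‖1 - V i1‖ ≤ B * (η / 2) ^ k :=
      h1.trans (h2.trans (mul_le_mul_of_nonneg_left h3 hBpos.le))
    have h5 : η ^ (i0 + k + r) = η ^ k * η ^ (i0 + r) := by ring
    have h6 : B * (η / 2) ^ k = η ^ k * (B * (1 / 2) ^ k) := by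
      have h7 : (η / 2) ^ k = η ^ k * (1 / 2) ^ k := by
        rw [← mul_pow]
        congr 1
        ring
      rw [h7]; ring
    rw [h5, h6, mul_assoc] at h4
    exact le_of_mul_le_mul_left h4 (by positivity)
  have hlim : Tendsto (fun k : ℕ => B * (1 / 2 : ℝ) ^ k) atTop (𝓝 0) := by
    have := (tendsto_pow_atTop_nhds_zero_of_lt_one (r := (1 / 2 : ℝ)) (by norm_num) (by norm_num)).const_mul B
    rwa [mul_zero] at this
  have := ge_of_tendsto hlim hfin
  have h8 : 0 < η ^ (i0 + r) * ‖1 - V i1‖ := by positivity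
  linarith

end dyn

/-- the integral relations between the absolute values of `u` and `v` are cyclic -/
lemma cyc (x y : ℝ) (hx : 0 < x) (hx1 : x ≠ 1) (hy : 0 < y) :
    ∃ μ₁ μ₂ : ℤ, x ^ μ₁ * y ^ μ₂ = 1 ∧ ∀ a b : ℤ, x ^ a * y ^ b = 1 → ∃ n : ℤ, a = n * μ₁ ∧ b = n * μ₂ := by
  let H : AddSubgroup ℤ :=
    { carrier := {b | ∃ a : ℤ, x ^ a * y ^ b = 1}
      zero_mem' := ⟨0, by simp⟩
      add_mem' := by
        rintro b b' ⟨a, ha⟩ ⟨a', ha'⟩
        refine ⟨a + a', ?_⟩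
        rw [zpow_add₀ hx.ne', zpow_add₀ hy.ne']
        calc x ^ a * x ^ a' * (y ^ b * y ^ b') = (x ^ a * y ^ b) * (x ^ a' * y ^ b') := by ring
          _ = 1 := by rw [ha, ha', one_mul]
      neg_mem' := by
        rintro b ⟨a, ha⟩
        refine ⟨-a, ?_⟩
        rw [zpow_neg, zpow_neg, ← mul_inv, ha, inv_one] }
  obtain ⟨g, hg⟩ := Int.subgroup_cyclic H
  have hgH : g ∈ H := by
    rw [hg]
    exact AddSubgroup.subset_closure (Set.mem_singleton g)
  obtain ⟨μ₁, hμ⟩ := hgH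
  refine ⟨μ₁, g, hμ, ?_⟩
  intro a b hab
  have hb : b ∈ H := ⟨a, hab⟩
  rw [hg, AddSubgroup.mem_closure_singleton] at hb
  obtain ⟨n, hn⟩ := hb
  refine ⟨n, ?_, by rw [← hn]; simp⟩
  have h1 : x ^ (a - n * μ₁) = 1 := by
    have e1 : b = n * g := by rw [← hn]; simp
    rw [zpow_sub₀ hx.ne']
    have h2 : x ^ (n * μ₁) * y ^ (n * g) = 1 := by
      rw [mul_comm n μ₁, mul_comm n g, zpow_mul, zpow_mul, ← mul_zpow, hμ, one_zpow]
    have h3 : y ^ (n * g) ≠ 0 := (zpow_pos hy _).ne'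
    rw [e1] at hab
    have h4 : x ^ a = x ^ (n * μ₁) := mul_right_cancel₀ h3 (hab.trans h2.symm)
    rw [h4, div_self (zpow_pos hx _).ne']
  have := (zpow_eq_one_iff_right₀ hx.le hx1).1 h1
  omega

/-- finitely many numbers less than one -/
lemma exists_rho {ι : Type*} (s : Finset ι) (g : ι → ℝ) (h : ∀ i ∈ s, g i < 1) :
    ∃ ρ : ℝ, 0 < ρ ∧ ρ < 1 ∧ ∀ i ∈ s, g i ≤ ρ := by
  classical
  induction s using Finset.induction_on with
  | empty => exact ⟨1 / 2, by norm_num, by norm_num, by simp⟩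
  | insert a s ha ih =>
    obtain ⟨ρ, h0, h1, h2⟩ := ih (fun i hi => h i (Finset.mem_insert_of_mem hi))
    refine ⟨max ρ (g a), lt_max_of_lt_left h0, max_lt h1 (h a (Finset.mem_insert_self _ _)), ?_⟩
    intro i hi
    rcases Finset.mem_insert.1 hi with rfl | hi
    · exact le_max_right _ _
    · exact (h2 i hi).trans (le_max_left _ _)

theorem _root_.Pool.Agent.H54.AD.zp1 : S_ZP1 := by
  classical
  intro 𝕜 _ _ _ G u v N hG hu hv hu1 hN hz
  -- the support
  set T : Finset (ℕ × ℕ) := G.support.biUnion (fun j => (G.coeff j).support.image (fun i => (i, j)))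
    with hT
  set Cf : ℕ × ℕ → 𝕜 := fun x => (G.coeff x.2).coeff x.1 with hCf
  have hTmem : ∀ x, x ∈ T ↔ Cf x ≠ 0 := by
    rintro ⟨i, j⟩
    simp only [hT, Finset.mem_biUnion, Finset.mem_image, mem_support_iff, hCf, Prod.mk.injEq]
    constructor
    · rintro ⟨j', hj', i', hi', rfl, rfl⟩
      exact hi'
    · intro h
      refine ⟨j, ?_, i, h, rfl, rfl⟩
      intro h0
      rw [h0] at h
      simp at h
  have hev : ∀ t : ℕ, ev (RingHom.id 𝕜) (u ^ t) (v ^ t) G = ∑ x ∈ T, Cf x * (u ^ x.1 * v ^ x.2) ^ t := by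
    intro t
    rw [hT, Finset.sum_biUnion]
    · unfold ev
      rw [eval₂_eq_sum, Polynomial.sum]
      apply Finset.sum_congr rfl
      intro j _
      rw [Finset.sum_image (by intro a _ b _ h; exact (Prod.mk.inj h).1)]
      rw [coe_eval₂RingHom, eval₂_eq_sum, Polynomial.sum, Finset.sum_mul]
      apply Finset.sum_congr rfl
      intro i _
      simp only [hCf, RingHom.id_apply]
      rw [mul_pow, ← pow_mul, ← pow_mul, ← pow_mul, ← pow_mul, mul_comm t i, mul_comm t j, mul_assoc]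
    · intro j _ j' _ hne
      rw [Function.onFun, Finset.disjoint_left]
      rintro ⟨a, b⟩ h1 h2
      simp only [Finset.mem_image, Prod.mk.injEq] at h1 h2
      obtain ⟨_, _, _, rfl⟩ := h1
      obtain ⟨_, _, _, h3⟩ := h2
      exact hne h3.symm
  have hTne : T.Nonempty := by
    have h1 : G.leadingCoeff ≠ 0 := leadingCoeff_ne_zero.2 hG
    refine ⟨((G.coeff G.natDegree).natDegree, G.natDegree), ?_⟩
    rw [hTmem]
    simp only [hCf]
    rw [coeff_natDegree, coeff_natDegree]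
    exact leadingCoeff_ne_zero.2 h1
  -- maximal term
  obtain ⟨x0, hx0T, hx0⟩ := Finset.exists_max_image T (fun x => ‖u‖ ^ x.1 * ‖v‖ ^ x.2) hTne
  have hupos : 0 < ‖u‖ := norm_pos_iff.2 hu
  have hvpos : 0 < ‖v‖ := norm_pos_iff.2 hv
  set g : ℕ × ℕ → 𝕜 := fun x => (u ^ x.1 * v ^ x.2) / (u ^ x0.1 * v ^ x0.2) with hg
  have hgnorm : ∀ x, ‖g x‖ = (‖u‖ ^ x.1 * ‖v‖ ^ x.2) / (‖u‖ ^ x0.1 * ‖v‖ ^ x0.2) := by
    intro x
    simp [hg]
  have hgle : ∀ x ∈ T, ‖g x‖ ≤ 1 := by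
    intro x hx
    rw [hgnorm, div_le_one (by positivity)]
    exact hx0 x hx
  set S := T.filter (fun x => ‖g x‖ = 1) with hS
  obtain ⟨ρ, hρ0, hρ1, hρ⟩ := exists_rho (T.filter (fun x => ¬ ‖g x‖ = 1)) (fun x => ‖g x‖) (by
    intro x hx
    rw [Finset.mem_filter] at hx
    exact lt_of_le_of_ne (hgle x hx.1) hx.2)
  have hx0S : x0 ∈ S := by
    rw [hS, Finset.mem_filter]
    refine ⟨hx0T, ?_⟩
    rw [hgnorm, div_self (by positivity)]
  -- the sum over S is small
  set K : ℝ := ∑ x ∈ T, ‖Cf x‖ with hK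
  have hsmall : ∀ i : ℕ, ‖∑ x ∈ S, Cf x * g x ^ (N ^ i)‖ ≤ K * ρ ^ (N ^ i) := by
    intro i
    set t := N ^ i with ht
    have h1 : ∑ x ∈ T, Cf x * g x ^ t = 0 := by
      have h2 := hz i
      rw [← ht, hev t] at h2
      have h3 : ∀ x ∈ T, Cf x * g x ^ t = (Cf x * (u ^ x.1 * v ^ x.2) ^ t) / (u ^ x0.1 * v ^ x0.2) ^ t := by
        intro x _
        simp only [hg]
        rw [div_pow, mul_div_assoc]
      rw [Finset.sum_congr rfl h3, ← Finset.sum_div, h2, zero_div]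
    rw [← Finset.sum_filter_add_sum_filter_not T (fun x => ‖g x‖ = 1)] at h1
    have h2 : ∑ x ∈ S, Cf x * g x ^ t =
        -∑ x ∈ T.filter (fun x => ¬ ‖g x‖ = 1), Cf x * g x ^ t := by
      rw [hS]
      exact eq_neg_of_add_eq_zero_left h1
    rw [h2, norm_neg]
    calc ‖∑ x ∈ T.filter (fun x => ¬ ‖g x‖ = 1), Cf x * g x ^ t‖
        ≤ ∑ x ∈ T.filter (fun x => ¬ ‖g x‖ = 1), ‖Cf x * g x ^ t‖ := norm_sum_le _ _
      _ ≤ ∑ x ∈ T.filter (fun x => ¬ ‖g x‖ = 1), ‖Cf x‖ * ρ ^ t := by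
          apply Finset.sum_le_sum
          intro x hx
          rw [norm_mul, norm_pow]
          exact mul_le_mul_of_nonneg_left (pow_le_pow_left₀ (norm_nonneg _) (hρ x hx) t) (norm_nonneg _)
      _ ≤ ∑ x ∈ T, ‖Cf x‖ * ρ ^ t := by
          apply Finset.sum_le_sum_of_subset_of_nonneg (Finset.filter_subset _ _)
          intro x _ _
          positivity
      _ = K * ρ ^ t := by rw [hK, Finset.sum_mul]
  -- the lattice
  obtain ⟨μ₁, μ₂, hμ, hcyc⟩ := cyc ‖u‖ ‖v‖ hupos hu1 hvpos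
  set U : 𝕜 := u ^ μ₁ * v ^ μ₂ with hU
  have hUnorm : ‖U‖ = 1 := by rw [hU, norm_mul, norm_zpow, norm_zpow, hμ]
  have hn : ∀ x ∈ S, ∃ n : ℤ, (x.1 : ℤ) - x0.1 = n * μ₁ ∧ (x.2 : ℤ) - x0.2 = n * μ₂ := by
    intro x hx
    rw [hS, Finset.mem_filter] at hx
    apply hcyc
    have h1 := hx.2
    rw [hgnorm] at h1
    rw [zpow_sub₀ hupos.ne', zpow_sub₀ hvpos.ne']
    simp only [zpow_natCast]
    rw [← h1]
    field_simp
  choose! n hn1 hn2 using hn
  have hgU : ∀ x ∈ S, g x = U ^ (n x) := by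
    intro x hx
    simp only [hg, hU]
    rw [mul_zpow, ← zpow_mul, ← zpow_mul, mul_comm μ₁, mul_comm μ₂, ← hn1 x hx, ← hn2 x hx,
      zpow_sub₀ hu, zpow_sub₀ hv]
    simp only [zpow_natCast]
    field_simp
  have hC0 : Cf x0 ≠ 0 := (hTmem x0).1 hx0T
  by_cases hμ0 : μ₁ = 0 ∧ μ₂ = 0
  · -- S is a singleton
    exfalso
    have hS1 : S = {x0} := by
      rw [Finset.eq_singleton_iff_unique_mem]
      refine ⟨hx0S, ?_⟩
      intro x hx
      have h1 := hn1 x hx
      have h2 := hn2 x hx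
      rw [hμ0.1, mul_zero] at h1
      rw [hμ0.2, mul_zero] at h2
      exact Prod.ext (by omega) (by omega)
    have hg0 : g x0 = 1 := by
      simp only [hg]
      rw [div_self]
      exact mul_ne_zero (pow_ne_zero _ hu) (pow_ne_zero _ hv)
    have h1 : ∀ i : ℕ, ‖Cf x0‖ ≤ K * ρ ^ (N ^ i) := by
      intro i
      have h2 := hsmall i
      rw [hS1, Finset.sum_singleton, hg0, one_pow, mul_one] at h2
      exact h2
    have h2 : Tendsto (fun i : ℕ => K * ρ ^ (N ^ i)) atTop (𝓝 0) := by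
      have h3 : Tendsto (fun i : ℕ => ρ ^ (N ^ i)) atTop (𝓝 0) :=
        (tendsto_pow_atTop_nhds_zero_of_lt_one hρ0.le hρ1).comp
          (tendsto_pow_atTop_atTop_of_one_lt (by omega))
      have := h3.const_mul K
      rwa [mul_zero] at this
    have h3 := ge_of_tendsto h2 (Eventually.of_forall h1)
    have h4 : 0 < ‖Cf x0‖ := norm_pos_iff.2 hC0
    linarith
  · refine ⟨μ₁, μ₂, by tauto, ?_⟩
    -- shift
    obtain ⟨M, hM⟩ : ∃ M : ℕ, ∀ x ∈ S, 0 ≤ n x + M := by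
      refine ⟨∑ x ∈ S, (n x).natAbs, ?_⟩
      intro x hx
      have h1 : (n x).natAbs ≤ ∑ x ∈ S, (n x).natAbs :=
        Finset.single_le_sum (f := fun x => (n x).natAbs) (fun _ _ => Nat.zero_le _) hx
      omega
    set Q : 𝕜[X] := ∑ x ∈ S, monomial ((n x + M).toNat) (Cf x) with hQdef
    have hQ0 : Q ≠ 0 := by
      intro h0
      have h1 : Q.coeff ((n x0 + M).toNat) = Cf x0 := by
        rw [hQdef, finsetSum_coeff, Finset.sum_eq_single x0]
        · rw [coeff_monomial, if_pos rfl]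
        · intro x hx hne
          rw [coeff_monomial, if_neg]
          intro h2
          apply hne
          have h3 : n x = n x0 := by
            have h4 := hM x hx
            have h5 := hM x0 hx0S
            omega
          have h4 := hn1 x hx
          have h5 := hn1 x0 hx0S
          have h6 := hn2 x hx
          have h7 := hn2 x0 hx0S
          rw [h3] at h4 h6
          exact Prod.ext (by omega) (by omega)
        · intro h2; exact absurd hx0S h2
      rw [h0, coeff_zero] at h1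
      exact hC0 h1.symm
    have hU0 : U ≠ 0 := by
      intro h0
      rw [h0, norm_zero] at hUnorm
      exact zero_ne_one hUnorm
    apply dyn U hUnorm Q hQ0 K ρ hρ0 hρ1 N hN
    intro i
    have h1 : Q.eval (U ^ (N ^ i)) = (U ^ (N ^ i)) ^ M * ∑ x ∈ S, Cf x * g x ^ (N ^ i) := by
      rw [hQdef, eval_finset_sum, Finset.mul_sum]
      apply Finset.sum_congr rfl
      intro x hx
      rw [eval_monomial, hgU x hx]
      have h2 : (U ^ (N ^ i)) ^ ((n x + M).toNat) = (U ^ (N ^ i)) ^ M * (U ^ (n x)) ^ (N ^ i) := by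
        have h3 : (U ^ (N ^ i)) ≠ 0 := pow_ne_zero _ hU0
        rw [← zpow_natCast (U ^ (N ^ i)) ((n x + M).toNat), Int.toNat_of_nonneg (hM x hx),
          zpow_add₀ h3, zpow_natCast, mul_comm]
        congr 1
        rw [← zpow_natCast U, ← zpow_mul, ← zpow_natCast (U ^ n x), ← zpow_mul, mul_comm]
      rw [h2]; ring
    rw [h1, norm_mul, norm_pow, norm_pow, hUnorm, one_pow, one_pow, one_mul]
    exact hsmall i

end Pool.Agent.H54.AD.Zp1
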