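import Pool.Agent.H54.AD.Defs

set_option autoImplicit false

/-!
# A nonzero algebraic number that is no root of unity has an absolute value different from one
-/

namespace Pool.Agent.H54.AD

open Polynomial
open Pool.Agent.W237.RK
open Pool.Agent.H58P (Qb ht)

/-- a rational number which is integral at all primes is an integer -/
lemma int_of_padic {c : ℚ} (h : ∀ (l : ℕ) [Fact l.Prime], ‖(c : ℚ_[l])‖ ≤ 1) :
    ∃ m : ℤ, (m : ℚ) = c := by
  by_cases hd : c.den = 1
  · exact ⟨c.num, Rat.coe_int_num_of_den_eq_one hd⟩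
  exfalso
  obtain ⟨l, hl, hld⟩ := Nat.exists_prime_and_dvd hd
  have : Fact l.Prime := ⟨hl⟩
  have h1 : (c : ℚ_[l]) * ((c.den : ℤ) : ℚ_[l]) = (c.num : ℚ_[l]) := by
    have h2 : c * (c.den : ℚ) = c.num := Rat.mul_den_eq_num c
    have h3 : ((c * (c.den : ℚ) : ℚ) : ℚ_[l]) = ((c.num : ℚ) : ℚ_[l]) := by rw [h2]
    rw [Rat.cast_mul, Rat.cast_natCast, Rat.cast_intCast] at h3
    rw [Int.cast_natCast]
    exact h3
  have h2 : ‖((c.den : ℤ) : ℚ_[l])‖ < 1 := by
    rw [Padic.norm_intCast_lt_one_iff]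
    exact_mod_cast hld
  have h3 : ‖(c.num : ℚ_[l])‖ < 1 := by
    rw [← h1, norm_mul]
    calc ‖(c : ℚ_[l])‖ * ‖((c.den : ℤ) : ℚ_[l])‖ ≤ 1 * ‖((c.den : ℤ) : ℚ_[l])‖ :=
          mul_le_mul_of_nonneg_right (h l) (norm_nonneg _)
      _ < 1 := by rw [one_mul]; exact h2
  rw [Padic.norm_intCast_lt_one_iff] at h3
  have h4 : l ∣ c.num.natAbs := Int.natCast_dvd.1 h3
  have h5 : l ∣ Nat.gcd c.num.natAbs c.den := Nat.dvd_gcd h4 hld
  rw [c.reduced] at h5
  exact hl.one_lt.ne' (Nat.dvd_one.1 h5)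

lemma coeff_mul_le {l : ℕ} [Fact l.Prime] {P Q : (PadicAlgCl l)[X]} (hP : ∀ j, ‖P.coeff j‖ ≤ 1)
    (hQ : ∀ j, ‖Q.coeff j‖ ≤ 1) (j : ℕ) : ‖(P * Q).coeff j‖ ≤ 1 := by
  rw [coeff_mul]
  apply IsUltrametricDist.norm_sum_le_of_forall_le_of_nonneg zero_le_one
  intro i _
  rw [norm_mul]
  exact mul_le_one₀ (hP _) (norm_nonneg _) (hQ _)

/-- a number all of whose absolute values at the primes are one is integral -/
lemma integral_of_padic {u : Qb}
    (h : ∀ (l : ℕ) [Fact l.Prime] (ψ : Qb →+* PadicAlgCl l), ‖ψ u‖ = 1) : IsIntegral ℤ u := by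
  have hcl : IsAlgClosure ℚ Qb := ⟨inferInstance, AlgebraicClosure.isAlgebraic ℚ⟩
  have hn : Normal ℚ Qb := IsAlgClosure.normal ℚ Qb
  have halg : IsAlgebraic ℚ u := (AlgebraicClosure.isAlgebraic ℚ).isAlgebraic u
  set P := minpoly ℚ u with hP
  have hPm : P.Monic := minpoly.monic halg.isIntegral
  have hsplit : (P.map (algebraMap ℚ Qb)).Splits := IsAlgClosed.splits _
  have hprod : P.map (algebraMap ℚ Qb) =
      ((P.map (algebraMap ℚ Qb)).roots.map (fun r => X - C r)).prod := by
    exact hsplit.eq_prod_roots_of_monic (hPm.map _)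
  have hcoeff : ∀ (l : ℕ) [Fact l.Prime], ∀ j, ‖(P.coeff j : ℚ_[l])‖ ≤ 1 := by
    intro l _ j
    let ψ : Qb →+* PadicAlgCl l := (IsAlgClosed.lift (R := ℚ) (S := Qb)
      (M := PadicAlgCl l)).toRingHom
    have h1 : P.map (algebraMap ℚ (PadicAlgCl l)) =
        ((P.map (algebraMap ℚ Qb)).roots.map (fun r => X - C (ψ r))).prod := by
      have h2 : P.map (algebraMap ℚ (PadicAlgCl l)) = (P.map (algebraMap ℚ Qb)).map ψ := by
        rw [Polynomial.map_map]
        congr 1
        exact RingHom.ext fun x => by simp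
      rw [h2, hprod, Polynomial.map_multiset_prod, Multiset.map_map, ← hprod]
      congr 1
      refine Multiset.map_congr rfl fun r _ => ?_
      simp
    have hroot : ∀ r ∈ (P.map (algebraMap ℚ Qb)).roots, ‖ψ r‖ = 1 := by
      intro r hr
      have h2 : aeval r P = 0 := by
        have := (mem_roots'.1 hr).2
        rwa [IsRoot.def, eval_map_algebraMap] at this
      obtain ⟨σ, hσ⟩ := minpoly.exists_algEquiv_of_root' halg h2
      have := h l (ψ.comp (σ : Qb →+* Qb))
      rw [RingHom.comp_apply] at this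
      rw [← hσ]
      exact this
    have h3 : ∀ j, ‖(P.map (algebraMap ℚ (PadicAlgCl l))).coeff j‖ ≤ 1 := by
      rw [h1]
      apply Multiset.prod_induction (fun Q : (PadicAlgCl l)[X] => ∀ j, ‖Q.coeff j‖ ≤ 1)
      · intro P Q hP hQ
        exact coeff_mul_le hP hQ
      · intro j
        rw [coeff_one]
        split_ifs <;> simp
      · intro Q hQ j
        obtain ⟨r, hr, rfl⟩ := Multiset.mem_map.1 hQ
        rw [coeff_sub, coeff_X, coeff_C, sub_eq_add_neg]
        have hr1 := hroot r hr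
        refine (IsUltrametricDist.norm_add_le_max _ _).trans (max_le ?_ ?_)
        · split_ifs <;> simp
        · rw [norm_neg]
          split_ifs
          · exact hr1.le
          · simp
    have h4 := h3 j
    rw [coeff_map] at h4
    have h5 : algebraMap ℚ (PadicAlgCl l) (P.coeff j) = ((P.coeff j : ℚ_[l]) : PadicAlgCl l) := by
      simp
    rw [h5, PadicAlgCl.norm_extends] at h4
    exact h4
  have hlift : P ∈ Polynomial.lifts (algebraMap ℤ ℚ) := by
    rw [Polynomial.lifts_iff_coeff_lifts]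
    intro j
    obtain ⟨m, hm⟩ := int_of_padic (c := P.coeff j) (fun l _ => hcoeff l j)
    exact ⟨m, by simpa using hm⟩
  obtain ⟨Q, hQ1, _, hQ3⟩ := Polynomial.lifts_and_natDegree_eq_and_monic hlift hPm
  refine ⟨Q, hQ3, ?_⟩
  have h1 : aeval u P = 0 := minpoly.aeval ℚ u
  rw [← hQ1, aeval_map_algebraMap] at h1
  exact h1

theorem zp2 : S_ZP2 := by
  intro u hu hT
  by_contra hcon
  push Not at hcon
  obtain ⟨h1, h2⟩ := hcon
  apply hT
  have hint : IsIntegral ℤ u := integral_of_padic (fun l hl ψ => h2 l hl ψ)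
  have halg : IsAlgebraic ℚ u := (AlgebraicClosure.isAlgebraic ℚ).isAlgebraic u
  have : FiniteDimensional ℚ (IntermediateField.adjoin ℚ {u}) :=
    IntermediateField.adjoin.finiteDimensional halg.isIntegral
  have : NumberField (IntermediateField.adjoin ℚ {u}) :=
    { to_charZero := inferInstance, to_finiteDimensional := inferInstance }
  set x : IntermediateField.adjoin ℚ {u} :=
    ⟨u, IntermediateField.mem_adjoin_simple_self ℚ u⟩ with hx
  have hxi : IsIntegral ℤ x := by
    have : Function.Injective (algebraMap (IntermediateField.adjoin ℚ {u}) Qb) :=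
      (algebraMap (IntermediateField.adjoin ℚ {u}) Qb).injective
    exact (isIntegral_algebraMap_iff this).1 hint
  obtain ⟨n, hn, hxn⟩ := NumberField.Embeddings.pow_eq_one_of_norm_eq_one
    (IntermediateField.adjoin ℚ {u}) ℂ hxi (fun φ => by
      let _ : Algebra (IntermediateField.adjoin ℚ {u}) ℂ := φ.toAlgebra
      have : Algebra.IsAlgebraic ℚ Qb := AlgebraicClosure.isAlgebraic ℚ
      have : Algebra.IsAlgebraic (IntermediateField.adjoin ℚ {u}) Qb :=
        Algebra.IsAlgebraic.tower_top (K := ℚ) _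
      let ψ : Qb →ₐ[IntermediateField.adjoin ℚ {u}] ℂ := IsAlgClosed.lift
      have h3 := h1 ψ.toRingHom
      have h4 : ψ.toRingHom u = φ x := ψ.commutes x
      rw [← h4]
      exact h3)
  refine ⟨n, hn, ?_⟩
  have := congrArg (fun y : IntermediateField.adjoin ℚ {u} => (y : Qb)) hxn
  simpa [hx] using this

end Pool.Agent.H54.AD
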