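import Mathlib
import Pool.Agent.H54.AD.Ad3
import Pool.Agent.H54.AD.Main4
import Pool.Agent.H54.AD.Bez
import Pool.Agent.H54.AD.Clo
import Pool.Agent.H54.AD.Detl
import Pool.Agent.H54.AD.Emb
import Pool.Agent.H54.AD.Gam
import Pool.Agent.H54.AD.Ge
import Pool.Agent.H54.AD.Half
import Pool.Agent.H54.AD.Ind
import Pool.Agent.H54.AD.Min
import Pool.Agent.H54.AD.Pad
import Pool.Agent.H54.AD.Pig
import Pool.Agent.H54.AD.Prm
import Pool.Agent.H54.AD.Sel
import Pool.Agent.H54.AD.Two
import Pool.Agent.H54.AD.Ze3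
import Pool.Agent.H54.AD.Zea
import Pool.Agent.H54.AD.Zp1
import Pool.Agent.H54.AD.Zp2

set_option autoImplicit false
set_option linter.unusedVariables false

/-!
# All the pieces together
-/

namespace Pool.Agent.H54.AD

open Pool.Agent.W237.RK
open Pool.Agent.H54.RX

theorem zea' : S_ZEA := zea pig (fun L M I R => sel' L M I R) prm half ind (ze3 bez zp1 zp2)

theorem locd' : S_LOCD := locd pad detl clo gam emb

theorem ad2' : S_AD2 := ad2 locd' zea' ge AD.min glf3

theorem star' : S_STAR := star two ad2' cs3' frob bog3'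

theorem main4' : S_MAIN4 := main4 cs3' ks3' star'

end Pool.Agent.H54.AD
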