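import Mathlib
import Pool.Agent.H54.AD.Defs
import Pool.Agent.H54.G.W237.RK.Gal
import Pool.Agent.H54.G.W669.RK.Kro
import Pool.Agent.H54.G.H58B.Low

set_option autoImplicit false
set_option linter.unusedVariables false

/-!
# AD-ZE3: a prime curve contains two levels at a given distance only rarely
-/

namespace Pool.Agent.H54.AD

open Polynomial
open Pool.Agent.W237.RK
open Pool.Agent.H58P (Qb ht)
open Pool.Agent.H58R (ht_nonneg)
open Pool.Agent.H58B (ht_conj ht_pow)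
open Pool.Agent.W669.RK (tor_of_ht_zero)

namespace Ze3

/-! ### values of polynomials in two variables -/

lemma ev_hom {R S T : Type*} [CommSemiring R] [CommSemiring S] [CommSemiring T] (f : R →+* S)
    (g : S →+* T) (x y : S) (P : PP R) : g (ev f x y P) = ev (g.comp f) (g x) (g y) P := by
  unfold ev
  rw [hom_eval₂]
  congr 1
  apply Polynomial.ringHom_ext
  · intro a; simp
  · simp

lemma ev_map {R S T : Type*} [CommSemiring R] [CommSemiring S] [CommSemiring T] (h : R →+* S)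
    (g : S →+* T) (x y : T) (P : PP R) :
    ev g x y (P.map (mapRingHom h)) = ev (g.comp h) x y P := by
  unfold ev
  rw [eval₂_map]
  congr 1
  apply Polynomial.ringHom_ext
  · intro a; simp
  · simp

/-- `P ↦ P^τ (X^n, Y^n)` -/
noncomputable def Ph {R : Type*} [CommRing R] (τ : R →+* R) (n : ℕ) : PP R →+* PP R :=
  ((expand (Polynomial R) n : PP R →ₐ[Polynomial R] PP R) : PP R →+* PP R).comp
    (mapRingHom ((((expand R n : R[X] →ₐ[R] R[X]) : R[X] →+* R[X])).comp (mapRingHom τ)))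

lemma ev_Ph {R S : Type*} [CommRing R] [CommRing S] (τ : R →+* R) (n : ℕ) (f : R →+* S)
    (x y : S) (P : PP R) : ev f x y (Ph τ n P) = ev (f.comp τ) (x ^ n) (y ^ n) P := by
  unfold ev Ph
  simp only [RingHom.comp_apply, coe_mapRingHom, RingHom.coe_coe]
  rw [expand_eq_comp_X_pow, eval₂_comp, eval₂_map, eval₂_pow, eval₂_X]
  congr 1
  apply Polynomial.ringHom_ext
  · intro a
    simp [expand_C]
  · simp

lemma biDeg_Ph {R : Type*} [CommRing R] (τ : R →+* R) {n : ℕ} (hn : 0 < n) {P : PP R} {A B : ℕ}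
    (h : BiDeg P A B) : BiDeg (Ph τ n P) (n * A) (n * B) := by
  constructor
  · unfold Ph
    simp only [RingHom.comp_apply, coe_mapRingHom, RingHom.coe_coe]
    rw [natDegree_expand, mul_comm]
    exact Nat.mul_le_mul_left _ ((natDegree_map_le).trans h.1)
  · intro i
    unfold Ph
    simp only [RingHom.comp_apply, coe_mapRingHom, RingHom.coe_coe]
    rw [coeff_expand hn]
    split_ifs with hi
    · rw [coeff_map]
      simp only [RingHom.comp_apply, coe_mapRingHom, RingHom.coe_coe]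
      rw [natDegree_expand, mul_comm]
      exact Nat.mul_le_mul_left _ ((natDegree_map_le).trans (h.2 _))
    · simp

lemma ev_Ph_iter {R S : Type*} [CommRing R] [CommRing S] (τ : R →+* R) (n : ℕ) (f : R →+* S)
    (P : PP R) (i : ℕ) : ∀ (x y : S),
    ev f x y ((Ph τ n)^[i] P) = ev (f.comp (τ ^ i : R →+* R)) (x ^ (n ^ i)) (y ^ (n ^ i)) P := by
  induction i generalizing P with
  | zero =>
    intro x y
    rw [Function.iterate_zero, id, pow_zero, pow_zero, pow_one, pow_one]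
    rfl
  | succ i ih =>
    intro x y
    rw [Function.iterate_succ, Function.comp_apply, ih, ev_Ph, ← pow_mul, ← pow_mul, ← pow_succ,
      RingHom.comp_assoc]
    rfl

/-! ### torsion and levels -/

lemma tor_of_pow {x : Qb} {k : ℕ} (hk : 0 < k) (h : Tor (x ^ k)) : Tor x := by
  obtain ⟨n, hn, h1⟩ := h
  exact ⟨k * n, Nat.mul_pos hk hn, by rw [pow_mul]; exact h1⟩

lemma tor_of_map {x : Qb} (ρ : Aut) (h : Tor (ρ x)) : Tor x := by
  obtain ⟨n, hn, h1⟩ := h
  refine ⟨n, hn, ρ.injective ?_⟩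
  rw [map_pow, h1, map_one]

lemma pt_pow (σ : Aut) (q e : ℕ) (y : Qb) {j m : ℕ} (h : j + m ≤ e) :
    pt σ q e y j ^ (q ^ m) = (σ ^ m) (pt σ q e y (j + m)) := by
  unfold pt
  rw [map_pow, ← pow_mul, ← pow_add, ← AlgEquiv.mul_apply, ← pow_add]
  congr 3
  omega

lemma ht_pt (σ : Aut) (q e : ℕ) (y : Qb) (j : ℕ) : ht (pt σ q e y j) = q ^ j * ht y := by
  unfold pt
  rw [ht_pow, ht_conj]
  push_cast
  ring

lemma pt_ne_zero (σ : Aut) (q e : ℕ) {y : Qb} (hy : y ≠ 0) (j : ℕ) : pt σ q e y j ≠ 0 := by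
  unfold pt
  exact pow_ne_zero _ ((_root_.map_ne_zero _).2 hy)

lemma zpow_pow_comm (X : Qb) (c : ℤ) (k : ℕ) : (X ^ k) ^ c = (X ^ c) ^ k := by
  rw [← zpow_natCast, ← zpow_natCast, ← zpow_mul, ← zpow_mul, mul_comm]

lemma pow_mem_E {E : GF} {σ : Aut} (hσE : ∀ x ∈ E, σ x ∈ E) (k : ℕ) : ∀ x ∈ E, (σ ^ k) x ∈ E := by
  induction k with
  | zero => intro x hx; simpa using hx
  | succ k ih =>
    intro x hx
    rw [pow_succ', AlgEquiv.mul_apply]
    exact hσE _ (ih x hx)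

/-- restriction to `E` -/
noncomputable def res (E : GF) (s : Aut) (hs : ∀ x ∈ E, s x ∈ E) : E →ₐ[ℚ] E :=
  ((s : Qb →ₐ[ℚ] Qb).comp E.val).codRestrict E.toSubalgebra (fun x => hs x x.2)

lemma res_apply (E : GF) (s : Aut) (hs : ∀ x ∈ E, s x ∈ E) (x : E) :
    ((res E s hs x : E) : Qb) = s x := rfl

lemma surj_E (E : GF) [FiniteDimensional ℚ E] (s : Aut) (hs : ∀ x ∈ E, s x ∈ E) :
    ∀ x ∈ E, ∃ y ∈ E, s y = x := by
  intro x hx
  obtain ⟨y, hy⟩ := (AlgHom.bijective (res E s hs)).2 ⟨x, hx⟩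
  refine ⟨y, y.2, ?_⟩
  rw [← res_apply E s hs y, hy]

lemma fix_conj (E : GF) [FiniteDimensional ℚ E] (s : Aut) (hs : ∀ x ∈ E, s x ∈ E) {ρ : Aut}
    (hρ : Fix E ρ) : Fix E (s * ρ * s⁻¹) := by
  intro x hx
  obtain ⟨y, hy, rfl⟩ := surj_E E s hs x hx
  rw [AlgEquiv.mul_apply, AlgEquiv.mul_apply]
  have : s⁻¹ (s y) = y := s.symm_apply_apply y
  rw [this, hρ y hy]

lemma pt_conj (σ ρ : Aut) (q e j : ℕ) (y : Qb) :
    pt σ q e (ρ y) j = (σ ^ (e - j) * ρ * (σ ^ (e - j))⁻¹) (pt σ q e y j) := by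
  unfold pt
  rw [map_pow]
  congr 1
  rw [AlgEquiv.mul_apply, AlgEquiv.mul_apply]
  have : (σ ^ (e - j))⁻¹ ((σ ^ (e - j)) y) = y := (σ ^ (e - j)).symm_apply_apply y
  rw [this]

lemma ev_conj (E : GF) [FiniteDimensional ℚ E] {σ ρ : Aut} (hσE : ∀ x ∈ E, σ x ∈ E)
    (hρ : Fix E ρ) (q e j : ℕ) (u v : Qb) (P : PP E)
    (h : ev (algebraMap E Qb) (pt σ q e u j) (pt σ q e v j) P = 0) :
    ev (algebraMap E Qb) (pt σ q e (ρ u) j) (pt σ q e (ρ v) j) P = 0 := by
  set ρ' : Aut := σ ^ (e - j) * ρ * (σ ^ (e - j))⁻¹ with hρ'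
  have hfix : Fix E ρ' := fix_conj E _ (pow_mem_E hσE _) hρ
  rw [pt_conj, pt_conj, ← hρ']
  have h1 := ev_hom (algebraMap E Qb) (ρ' : Qb →+* Qb) (pt σ q e u j) (pt σ q e v j) P
  rw [h, map_zero] at h1
  have h2 : (ρ' : Qb →+* Qb).comp (algebraMap E Qb) = algebraMap E Qb := by
    ext x
    exact hfix x x.2
  rw [h2] at h1
  exact h1.symm

lemma orb2_finite (E : GF) (u v : Qb) : (orb2 E u v).Finite := by
  apply ((orb_finite E u).prod (orb_finite E v)).subset
  rintro x ⟨ρ, hρ, rfl⟩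
  exact ⟨⟨ρ, hρ, rfl⟩, ⟨ρ, hρ, rfl⟩⟩

lemma not_tor_left {u v : Qb} (h : Indep u v) : ¬ Tor u := by
  intro ht
  have := (h 1 0 (by simpa using ht)).1
  exact one_ne_zero this

end Ze3

open Ze3 in
theorem ze3 : S_BEZ → S_ZP1 → S_ZP2 → S_ZE3 := by
  classical
  intro hBEZ hZP1 hZP2 E σ q e u v hE hσE hq hu hv hind htr G A B hG hdeg K m hm hK
  rcases K.eq_empty_or_nonempty with hK0 | ⟨j₀, hj₀⟩
  · rw [hK0]; simp
  have hq0 : 0 < q := by omega
  have hn0 : 0 < q ^ m := pow_pos hq0 m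
  have hnu := not_tor_left hind
  have htu : 0 < ht u := by
    rcases (ht_nonneg u).lt_or_eq with h | h
    · exact h
    · exact absurd (tor_of_ht_zero u hu h.symm) hnu
  set τ : E →ₐ[ℚ] E := res E (σ ^ m) (pow_mem_E hσE m) with hτ
  set f : E →+* Qb := algebraMap E Qb with hf
  set F : PP E := Ph (τ : E →+* E) (q ^ m) G with hF
  have hfτ : f.comp (τ : E →+* E) = ((σ ^ m : Aut) : Qb →+* Qb).comp f := by
    ext x
    rfl
  by_cases hdvd : G ∣ F
  · -- the curve is stable: contradiction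
    exfalso
    have hit : ∀ i, G ∣ (Ph (τ : E →+* E) (q ^ m))^[i] G := by
      intro i
      induction i with
      | zero => exact dvd_refl _
      | succ i ih =>
        rw [Function.iterate_succ', Function.comp_apply]
        exact hdvd.trans (map_dvd (Ph (τ : E →+* E) (q ^ m)) ih)
    set τe : E ≃ₐ[ℚ] E := AlgEquiv.ofBijective τ (AlgHom.bijective τ) with hτe
    have ho : 0 < orderOf τe := orderOf_pos τe
    set o := orderOf τe with hodef
    have hτpow : ∀ i : ℕ, ∀ x : E, ((τ : E →+* E) ^ i) x = (τe ^ i) x := by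
      intro i
      induction i with
      | zero => intro x; rfl
      | succ i ih =>
        intro x
        rw [pow_succ', pow_succ', RingHom.mul_def, RingHom.comp_apply, ih, AlgEquiv.mul_apply]
        rfl
    have hfo : ∀ t : ℕ, f.comp ((τ : E →+* E) ^ (o * t) : E →+* E) = f := by
      intro t
      ext x
      rw [RingHom.comp_apply, hτpow, pow_mul, pow_orderOf_eq_one, one_pow]
      rfl
    set x₀ := pt σ q e u j₀ with hx₀
    set y₀ := pt σ q e v j₀ with hy₀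
    have hx₀0 : x₀ ≠ 0 := pt_ne_zero σ q e hu j₀
    have hy₀0 : y₀ ≠ 0 := pt_ne_zero σ q e hv j₀
    have hG0 := (hK j₀ hj₀).2.1
    have hz : ∀ t : ℕ, ev f (x₀ ^ ((q ^ m) ^ (o * t))) (y₀ ^ ((q ^ m) ^ (o * t))) G = 0 := by
      intro t
      have h1 := ev_Ph_iter (τ : E →+* E) (q ^ m) f G (o * t) x₀ y₀
      rw [hfo t] at h1
      rw [← h1]
      obtain ⟨H, hH⟩ := hit (o * t)
      rw [hH]
      unfold ev at hG0 ⊢
      rw [eval₂_mul, hG0, zero_mul]
    have hnx : ¬ Tor x₀ := by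
      intro h
      exact hnu (tor_of_map (σ ^ (e - j₀)) (tor_of_pow (pow_pos hq0 j₀) h))
    have hN2 : 2 ≤ (q ^ m) ^ o := by
      calc 2 ≤ q := hq
        _ = q ^ 1 := (pow_one _).symm
        _ ≤ q ^ (m * o) := Nat.pow_le_pow_right hq0 (Nat.mul_pos hm ho)
        _ = (q ^ m) ^ o := pow_mul _ _ _
    have key : ∀ (𝕜 : Type) [NormedField 𝕜] [CharZero 𝕜] [IsAlgClosed 𝕜] (ψ : Qb →+* 𝕜),
        ‖ψ x₀‖ ≠ 1 → False := by
      intro 𝕜 _ _ _ ψ hψ
      have hG' : G.map (mapRingHom (ψ.comp f)) ≠ 0 := by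
        rw [Ne, Polynomial.map_eq_zero_iff]
        · exact hG.ne_zero
        · exact Polynomial.map_injective _ (ψ.comp f).injective
      obtain ⟨a, b, hab, n, hn, h1⟩ := hZP1 𝕜 (G.map (mapRingHom (ψ.comp f))) (ψ x₀) (ψ y₀)
        ((q ^ m) ^ o) hG' (by simpa using hx₀0) (by simpa using hy₀0) hψ hN2 (by
          intro t
          rw [ev_map, RingHom.id_comp, ← pow_mul, ← map_pow, ← map_pow, ← ev_hom, hz t, map_zero])
      have h2 : ψ ((x₀ ^ a * y₀ ^ b) ^ n) = ψ 1 := by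
        rw [map_pow, map_mul, map_zpow₀, map_zpow₀, h1, map_one]
      have h3 : Tor (x₀ ^ a * y₀ ^ b) := ⟨n, hn, ψ.injective h2⟩
      have h4 : x₀ ^ a * y₀ ^ b = ((σ ^ (e - j₀)) (u ^ a * v ^ b)) ^ (q ^ j₀) := by
        rw [hx₀, hy₀]
        unfold pt
        rw [map_mul, map_zpow₀, map_zpow₀, mul_pow, zpow_pow_comm, zpow_pow_comm]
      rw [h4] at h3
      have h5 := hind a b (tor_of_map _ (tor_of_pow (pow_pos hq0 j₀) h3))
      rcases hab with h | h
      · exact h h5.1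
      · exact h h5.2
    rcases hZP2 x₀ hx₀0 hnx with ⟨ψ, hψ⟩ | ⟨l, hl, ψ, hψ⟩
    · exact key ℂ ψ hψ
    · exact key (PadicAlgCl l) ψ hψ
  · -- Bezout
    set Y := (orb2_finite E u v).toFinset with hY
    have hYmem : ∀ z, z ∈ Y ↔ z ∈ orb2 E u v := fun z => by rw [hY, Set.Finite.mem_toFinset]
    have hYcard : Y.card = (orb2 E u v).ncard := by
      rw [hY, Set.ncard_eq_toFinset_card _ (orb2_finite E u v)]
    set g : ℕ × (Qb × Qb) → Qb × Qb := fun z => (pt σ q e z.2.1 z.1, pt σ q e z.2.2 z.1) with hg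
    have hinj : Set.InjOn g ((K ×ˢ Y : Finset (ℕ × (Qb × Qb))) : Set (ℕ × (Qb × Qb))) := by
      rintro ⟨j, z⟩ hz ⟨j', z'⟩ hz' heq
      rw [Finset.mem_coe, Finset.mem_product] at hz hz'
      obtain ⟨hzj, hzY⟩ := hz
      obtain ⟨hzj', hzY'⟩ := hz'
      obtain ⟨ρ, hρ, rfl⟩ := (hYmem _).1 hzY
      obtain ⟨ρ', hρ', rfl⟩ := (hYmem _).1 hzY'
      rw [hg] at heq
      simp only [Prod.mk.injEq] at heq
      obtain ⟨h1, h2⟩ := heq
      have hjj : j = j' := by
        have h3 := congrArg ht h1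
        rw [ht_pt, ht_pt, ht_conj, ht_conj] at h3
        have h4 := mul_right_cancel₀ htu.ne' h3
        have h5 : q ^ j = q ^ j' := by exact_mod_cast h4
        exact Nat.pow_right_injective hq h5
      subst hjj
      have htor : ∀ w : Qb, w ≠ 0 → pt σ q e (ρ w) j = pt σ q e (ρ' w) j →
          Tor ((ρ'⁻¹ * ρ) w / w) := by
        intro w hw h3
        have h4 : Tor (ρ w / ρ' w) := by
          apply tor_of_map (σ ^ (e - j))
          apply tor_of_pow (pow_pos hq0 j)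
          refine ⟨1, one_pos, ?_⟩
          rw [pow_one, map_div₀, div_pow]
          unfold pt at h3
          rw [h3, div_self]
          exact pow_ne_zero _ ((_root_.map_ne_zero _).2 ((_root_.map_ne_zero _).2 hw))
        apply tor_of_map ρ'
        rw [map_div₀, AlgEquiv.mul_apply]
        have : ρ' (ρ'⁻¹ (ρ w)) = ρ w := ρ'.apply_symm_apply _
        rw [this]
        exact h4
      have hfix : Fix E (ρ'⁻¹ * ρ) := by
        intro x hx
        rw [AlgEquiv.mul_apply, hρ x hx]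
        apply ρ'.injective
        have : ρ' (ρ'⁻¹ x) = x := ρ'.apply_symm_apply _
        rw [this, hρ' x hx]
      obtain ⟨e1, e2⟩ := htr (ρ'⁻¹ * ρ) hfix (htor u hu h1) (htor v hv h2)
      have e3 : ∀ w : Qb, (ρ'⁻¹ * ρ) w = w → ρ w = ρ' w := by
        intro w hw
        rw [AlgEquiv.mul_apply] at hw
        have : ρ' (ρ'⁻¹ (ρ w)) = ρ w := ρ'.apply_symm_apply _
        rw [← this, hw]
      rw [e3 u e1, e3 v e2]
    have hcard : ((K ×ˢ Y).image g).card = K.card * (orb2 E u v).ncard := by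
      rw [Finset.card_image_of_injOn hinj, Finset.card_product, hYcard]
    have hbez := hBEZ E Qb f G F A B (q ^ m * A) (q ^ m * B) hG hdvd hdeg (biDeg_Ph _ hn0 hdeg)
      ((K ×ˢ Y).image g) (by
        intro z hz
        rw [Finset.mem_image] at hz
        obtain ⟨⟨j, w⟩, hjw, rfl⟩ := hz
        rw [Finset.mem_product] at hjw
        obtain ⟨hj, hw⟩ := hjw
        obtain ⟨ρ, hρ, rfl⟩ := (hYmem _).1 hw
        obtain ⟨h1, h2, h3⟩ := hK j hj
        refine ⟨ev_conj E hσE hρ q e j u v G h2, ev_conj E hσE hρ q e j u v F ?_⟩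
        rw [hF, ev_Ph, pt_pow σ q e u h1, pt_pow σ q e v h1]
        have h4 := ev_hom f ((σ ^ m : Aut) : Qb →+* Qb) (pt σ q e u (j + m))
          (pt σ q e v (j + m)) G
        rw [h3, map_zero] at h4
        change ev (f.comp (τ : E →+* E)) _ _ G = 0
        rw [hfτ]
        exact h4.symm)
    rw [hcard] at hbez
    calc _ ≤ _ := hbez
      _ = 2 * q ^ m * (A * B) := by ring

end Pool.Agent.H54.AD
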